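import Pool.Agent.H60.ZCL.BTail

/-!
# Functions of two visible variables: cells and entropies

A function `z` is *closed* on an event `A` if it is a function of `f` and a function of `g` there.
If the numbers of values of `f` in the cells of a closed function cannot be decreased on large
subevents, its logarithm is the entropy of `f` given the closed function, and every other closed
function is determined by it, up to a small entropy.
-/

set_option autoImplicit false

namespace Pool.RCD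

open Finset Real
open Pool.Agent.H49.Ent Pool.Agent.H32.Dense Pool.STK Pool.KA Pool.K2S Pool.PB Pool.S6C

section Fin

variable {Ω α β V V' : Type}

/-- `z` is a function of `f` and a function of `g`, on the event `A`. -/
def Cl2 (f : Ω → α) (g : Ω → β) (A : Ω → Prop) (z : Ω → V) : Prop :=
  (∃ φ : α → V, ∀ ω, A ω → z ω = φ (f ω)) ∧ ∃ ψ : β → V, ∀ ω, A ω → z ω = ψ (g ω)

theorem Cl2.sub {f : Ω → α} {g : Ω → β} {A B : Ω → Prop} {z : Ω → V} (h : Cl2 f g A z)
    (hB : Sub B A) : Cl2 f g B z := by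
  obtain ⟨⟨φ, hφ⟩, ψ, hψ⟩ := h
  exact ⟨⟨φ, fun ω hω => hφ ω (hB ω hω)⟩, ψ, fun ω hω => hψ ω (hB ω hω)⟩

theorem Cl2.comp {f : Ω → α} {g : Ω → β} {A : Ω → Prop} {z : Ω → V} (h : Cl2 f g A z)
    (e : V → V') : Cl2 f g A (fun ω => e (z ω)) := by
  obtain ⟨⟨φ, hφ⟩, ψ, hψ⟩ := h
  exact ⟨⟨fun a => e (φ a), fun ω hω => congrArg e (hφ ω hω)⟩, fun b => e (ψ b),
    fun ω hω => congrArg e (hψ ω hω)⟩

theorem Cl2.join {f : Ω → α} {g : Ω → β} {A : Ω → Prop} {z : Ω → V} {z' : Ω → V'}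
    (h : Cl2 f g A z) (h' : Cl2 f g A z') : Cl2 f g A (fun ω => (z ω, z' ω)) := by
  obtain ⟨⟨φ, hφ⟩, ψ, hψ⟩ := h
  obtain ⟨⟨φ', hφ'⟩, ψ', hψ'⟩ := h'
  exact ⟨⟨fun a => (φ a, φ' a), fun ω hω => Prod.ext (hφ ω hω) (hφ' ω hω)⟩,
    fun b => (ψ b, ψ' b), fun ω hω => Prod.ext (hψ ω hω) (hψ' ω hω)⟩

theorem Cl2.pi {ι : Type} {V : ι → Type} {f : Ω → α} {g : Ω → β} {A : Ω → Prop}
    {z : ∀ i, Ω → V i} (h : ∀ i, Cl2 f g A (z i)) : Cl2 f g A (fun ω i => z i ω) := by
  choose h1 h2 using h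
  choose φ hφ using h1
  choose ψ hψ using h2
  exact ⟨⟨fun a i => φ i a, fun ω hω => funext fun i => hφ i ω hω⟩,
    fun b i => ψ i b, fun ω hω => funext fun i => hψ i ω hω⟩

/-- Closed functions for coarser visible variables. -/
theorem Cl2.mono {α' β' : Type} {f : Ω → α} {g : Ω → β} {f' : Ω → α'} {g' : Ω → β'}
    {A : Ω → Prop} {z : Ω → V} (h : Cl2 f g A z) (hf : ∃ φ : α' → α, ∀ ω, A ω → f ω = φ (f' ω))
    (hg : ∃ ψ : β' → β, ∀ ω, A ω → g ω = ψ (g' ω)) : Cl2 f' g' A z := by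
  obtain ⟨⟨φ, hφ⟩, ψ, hψ⟩ := h
  obtain ⟨a, ha⟩ := hf
  obtain ⟨b, hb⟩ := hg
  exact ⟨⟨fun y => φ (a y), fun ω hω => by rw [hφ ω hω, ha ω hω]⟩,
    fun y => ψ (b y), fun ω hω => by rw [hψ ω hω, hb ω hω]⟩

/-- Functions which agree on the event. -/
theorem Cl2.congr {f : Ω → α} {g : Ω → β} {A : Ω → Prop} {z z' : Ω → V} (h : Cl2 f g A z)
    (e : ∀ ω, A ω → z' ω = z ω) : Cl2 f g A z' := by
  obtain ⟨⟨φ, hφ⟩, ψ, hψ⟩ := h
  exact ⟨⟨φ, fun ω hω => by rw [e ω hω, hφ ω hω]⟩, ψ, fun ω hω => by rw [e ω hω, hψ ω hω]⟩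

variable [Fintype Ω]

open Classical in
/-- The set of the values on an event. -/
noncomputable def cset (p : Ω → ℝ) (Y : Ω → α) (A : Ω → Prop) : Finset α :=
  (univ.filter fun ω => 0 < p ω ∧ A ω).image Y

theorem cset_card (p : Ω → ℝ) (Y : Ω → α) (A : Ω → Prop) : (cset p Y A).card = cnt p Y A := rfl

theorem mem_cset {p : Ω → ℝ} (Y : Ω → α) {A : Ω → Prop} {ω : Ω} (h : 0 < p ω) (hA : A ω) :
    Y ω ∈ cset p Y A := by
  classical
  unfold cset
  refine mem_image_of_mem Y ?_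
  rw [mem_filter]
  exact ⟨mem_univ ω, h, hA⟩

theorem of_mem_cset {p : Ω → ℝ} {Y : Ω → α} {A : Ω → Prop} {y : α} (h : y ∈ cset p Y A) :
    ∃ ω, 0 < p ω ∧ A ω ∧ Y ω = y := by
  classical
  unfold cset at h
  rw [mem_image] at h
  obtain ⟨ω, hω, h1⟩ := h
  rw [mem_filter] at hω
  exact ⟨ω, hω.2.1, hω.2.2, h1⟩

/-- The entropy is at most the logarithm of the number of values in the cells. -/
theorem CH_le_cells {p : Ω → ℝ} (hp : IsLaw p) (Y : Ω → α) (z : Ω → V) {A : Ω → Prop}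
    (hA : 0 < Pe p A) {M : ℝ}
    (h : ∀ v, (cnt p Y (fun ω => A ω ∧ z ω = v) : ℝ) ≤ M) :
    CH (Pool.Agent.H49.Ent.cond p A True) Y z ≤ Real.log M := by
  classical
  have hcl := isLaw_cond hp hA
  have hsup : ∀ ω, 0 < Pool.Agent.H49.Ent.cond p A True ω → 0 < p ω ∧ A ω := by
    intro ω hω
    have h1 := (cond_pos_iff hp.nonneg A True ω).1 hω
    exact ⟨h1.1, by simpa using h1.2⟩
  have key := CH_le_card hcl.nonneg hcl.sum_one Y z
    (fun v => cset p Y fun ω => A ω ∧ z ω = v) (by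
      intro ω hω
      obtain ⟨h1, h2⟩ := hsup ω hω
      exact mem_cset Y h1 ⟨h2, rfl⟩)
  refine key.trans ?_
  have e : Ex (Pool.Agent.H49.Ent.cond p A True) (fun _ => Real.log M) = Real.log M :=
    Ex_const hcl.sum_one _
  rw [← e]
  refine Ex_mono hcl.nonneg fun ω hω => ?_
  obtain ⟨h1, h2⟩ := hsup ω hω
  have h3 := h (z ω)
  have h4 : (1 : ℝ) ≤ ((cset p Y fun ω' => A ω' ∧ z ω' = z ω).card : ℝ) := by
    have : 0 < (cset p Y fun ω' => A ω' ∧ z ω' = z ω).card :=
      card_pos.2 ⟨Y ω, mem_cset Y h1 ⟨h2, rfl⟩⟩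
    exact_mod_cast this
  refine Real.log_le_log (by linarith) ?_
  rw [cset_card]
  exact h3

/-- If the cells of the function have many values on all large subevents, the entropy is large. -/
theorem CH_ge_cells {p : Ω → ℝ} (hp : IsLaw p) (Y : Ω → α) (z : Ω → V) {A : Ω → Prop}
    (hA : 0 < Pe p A) {κ M : ℝ} (hM : 1 ≤ M) (h : ∀ B : Ω → Prop, Sub B A →
      Real.exp (-κ) * Pe p A ≤ Pe p B → ∃ v, M < cnt p Y (fun ω => B ω ∧ z ω = v)) :
    (1 - Real.exp (-κ)) * Real.log M ≤ CH (Pool.Agent.H49.Ent.cond p A True) Y z := by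
  classical
  obtain ⟨q, hq⟩ : ∃ q, q = Pool.Agent.H49.Ent.cond p A True := ⟨_, rfl⟩
  have hql : IsLaw q := by rw [hq]; exact isLaw_cond hp hA
  obtain ⟨r, hr⟩ : ∃ r : Ω → ℝ, r = fun ω => law q (fun ω => (Y ω, z ω)) (Y ω, z ω) /
    law q z (z ω) := ⟨_, rfl⟩
  obtain ⟨B, hB⟩ : ∃ B : Ω → Prop, B = fun ω => (A ω ∧ 0 < p ω) ∧ 1 / M ≤ r ω := ⟨_, rfl⟩
  have hM0 : 0 < M := by linarith
  have hBA : Sub B A := fun ω hω => by
    rw [hB] at hω
    exact hω.1.1
  have hcard : ∀ v, (cnt p Y (fun ω => B ω ∧ z ω = v) : ℝ) ≤ M := by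
    intro v
    obtain ⟨I, hI⟩ : ∃ I, I = cset p Y (fun ω => B ω ∧ z ω = v) := ⟨_, rfl⟩
    rw [← cset_card, ← hI]
    rcases I.eq_empty_or_nonempty with he | ⟨y₀, hy₀⟩
    · rw [he, card_empty, Nat.cast_zero]
      exact hM0.le
    have hv : 0 < law q z v := by
      rw [hI] at hy₀
      obtain ⟨ω, h1, ⟨h2, h3⟩, -⟩ := of_mem_cset hy₀
      rw [← h3]
      refine law_pos hql.nonneg z ?_
      rw [hq]
      refine (cond_pos_iff hp.nonneg A True ω).2 ⟨h1, ?_⟩
      simpa using hBA ω h2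
    have e2 : (I.card : ℝ) * (1 / M * law q z v) ≤ ∑ y ∈ I, law q (fun ω => (Y ω, z ω)) (y, v) := by
      rw [← nsmul_eq_mul]
      refine card_nsmul_le_sum I _ _ fun y hy => ?_
      rw [hI] at hy
      obtain ⟨ω, h1, ⟨h2, h3⟩, rfl⟩ := of_mem_cset hy
      rw [hB, hr] at h2
      have h4 := h2.2
      simp only at h4
      rw [h3, le_div_iff₀ hv] at h4
      exact h4
    have e3 : ∑ y ∈ I, law q (fun ω => (Y ω, z ω)) (y, v) ≤ law q z v := by
      have e4 : ∀ y, law q (fun ω => (Y ω, z ω)) (y, v) =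
          ∑ ω, if Y ω = y then (if z ω = v then q ω else 0) else 0 := by
        intro y
        unfold law
        refine sum_congr rfl fun ω _ => ?_
        by_cases hy : Y ω = y <;> by_cases hz : z ω = v <;> simp [hy, hz, Prod.ext_iff]
      rw [sum_congr rfl fun y _ => e4 y, sum_comm]
      unfold law
      refine sum_le_sum fun ω _ => ?_
      rw [sum_ite_eq]
      have hn : 0 ≤ (if z ω = v then q ω else 0) := by
        split_ifs
        · exact hql.nonneg ω
        · exact le_rfl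
      split_ifs with h1 <;> simp_all
    have e4 : (I.card : ℝ) * (1 / M * law q z v) ≤ law q z v := e2.trans e3
    have e5 : (I.card : ℝ) * (1 / M) ≤ 1 := by
      by_contra hcon
      push Not at hcon
      nlinarith
    rw [mul_one_div, div_le_one hM0] at e5
    exact e5
  have hPB : Pe p B < Real.exp (-κ) * Pe p A := by
    by_contra hcon
    push Not at hcon
    obtain ⟨v, hv⟩ := h B hBA hcon
    have := hcard v
    linarith
  have hqB : Pe q B ≤ Real.exp (-κ) := by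
    rw [hq, Pe_cond, div_le_iff₀ hA]
    refine le_trans (Pe_mono hp ?_) hPB.le
    intro ω hω
    exact hω.2
  have hlM : 0 ≤ Real.log M := Real.log_nonneg hM
  have hH : CH q Y z = ∑ ω, q ω * (-Real.log (r ω)) := by
    rw [CH_eq_neg_sum hql.nonneg, hr]
    rfl
  have hpt : ∀ ω, q ω * (if B ω then 0 else Real.log M) ≤ q ω * (-Real.log (r ω)) := by
    intro ω
    by_cases h0 : q ω = 0
    · rw [h0, zero_mul, zero_mul]
    have hqω : 0 < q ω := lt_of_le_of_ne (hql.nonneg ω) (Ne.symm h0)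
    have hl1 := law_pos hql.nonneg (fun ω => (Y ω, z ω)) hqω
    have hl2 := law_pos hql.nonneg z hqω
    have hl3 : law q (fun ω => (Y ω, z ω)) (Y ω, z ω) ≤ law q z (z ω) :=
      law_mono_of_det hql.nonneg (fun ω ω' _ _ h => (Prod.ext_iff.mp h).2) hqω
    have hr0 : 0 < r ω := by
      rw [hr]
      exact div_pos hl1 hl2
    have hr1 : r ω ≤ 1 := by
      rw [hr]
      exact (div_le_one hl2).2 hl3
    refine mul_le_mul_of_nonneg_left ?_ hqω.le
    by_cases hBω : B ω
    · rw [if_pos hBω]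
      have := Real.log_nonpos hr0.le hr1
      linarith
    · rw [if_neg hBω]
      have hAω : A ω ∧ 0 < p ω := by
        rw [hq] at hqω
        have := (cond_pos_iff hp.nonneg A True ω).1 hqω
        exact ⟨by simpa using this.2, this.1⟩
      have hlt : r ω < 1 / M := by
        by_contra hcon
        push Not at hcon
        refine hBω ?_
        rw [hB]
        exact ⟨hAω, hcon⟩
      have := Real.log_le_log hr0 hlt.le
      rw [one_div, Real.log_inv] at this
      linarith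
  have hsum : ∑ ω, q ω * (if B ω then 0 else Real.log M) = (1 - Pe q B) * Real.log M := by
    have e1 : ∀ ω, q ω * (if B ω then 0 else Real.log M) =
        q ω * Real.log M - (if B ω then q ω else 0) * Real.log M := by
      intro ω
      by_cases hBω : B ω
      · simp [hBω]
      · simp [hBω]
    rw [sum_congr rfl fun ω _ => e1 ω, sum_sub_distrib, ← sum_mul, ← sum_mul, hql.sum_one,
      ← Pe_eq]
    ring
  rw [← hq, hH]
  refine le_trans ?_ (sum_le_sum fun ω _ => hpt ω)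
  rw [hsum]
  exact mul_le_mul_of_nonneg_right (by linarith) hlM

/-- A function of `f` on the event: the entropy of `f` splits. -/
theorem CH_split {p : Ω → ℝ} (hp : IsLaw p) {f : Ω → α} {z : Ω → V} {z' : Ω → V'}
    {A : Ω → Prop} (hA : 0 < Pe p A) (h : ∃ φ : α → V', ∀ ω, A ω → z' ω = φ (f ω)) :
    CH (Pool.Agent.H49.Ent.cond p A True) z' z =
      CH (Pool.Agent.H49.Ent.cond p A True) f z -
        CH (Pool.Agent.H49.Ent.cond p A True) f (fun ω => (z ω, z' ω)) := by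
  have hcl := isLaw_cond hp hA
  obtain ⟨φ, hφ⟩ := h
  have hsup : ∀ ω, 0 < Pool.Agent.H49.Ent.cond p A True ω → A ω := by
    intro ω hω
    have h1 := (cond_pos_iff hp.nonneg A True ω).1 hω
    simpa using h1.2
  have h1 := CH_chain hcl.nonneg f z' z
  have h2 : CH (Pool.Agent.H49.Ent.cond p A True) (fun ω => (f ω, z' ω)) z =
      CH (Pool.Agent.H49.Ent.cond p A True) f z := by
    refine CH_congr hcl.nonneg ?_ ?_ ?_ ?_
    · intro ω ω' _ _ hh
      simp only [Prod.mk.injEq] at hh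
      exact hh.1.1
    · intro ω ω' a b hh
      simp only [Prod.mk.injEq] at hh
      refine Prod.ext hh.1 ?_
      simp only
      rw [hφ ω (hsup ω a), hφ ω' (hsup ω' b), hh.1]
    · intro ω ω' _ _ hh
      exact hh
    · intro ω ω' _ _ hh
      exact hh
  have h3 : CH (Pool.Agent.H49.Ent.cond p A True) f (fun ω => (z' ω, z ω)) =
      CH (Pool.Agent.H49.Ent.cond p A True) f (fun ω => (z ω, z' ω)) := by
    refine CH_congr hcl.nonneg ?_ ?_ ?_ ?_
    · intro ω ω' _ _ hh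
      simp only [Prod.mk.injEq] at hh
      exact hh.1
    · intro ω ω' _ _ hh
      simp only [Prod.mk.injEq] at hh
      exact hh.1
    · intro ω ω' _ _ hh
      simp only [Prod.mk.injEq] at hh ⊢
      tauto
    · intro ω ω' _ _ hh
      simp only [Prod.mk.injEq] at hh ⊢
      tauto
  linarith

end Fin

end Pool.RCD
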