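import Pool.Agent.H92.GN.Rec
import Pool.Agent.H71.GEN.Defs

/-!
# Records at `(w, q)`: functions of the exact point and of the direction to `q` digits, which are
functions of the line and of the window of length `2 ^ (-w)`

Numbers, records (nested in `w` and in `q`), what they determine, the time, the telescope.
-/

set_option autoImplicit false

namespace Pool.RCD

open Finset Real
open Pool.Agent.H49.Ent Pool.Agent.H32.Dense Pool.STK Pool.KA Pool.KSAT Pool.K2S Pool.PB Pool.S6C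
  Pool.GEN

variable {m : ℕ}

/-! ### The visible variables -/

/-- The direction of resolution `r` is a function of the direction of resolution `r'`. -/
theorem D_coarse {J : ℕ} (F : Fam m J) {r r' : ℕ} (h : r ≤ r') :
    ∃ φ : (Fin m → ℤ) → (Fin m → ℤ), ∀ ω, F.D r ω = φ (F.D r' ω) := by
  refine ⟨fun y i => y i / 2 ^ (r' - r), fun ω => ?_⟩
  funext i
  have h1 : (2 : ℝ) ^ r * F.d ω i = (2 ^ r' * F.d ω i) / ((2 ^ (r' - r) : ℕ) : ℝ) := by
    have : (2 : ℝ) ^ r' = 2 ^ r * 2 ^ (r' - r) := by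
      rw [← pow_add]; congr 1; omega
    rw [this]
    push_cast
    field_simp
  change ⌊(2 : ℝ) ^ r * F.d ω i⌋ = ⌊(2 : ℝ) ^ r' * F.d ω i⌋ / 2 ^ (r' - r)
  rw [h1, Int.floor_div_natCast]
  push_cast
  rfl

open Classical in
/-- The side of the point: the exact point and the direction to `q` digits; the exact point alone
if `q` is negative. -/
noncomputable def vf (q : ℝ) (J : ℕ) (F : Fam m J) (ω : F.Ω) : PtT F × (Fin m → ℤ) :=
  (ptr F J ω, if q < 0 then 0 else F.D ⌊q * J⌋₊ ω)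

/-- The side of the line: the line and its window. -/
noncomputable def vg (w : ℝ) (J : ℕ) (F : Fam m J) (ω : F.Ω) : LnT F := slam F ⌊w * J⌋₊ ω

theorem vf_mono {q q' : ℝ} (h : q ≤ q') (J : ℕ) (F : Fam m J) :
    ∃ φ : PtT F × (Fin m → ℤ) → PtT F × (Fin m → ℤ), ∀ ω, vf q J F ω = φ (vf q' J F ω) := by
  unfold vf
  by_cases hq : q < 0
  · exact ⟨fun y => (y.1, 0), fun ω => by simp only [if_pos hq]⟩
  · have hq' : ¬ q' < 0 := fun h' => hq (lt_of_le_of_lt h h')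
    obtain ⟨φ, hφ⟩ := D_coarse F (Nat.floor_le_floor
      (mul_le_mul_of_nonneg_right h (Nat.cast_nonneg (α := ℝ) J)))
    exact ⟨fun y => (y.1, φ y.2), fun ω => by simp only [if_neg hq, if_neg hq', ← hφ ω]⟩

theorem floor_le {w : ℝ} (hw : w ≤ 1) (J : ℕ) : ⌊w * J⌋₊ ≤ J := by
  refine Nat.floor_le_of_le ?_
  have : (0 : ℝ) ≤ J := Nat.cast_nonneg J
  nlinarith

theorem vg_mono {w w' : ℝ} (h : w ≤ w') (h' : w' ≤ 1) (J : ℕ) (F : Fam m J) :
    ∃ φ : LnT F → LnT F, ∀ ω, vg w J F ω = φ (vg w' J F ω) := by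
  have h1 := Nat.floor_le_floor (mul_le_mul_of_nonneg_right h (Nat.cast_nonneg (α := ℝ) J))
  exact ⟨fun s => (s.1, s.2.1, s.2.2 / 2 ^ (⌊w' * J⌋₊ - ⌊w * J⌋₊)), fun ω =>
    slam_coarse F h1 (floor_le h' J) ω⟩

theorem cnt_pair {Ω α β : Type} [Fintype Ω] (p : Ω → ℝ) (Y : Ω → α) (Y' : Ω → β)
    (A : Ω → Prop) : cnt p (fun ω => (Y ω, Y' ω)) A ≤ cnt p Y A * cnt p Y' A := by
  rw [← cset_card p Y, ← cset_card p Y', ← card_product]
  refine cnt_le_card p _ _ fun ω h1 h2 => ?_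
  exact mem_product.2 ⟨mem_cset Y h1 h2, mem_cset Y' h1 h2⟩

theorem cnt_D {J : ℕ} (F : Fam m J) (q : ℕ) (A : F.Ω → Prop) :
    (cnt F.p (F.D q) A : ℝ) ≤ (3 * 2 ^ q) ^ m := by
  classical
  have h1 := cnt_le_card F.p (F.D q) (A := A)
    (Fintype.piFinset fun _ : Fin m => Finset.Icc (-(2 ^ q : ℤ)) (2 ^ q)) (by
      intro ω _ _
      rw [Fintype.mem_piFinset]
      intro i
      rw [Finset.mem_Icc]
      have h1 := abs_le.1 (F.dir ω i)
      have h2 : (0 : ℝ) < 2 ^ q := by positivity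
      constructor
      · refine Int.le_floor.2 ?_
        push_cast
        nlinarith
      · have h3 : (⌊(2 : ℝ) ^ q * F.d ω i⌋ : ℝ) ≤ 2 ^ q * F.d ω i := Int.floor_le _
        have h4 : (⌊(2 : ℝ) ^ q * F.d ω i⌋ : ℝ) ≤ ((2 ^ q : ℤ) : ℝ) := by
          push_cast
          nlinarith
        exact (Int.cast_le (R := ℝ)).1 h4)
  have h2 : (Fintype.piFinset fun _ : Fin m => Finset.Icc (-(2 ^ q : ℤ)) (2 ^ q)).card =
      (2 * 2 ^ q + 1) ^ m := by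
    rw [Fintype.card_piFinset]
    simp only [Int.card_Icc, Finset.prod_const, Finset.card_univ, Fintype.card_fin]
    congr 1
    have : (2 : ℤ) ^ q + 1 - -2 ^ q = ((2 * 2 ^ q + 1 : ℕ) : ℤ) := by
      push_cast
      ring
    rw [this, Int.toNat_natCast]
  rw [h2] at h1
  have h3 : (cnt F.p (F.D q) A : ℝ) ≤ ((2 * 2 ^ q + 1 : ℕ) : ℝ) ^ m := by exact_mod_cast h1
  refine h3.trans (pow_le_pow_left₀ (by positivity) ?_ m)
  push_cast
  have : (1 : ℝ) ≤ 2 ^ q := one_le_pow₀ (by norm_num)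
  linarith

theorem cnt_one_le {Ω β : Type} [Fintype Ω] (p : Ω → ℝ) (c : β) (A : Ω → Prop) :
    cnt p (fun _ => c) A ≤ 1 := by
  classical
  have := cnt_le_card p (fun _ => c) (A := A) {c} fun _ _ _ => mem_singleton_self c
  rwa [card_singleton] at this

theorem cnt_vf {S : PCl m} {M : ℝ}
    (hM : Bas S (fun J F A => (cnt F.p (ptr F J) A : ℝ) ≤ Real.exp (M * J))) {q : ℝ}
    (hq : q ≤ 1) :
    Bas S (fun J F A => (cnt F.p (vf q J F) A : ℝ) ≤ Real.exp ((M + 3 * m) * J)) := by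
  refine Bas.mono 1 hM fun J hJ F A hA => ?_
  have hc : ∃ N : ℕ, (cnt F.p (vf q J F) A : ℝ) ≤ cnt F.p (ptr F J) A * N ∧
      (N : ℝ) ≤ (3 * 2 ^ ⌊q * (J : ℝ)⌋₊) ^ m := by
    by_cases hq0 : q < 0
    · refine ⟨1, ?_, ?_⟩
      · have e : vf q J F = fun ω => (ptr F J ω, (0 : Fin m → ℤ)) := by
          funext ω
          unfold vf
          rw [if_pos hq0]
        rw [e]
        have h1 := cnt_pair F.p (ptr F J) (fun _ => (0 : Fin m → ℤ)) A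
        have h2 := Nat.mul_le_mul_left (cnt F.p (ptr F J) A)
          (cnt_one_le F.p (0 : Fin m → ℤ) A)
        exact_mod_cast h1.trans h2
      · push_cast
        refine one_le_pow₀ ?_
        have : (1 : ℝ) ≤ 2 ^ ⌊q * (J : ℝ)⌋₊ := one_le_pow₀ (by norm_num)
        linarith
    · refine ⟨cnt F.p (F.D ⌊q * J⌋₊) A, ?_, cnt_D F ⌊q * J⌋₊ A⟩
      have e : vf q J F = fun ω => (ptr F J ω, F.D ⌊q * J⌋₊ ω) := by
        funext ω
        unfold vf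
        rw [if_neg hq0]
      rw [e]
      exact_mod_cast cnt_pair F.p (ptr F J) (F.D ⌊q * J⌋₊) A
  obtain ⟨N, h1, h2⟩ := hc
  have hJ1 : (1 : ℝ) ≤ J := by exact_mod_cast hJ
  have h3 : ((3 : ℝ) * 2 ^ ⌊q * (J : ℝ)⌋₊) ^ m ≤ Real.exp (3 * m * J) := by
    have e1 : (3 : ℝ) ≤ Real.exp (2 * J) := by
      have h4 := Real.add_one_le_exp (2 * (J : ℝ))
      linarith
    have e2 : (2 : ℝ) ^ ⌊q * (J : ℝ)⌋₊ ≤ Real.exp J := by
      have h5 : (2 : ℝ) ^ ⌊q * (J : ℝ)⌋₊ ≤ 2 ^ J :=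
        pow_le_pow_right₀ (by norm_num) (floor_le hq J)
      refine h5.trans ?_
      have h6 : (2 : ℝ) ≤ Real.exp 1 := by
        have := Real.add_one_le_exp (1 : ℝ)
        linarith
      calc (2 : ℝ) ^ J ≤ Real.exp 1 ^ J := pow_le_pow_left₀ (by norm_num) h6 J
        _ = Real.exp J := by rw [← Real.exp_nat_mul, mul_one]
    have e3 : (3 : ℝ) * 2 ^ ⌊q * (J : ℝ)⌋₊ ≤ Real.exp (3 * J) := by
      have e4 : Real.exp (3 * (J : ℝ)) = Real.exp (2 * J) * Real.exp J := by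
        rw [← Real.exp_add]
        congr 1
        ring
      rw [e4]
      exact mul_le_mul e1 e2 (by positivity) (Real.exp_pos _).le
    calc ((3 : ℝ) * 2 ^ ⌊q * (J : ℝ)⌋₊) ^ m ≤ Real.exp (3 * J) ^ m :=
          pow_le_pow_left₀ (by positivity) e3 m
      _ = Real.exp (3 * m * J) := by
          rw [← Real.exp_nat_mul]
          congr 1
          ring
  calc (cnt F.p (vf q J F) A : ℝ) ≤ cnt F.p (ptr F J) A * N := h1
    _ ≤ Real.exp (M * J) * Real.exp (3 * m * J) :=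
        mul_le_mul hA (h2.trans h3) (Nat.cast_nonneg _) (Real.exp_pos _).le
    _ = Real.exp ((M + 3 * m) * J) := by
        rw [← Real.exp_add]
        congr 1
        ring

/-- **The numbers `η w q`.** -/
theorem vis_num {S : PCl m} (hS : S.Ne)
    (hpos : ∀ (τ : ℝ) (J : ℕ) (F : Fam m J) (A : F.Ω → Prop), S.St τ J F A → 0 < Pe F.p A)
    {M : ℝ} (hM : Bas S (fun J F A => (cnt F.p (ptr F J) A : ℝ) ≤ Real.exp (M * J))) :
    ∃ S' : PCl m, S'.Ne ∧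
      (∀ (τ : ℝ) (J : ℕ) (F : Fam m J) (A : F.Ω → Prop), S'.St τ J F A → S.St τ J F A) ∧
      ∃ η : ℚ → ℚ → ℝ, ∀ w q : ℚ, w ≤ 1 → q ≤ 1 →
        RNum S' (vf (q : ℝ)) (vg (w : ℝ)) (η w q) := by
  classical
  have : Nonempty {x : ℚ × ℚ // x.1 ≤ 1 ∧ x.2 ≤ 1} := ⟨⟨(0, 0), by norm_num⟩⟩
  obtain ⟨e, he⟩ := exists_surjective_nat {x : ℚ × ℚ // x.1 ≤ 1 ∧ x.2 ≤ 1}
  obtain ⟨S', h1, h2, h3⟩ := ext_rec hS hpos (fun _ _ F => PtT F × (Fin m → ℤ))
    (fun _ _ F => LnT F) (fun i => vf (((e i).1.2 : ℚ) : ℝ)) (fun i => vg (((e i).1.1 : ℚ) : ℝ))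
    (fun _ => M + 3 * m) (fun i => cnt_vf hM (by
      have := (e i).2.2
      exact_mod_cast this))
  choose η hη using h3
  have key : ∀ w q : ℚ, ∃ y : ℝ, w ≤ 1 → q ≤ 1 →
      RNum S' (vf (q : ℝ)) (vg (w : ℝ)) y := by
    intro w q
    by_cases h : w ≤ 1 ∧ q ≤ 1
    · obtain ⟨i, hi⟩ := he ⟨(w, q), h⟩
      refine ⟨η i, fun _ _ => ?_⟩
      have := hη i
      rw [hi] at this
      exact this
    · exact ⟨0, fun a b => absurd ⟨a, b⟩ h⟩
  choose y hy using key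
  exact ⟨S', h1, h2, y, hy⟩

/-- The order of the pairs. -/
def leq (P : Finset (ℚ × ℚ)) (x y : {x // x ∈ P}) : Prop := x.1.1 ≤ y.1.1 ∧ x.1.2 ≤ y.1.2

/-- **Records for finitely many pairs `(w, q)`**, nested in `w` and in `q`. -/
theorem vis_records {S : PCl m}
    (hpos : ∀ (τ : ℝ) (J : ℕ) (F : Fam m J) (A : F.Ω → Prop), S.St τ J F A → 0 < Pe F.p A)
    (P : Finset (ℚ × ℚ)) {η : ℚ → ℚ → ℝ} (hP : ∀ x ∈ P, x.1 ≤ 1)
    (hη : ∀ x ∈ P, RNum S (vf (x.2 : ℝ)) (vg (x.1 : ℝ)) (η x.1 x.2)) (h : ℝ) (hh : 0 < h) :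
    ∃ κ : ℝ, 0 < κ ∧ Bas S (fun _ F A => ∃ (V : {x // x ∈ P} → Type) (z : ∀ i, F.Ω → V i),
      Rcd (leq P) (fun i => vf (i.1.2 : ℝ)) (fun i => vg (i.1.1 : ℝ)) (fun i => η i.1.1 i.1.2)
        h κ F A z) :=
  records hpos (le := leq P) (fun _ => ⟨le_rfl, le_rfl⟩)
    (fun _ _ _ h1 h2 => ⟨h1.1.trans h2.1, h1.2.trans h2.2⟩)
    (fun i j hij J F => vf_mono (by exact_mod_cast hij.2) J F)
    (fun i j hij J F => vg_mono (by exact_mod_cast hij.1)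
      (by have := hP j.1 j.2; exact_mod_cast this) J F)
    (fun i => hη i.1 i.2) h hh

/-! ### What is closed -/

section closed

variable {J : ℕ} (F : Fam m J) (A : F.Ω → Prop)

theorem cl_D {q w : ℝ} (hq : 0 ≤ q) {r : ℕ} (hr : r ≤ ⌊q * J⌋₊) :
    Cl2 (vf q J F) (vg w J F) A (F.D r) := by
  obtain ⟨φ, hφ⟩ := D_coarse F hr
  refine ⟨⟨fun y => φ y.2, fun ω _ => ?_⟩, fun s => fl r s.1.2, fun ω _ => rfl⟩
  have e : vf q J F ω = (ptr F J ω, F.D ⌊q * J⌋₊ ω) := by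
    unfold vf
    rw [if_neg (not_lt.2 hq)]
  rw [e]
  exact hφ ω

theorem cl_Z {q w : ℝ} : Cl2 (vf q J F) (vg w J F) A F.Z :=
  ⟨⟨fun y => y.1.2.2, fun _ _ => rfl⟩, fun s => s.2.1, fun _ _ => rfl⟩

theorem cl_T1 {q w : ℝ} {r : ℕ} (hr : r ≤ ⌊w * J⌋₊) (hw : w ≤ 1) :
    Cl2 (vf q J F) (vg w J F) A (F.T1 r) := by
  refine ⟨⟨fun y => y.1.2.1 / 2 ^ (J - r), fun ω _ => rfl⟩,
    fun s => s.2.2 / 2 ^ (⌊w * J⌋₊ - r), fun ω _ => ?_⟩
  have h1 := slam_coarse F hr (floor_le hw J) ω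
  have h2 := (Prod.ext_iff.mp (Prod.ext_iff.mp h1).2).2
  exact h2

/-- Closed functions without the direction: functions of the exact point. -/
theorem cl_neg {q w : ℝ} (hq : q < 0) {V : Type} {z : F.Ω → V} :
    Cl2 (vf q J F) (vg w J F) A z ↔ ∃ (φ : PtT F → V) (ψ : LnT F → V), ∀ ω, A ω →
      z ω = φ (ptr F J ω) ∧ φ (ptr F J ω) = ψ (slam F ⌊w * J⌋₊ ω) := by
  have e : ∀ ω, vf q J F ω = (ptr F J ω, (0 : Fin m → ℤ)) := by
    intro ω
    unfold vf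
    rw [if_pos hq]
  constructor
  · rintro ⟨⟨φ, hφ⟩, ψ, hψ⟩
    refine ⟨fun x => φ (x, 0), ψ, fun ω hω => ⟨?_, ?_⟩⟩
    · rw [hφ ω hω, e]
    · change φ (ptr F J ω, 0) = _
      rw [← e, ← hφ ω hω, hψ ω hω]
      rfl
  · rintro ⟨φ, ψ, h⟩
    refine ⟨⟨fun y => φ y.1, fun ω hω => ?_⟩, ψ, fun ω hω => ?_⟩
    · rw [e]
      exact (h ω hω).1
    · rw [(h ω hω).1, (h ω hω).2]
      rfl

/-- The labels of any class are closed, at `q < 0` already. -/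
theorem cl_lab {q w : ℝ} {V : Type} {r : ℕ} (hr : r ≤ J) {z : PtT F → V} {z' : LnT F → V}
    (h : ∀ ω, A ω → z (ptr F r ω) = z' (slam F ⌊w * J⌋₊ ω)) :
    Cl2 (vf q J F) (vg w J F) A (fun ω => z (ptr F r ω)) := by
  obtain ⟨φ, hφ⟩ := ptr_coarse F hr
  exact ⟨⟨fun y => z (φ y.1), fun ω _ => congrArg z (hφ ω)⟩, z', fun ω hω => h ω hω⟩

end closed

end Pool.RCD
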