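import Pool.Agent.H92.GN.FreeQ

/-!
# First digits are free: uniform form

`t k` is a decreasing function with values in `[0, c 2 ^ (-k)]`. At almost every point the variation
of `t k` on the box of size `r` is at most `D (2 / 3) ^ k r`, for ALL `k` and all small `r`
(`ae_unif`; the sum with the weights `(3 / 2) ^ k` is differentiable). So with a fixed large `k`
the variation is at most `ε r` for all small `r` (`free_fix`), and with `2 ^ (-k)` comparable to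
`r` one gets `free_ae`.
-/

set_option autoImplicit false

namespace Pool.RCD

open MeasureTheory Filter Topology

/-- **Uniform smallness.** -/
theorem ae_unif (t : ℕ → ℝ → ℝ) (c : ℝ) (h0 : ∀ k x, 0 ≤ t k x)
    (hc : ∀ k x, t k x ≤ c * (1 / 2) ^ k) (ha : ∀ k, Antitone (t k)) :
    ∀ᵐ w : ℝ, ∃ D r₀ : ℝ, 0 ≤ D ∧ 0 < r₀ ∧ ∀ r : ℝ, 0 < r → r < r₀ → ∀ k,
      t k (w - r) - t k (w + r) ≤ D * (2 / 3) ^ k * r := by
  -- the sum with weights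
  have hsum : ∀ x, Summable fun k => (3 / 2 : ℝ) ^ k * t k x := by
    intro x
    refine Summable.of_nonneg_of_le (fun k => mul_nonneg (by positivity) (h0 k x))
      (fun k => ?_) ((summable_geometric_of_lt_one (r := (3 / 4 : ℝ)) (by norm_num)
        (by norm_num)).mul_left c)
    calc (3 / 2 : ℝ) ^ k * t k x ≤ (3 / 2) ^ k * (c * (1 / 2) ^ k) :=
          mul_le_mul_of_nonneg_left (hc k x) (by positivity)
      _ = c * (3 / 4) ^ k := by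
          have : (3 / 4 : ℝ) ^ k = (3 / 2) ^ k * (1 / 2) ^ k := by
            rw [← mul_pow]
            norm_num
          rw [this]
          ring
  obtain ⟨T, hT⟩ : ∃ T : ℝ → ℝ, T = fun x => -∑' k, (3 / 2 : ℝ) ^ k * t k x := ⟨_, rfl⟩
  have hmono : Monotone T := by
    intro x y hxy
    rw [hT]
    simp only
    refine neg_le_neg ((hsum y).tsum_le_tsum (fun k => ?_) (hsum x))
    exact mul_le_mul_of_nonneg_left (ha k hxy) (by positivity)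
  filter_upwards [hmono.ae_differentiableAt] with w hw
  obtain ⟨L, hL⟩ : ∃ L, L = deriv T w := ⟨_, rfl⟩
  have hd : HasDerivAt T L w := by
    rw [hL]
    exact hw.hasDerivAt
  rw [hasDerivAt_iff_isLittleO] at hd
  have h1 := hd.def one_pos
  rw [Metric.eventually_nhds_iff] at h1
  obtain ⟨δ, hδ, h1⟩ := h1
  refine ⟨2 * (|L| + 1), δ, by positivity, hδ, fun r hr0 a1 k => ?_⟩
  have b1 := h1 (y := w - r) (by
    rw [Real.dist_eq]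
    have : w - r - w = -r := by ring
    rw [this, abs_neg, abs_of_pos hr0]
    exact a1)
  have b2 := h1 (y := w + r) (by
    rw [Real.dist_eq]
    have : w + r - w = r := by ring
    rw [this, abs_of_pos hr0]
    exact a1)
  simp only [Real.norm_eq_abs, smul_eq_mul, one_mul] at b1 b2
  have c1 : w - r - w = -r := by ring
  have c2 : w + r - w = r := by ring
  rw [c1, abs_neg, abs_of_pos hr0] at b1
  rw [c2, abs_of_pos hr0] at b2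
  have b3 := (abs_le.1 b1).1
  have b4 := (abs_le.1 b2).2
  have hLa := le_abs_self L
  have key : T (w + r) - T (w - r) ≤ 2 * r * (|L| + 1) := by
    nlinarith
  -- one term of the sum
  have hterm : (3 / 2 : ℝ) ^ k * (t k (w - r) - t k (w + r)) ≤ T (w + r) - T (w - r) := by
    have e : T (w + r) - T (w - r) = ∑' j, ((3 / 2 : ℝ) ^ j * t j (w - r) -
        (3 / 2 : ℝ) ^ j * t j (w + r)) := by
      rw [(hsum (w - r)).tsum_sub (hsum (w + r)), hT]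
      ring
    rw [e, mul_sub]
    refine ((hsum (w - r)).sub (hsum (w + r))).le_tsum k fun j _ => ?_
    have := mul_le_mul_of_nonneg_left (ha j (show w - r ≤ w + r by linarith))
      (show (0 : ℝ) ≤ (3 / 2) ^ j by positivity)
    linarith
  have h3 : (0 : ℝ) < (3 / 2) ^ k := by positivity
  have e3 : (2 / 3 : ℝ) ^ k = 1 / (3 / 2) ^ k := by
    rw [one_div, ← inv_pow]
    norm_num
  have e4 : 2 * (|L| + 1) * (2 / 3) ^ k * r = 2 * r * (|L| + 1) / (3 / 2) ^ k := by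
    rw [e3]
    ring
  rw [e4, le_div_iff₀ h3]
  linarith

/-- **Uniform smallness**, rational form: decreasing functions on the rational numbers of `[A, B]`
whose total variation is at most `c 2 ^ (-k)`. -/
theorem unif_rat (t : ℕ → ℚ → ℝ) {A B c : ℝ} (hc0 : 0 ≤ c)
    (h : ∀ k (w w' : ℚ), A ≤ w → w ≤ w' → (w' : ℝ) ≤ B → 0 ≤ t k w - t k w' ∧
      t k w - t k w' ≤ c * (1 / 2) ^ k) :
    ∀ᵐ w₀ : ℝ, w₀ ∈ Set.Ioo A B → ∃ D r₀ : ℝ, 0 ≤ D ∧ 0 < r₀ ∧ ∀ r : ℝ, 0 < r → r < r₀ →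
      ∀ k, ∀ w w' : ℚ, w₀ - r ≤ w → w ≤ w' → (w' : ℝ) ≤ w₀ + r →
        t k w - t k w' ≤ D * (2 / 3) ^ k * r := by
  -- the extension to the real numbers
  obtain ⟨G, hG⟩ : ∃ G : ℕ → ℝ → ℝ, G = fun (k : ℕ) (x : ℝ) => sSup {s : ℝ | s = 0 ∨
    ∃ w w' : ℚ, A ≤ w ∧ w ≤ w' ∧ (w' : ℝ) ≤ B ∧ x ≤ (w : ℝ) ∧ s = t k w - t k w'} := ⟨_, rfl⟩
  have hbd : ∀ (k : ℕ) (x : ℝ), ∀ s ∈ {s : ℝ | s = 0 ∨
      ∃ w w' : ℚ, A ≤ w ∧ w ≤ w' ∧ (w' : ℝ) ≤ B ∧ x ≤ (w : ℝ) ∧ s = t k w - t k w'},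
      s ≤ c * (1 / 2) ^ k := by
    rintro k x s (rfl | ⟨w, w', h1, h2, h3, -, rfl⟩)
    · positivity
    · exact (h k w w' h1 h2 h3).2
  have hbd' : ∀ (k : ℕ) (x : ℝ), BddAbove {s : ℝ | s = 0 ∨
      ∃ w w' : ℚ, A ≤ w ∧ w ≤ w' ∧ (w' : ℝ) ≤ B ∧ x ≤ (w : ℝ) ∧ s = t k w - t k w'} :=
    fun k x => ⟨_, hbd k x⟩
  have hG0 : ∀ k x, 0 ≤ G k x := by
    intro k x
    rw [hG]
    exact le_csSup (hbd' k x) (Or.inl rfl)
  have hGc : ∀ k x, G k x ≤ c * (1 / 2) ^ k := by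
    intro k x
    rw [hG]
    exact csSup_le ⟨0, Or.inl rfl⟩ (hbd k x)
  have hGa : ∀ k, Antitone (G k) := by
    intro k x x' hx
    rw [hG]
    refine csSup_le ⟨0, Or.inl rfl⟩ ?_
    rintro s (rfl | ⟨w, w', h1, h2, h3, h4, rfl⟩)
    · exact le_csSup (hbd' k x) (Or.inl rfl)
    · exact le_csSup (hbd' k x) (Or.inr ⟨w, w', h1, h2, h3, hx.trans h4, rfl⟩)
  -- the increments
  have hGi : ∀ k (w w' : ℚ) (x x' : ℝ), A ≤ w → w ≤ w' → (w' : ℝ) ≤ B → x ≤ w →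
      (w' : ℝ) < x' → x' ≤ B → t k w - t k w' ≤ G k x - G k x' := by
    intro k w w' x x' h1 h2 h3 h4 h5 h5B
    have e1 : G k x' ≤ G k x - (t k w - t k w') := by
      rw [hG]
      refine csSup_le ⟨0, Or.inl rfl⟩ ?_
      rintro s (rfl | ⟨v, v', g1, g2, g3, g4, rfl⟩)
      · have : t k w - t k w' ≤ sSup {s : ℝ | s = 0 ∨
            ∃ w w' : ℚ, A ≤ w ∧ w ≤ w' ∧ (w' : ℝ) ≤ B ∧ x ≤ (w : ℝ) ∧ s = t k w - t k w'} :=
          le_csSup (hbd' k x) (Or.inr ⟨w, w', h1, h2, h3, h4, rfl⟩)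
        simp only
        linarith
      · have hwv : w' ≤ v := by
          have : (w' : ℝ) < v := h5.trans_le g4
          exact_mod_cast this.le
        have g5 : t k w - t k v' ≤ sSup {s : ℝ | s = 0 ∨
            ∃ w w' : ℚ, A ≤ w ∧ w ≤ w' ∧ (w' : ℝ) ≤ B ∧ x ≤ (w : ℝ) ∧ s = t k w - t k w'} :=
          le_csSup (hbd' k x) (Or.inr ⟨w, v', h1, (h2.trans hwv).trans g2, g3, h4, rfl⟩)
        have hA' : A ≤ w' := h1.trans (by exact_mod_cast h2)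
        have g6 := (h k w' v hA' hwv (le_trans (by exact_mod_cast g2) g3)).1
        simp only
        linarith
    linarith
  filter_upwards [ae_unif G c hG0 hGc hGa] with w₀ hw₀ hAB
  obtain ⟨D, r₀, hD, hr₀, H⟩ := hw₀
  refine ⟨2 * D, min (r₀ / 2) (min ((w₀ - A) / 2) ((B - w₀) / 2)), by positivity, lt_min
    (by positivity) (lt_min (by linarith [hAB.1]) (by linarith [hAB.2])), fun r hr0 hr k w w'
    h1 h2 h3 => ?_⟩
  have l1 : r < r₀ / 2 := hr.trans_le (min_le_left _ _)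
  have l2 : r < (w₀ - A) / 2 := hr.trans_le ((min_le_right _ _).trans (min_le_left _ _))
  have l3 : r < (B - w₀) / 2 := hr.trans_le ((min_le_right _ _).trans (min_le_right _ _))
  have k1 := hGi k w w' (w₀ - 2 * r) (w₀ + 2 * r) (by linarith) h2 (by linarith) (by linarith)
    (by linarith) (by linarith)
  have k2 := H (2 * r) (by positivity) (by linarith) k
  linarith

end Pool.RCD

namespace Pool.LA91

open Finset Real
open Pool.Agent.H49.Ent Pool.Agent.H32.Dense Pool.STK Pool.KA Pool.KSAT Pool.K2S Pool.PB Pool.S6C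
  Pool.GEN Pool.RCD

variable {m : ℕ}

/-- From the uniform form: with a fixed large level all small boxes are flat. -/
theorem fix_of_unif {t : ℕ → ℚ → ℝ} {w₀ : ℝ} (h : ∃ D r₀ : ℝ, 0 ≤ D ∧ 0 < r₀ ∧ ∀ r : ℝ, 0 < r →
      r < r₀ → ∀ k, ∀ w w' : ℚ, w₀ - r ≤ w → w ≤ w' → (w' : ℝ) ≤ w₀ + r →
        t k w - t k w' ≤ D * (2 / 3) ^ k * r) :
    ∃ r₀ : ℝ, 0 < r₀ ∧ ∀ ε : ℝ, 0 < ε → ∃ k₀ : ℕ, ∀ k ≥ k₀, ∀ r : ℝ, 0 < r → r < r₀ →
      ∀ w w' : ℚ, w₀ - r ≤ w → w ≤ w' → (w' : ℝ) ≤ w₀ + r → t k w - t k w' ≤ ε * r := by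
  obtain ⟨D, r₀, hD, hr₀, H⟩ := h
  refine ⟨r₀, hr₀, fun ε hε => ?_⟩
  have e2 : Filter.Tendsto (fun k : ℕ => D * (2 / 3 : ℝ) ^ k) Filter.atTop (nhds (D * 0)) :=
    (tendsto_pow_atTop_nhds_zero_of_lt_one (by norm_num) (by norm_num)).const_mul _
  rw [mul_zero] at e2
  obtain ⟨k₀, hk₀⟩ := (e2.eventually (gt_mem_nhds hε)).exists_forall_of_atTop
  refine ⟨k₀, fun k hk r hr0 hr w w' h1 h2 h3 => (H r hr0 hr k w w' h1 h2 h3).trans ?_⟩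
  exact mul_le_mul_of_nonneg_right (hk₀ k hk).le hr0.le

section ae

variable {U : ℕ → ℚ → Type} {α β : ℚ → ∀ J : ℕ, Fam m J → Type}
  {γ : ℕ → ℚ → ∀ J : ℕ, Fam m J → Type}

/-- **First digits are free at almost every point**, uniform form. `Q k w`: quantities with
`c 2 ^ (-k) J` bits over the charts of the window `w`, with a change of charts (`chg`). -/
theorem free_unif {S : PCl m} (hS : S.Ne)
    (hpos : ∀ (τ : ℝ) (J : ℕ) (F : Fam m J) (A : F.Ω → Prop), S.St τ J F A → 0 < Pe F.p A)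
    (f : ∀ (w : ℚ) (J : ℕ) (F : Fam m J), F.Ω → α w J F)
    (g : ∀ (w : ℚ) (J : ℕ) (F : Fam m J), F.Ω → β w J F)
    (y : ∀ (k : ℕ) (w : ℚ) (J : ℕ) (F : Fam m J), F.Ω → γ k w J F)
    (hf : ∀ w w' : ℚ, w ≤ w' → ∀ (J : ℕ) (F : Fam m J), ∃ φ : α w' J F → α w J F,
      ∀ ω, f w J F ω = φ (f w' J F ω))
    (hg : ∀ w w' : ℚ, w ≤ w' → ∀ (J : ℕ) (F : Fam m J), ∃ φ : β w' J F → β w J F,
      ∀ ω, g w J F ω = φ (g w' J F ω))
    (hy : ∀ k (w w' : ℚ), w ≤ w' → ∀ (J : ℕ) (F : Fam m J), ∃ φ : γ k w' J F → γ k w J F,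
      ∀ ω, y k w J F ω = φ (y k w' J F ω))
    {A B c : ℝ} (hc : 0 ≤ c) {η : ℚ → ℝ}
    (hη : ∀ w : ℚ, A ≤ w → (w : ℝ) ≤ B → RNum S (f w) (g w) (η w))
    (Q : ∀ (k : ℕ) (w : ℚ), Qt m (U k w))
    (cnt' : ∀ k (w : ℚ), A ≤ w → (w : ℝ) ≤ B → ∀ e : ℝ, 0 < e → ∃ K : ℕ, Bas S (fun J F A =>
      ∃ u, (Q k w).P K e J F A u ∧ (cnt F.p u A : ℝ) ≤ Real.exp (c * (1 / 2) ^ k * J)))
    (chg : ∀ k (w w' : ℚ), A ≤ w → w ≤ w' → (w' : ℝ) ≤ B →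
      Few S (f w') (g w') (y k w') (Q k w) (Q k w'))
    {θ : ℕ → ℚ → ℝ}
    (N : ∀ k (w : ℚ), A ≤ w → (w : ℝ) ≤ B → NN S (f w) (g w) (y k w) (Q k w) (θ k w)) :
    ∀ᵐ w₀ : ℝ, w₀ ∈ Set.Ioo A B → ∃ D r₀ : ℝ, 0 ≤ D ∧ 0 < r₀ ∧ ∀ r : ℝ, 0 < r → r < r₀ →
      ∀ k, ∀ w w' : ℚ, w₀ - r ≤ w → w ≤ w' → (w' : ℝ) ≤ w₀ + r →
        θ k w - θ k w' ≤ D * (2 / 3) ^ k * r := by
  have hE : ∀ k (w : ℚ), A ≤ w → (w : ℝ) ≤ B → Exs S (Q k w) := by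
    intro k w h1 h2 e he
    obtain ⟨K, hK⟩ := cnt' k w h1 h2 e he
    exact ⟨K, _, hK⟩
  refine unif_rat θ hc fun k w w' h1 h2 h3 => ?_
  have h2' : (w : ℝ) ≤ w' := by exact_mod_cast h2
  have a1 := NN.anti hS hpos (hf w w' h2) (hg w w' h2) (hy k w w' h2) (hη w h1 (h2'.trans h3))
    (hη w' (h1.trans h2') h3) (N k w h1 (h2'.trans h3)) (N k w' (h1.trans h2') h3)
    (hE k w h1 (h2'.trans h3)) (hE k w' (h1.trans h2') h3) (chg k w w' h1 h2 h3)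
  have a2 := NN.nonneg hS hpos (hη w' (h1.trans h2') h3) (N k w' (h1.trans h2') h3)
    (hE k w' (h1.trans h2') h3)
  have a3 := NN.le_cnt hS hpos (hη w h1 (h2'.trans h3)) (N k w h1 (h2'.trans h3))
    (cnt' k w h1 (h2'.trans h3))
  constructor <;> linarith

/-- **Free with a fixed number of digits** (`free_fix`). -/
theorem free_fix {S : PCl m} (hS : S.Ne)
    (hpos : ∀ (τ : ℝ) (J : ℕ) (F : Fam m J) (A : F.Ω → Prop), S.St τ J F A → 0 < Pe F.p A)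
    (f : ∀ (w : ℚ) (J : ℕ) (F : Fam m J), F.Ω → α w J F)
    (g : ∀ (w : ℚ) (J : ℕ) (F : Fam m J), F.Ω → β w J F)
    (y : ∀ (k : ℕ) (w : ℚ) (J : ℕ) (F : Fam m J), F.Ω → γ k w J F)
    (hf : ∀ w w' : ℚ, w ≤ w' → ∀ (J : ℕ) (F : Fam m J), ∃ φ : α w' J F → α w J F,
      ∀ ω, f w J F ω = φ (f w' J F ω))
    (hg : ∀ w w' : ℚ, w ≤ w' → ∀ (J : ℕ) (F : Fam m J), ∃ φ : β w' J F → β w J F,
      ∀ ω, g w J F ω = φ (g w' J F ω))
    (hy : ∀ k (w w' : ℚ), w ≤ w' → ∀ (J : ℕ) (F : Fam m J), ∃ φ : γ k w' J F → γ k w J F,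
      ∀ ω, y k w J F ω = φ (y k w' J F ω))
    {A B c : ℝ} (hc : 0 ≤ c) {η : ℚ → ℝ}
    (hη : ∀ w : ℚ, A ≤ w → (w : ℝ) ≤ B → RNum S (f w) (g w) (η w))
    (Q : ∀ (k : ℕ) (w : ℚ), Qt m (U k w))
    (cnt' : ∀ k (w : ℚ), A ≤ w → (w : ℝ) ≤ B → ∀ e : ℝ, 0 < e → ∃ K : ℕ, Bas S (fun J F A =>
      ∃ u, (Q k w).P K e J F A u ∧ (cnt F.p u A : ℝ) ≤ Real.exp (c * (1 / 2) ^ k * J)))
    (chg : ∀ k (w w' : ℚ), A ≤ w → w ≤ w' → (w' : ℝ) ≤ B →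
      Few S (f w') (g w') (y k w') (Q k w) (Q k w'))
    {θ : ℕ → ℚ → ℝ}
    (N : ∀ k (w : ℚ), A ≤ w → (w : ℝ) ≤ B → NN S (f w) (g w) (y k w) (Q k w) (θ k w)) :
    ∀ᵐ w₀ : ℝ, w₀ ∈ Set.Ioo A B → ∃ r₀ : ℝ, 0 < r₀ ∧ ∀ ε : ℝ, 0 < ε → ∃ k₀ : ℕ, ∀ k ≥ k₀,
      ∀ r : ℝ, 0 < r → r < r₀ → ∀ w w' : ℚ, w₀ - r ≤ w → w ≤ w' → (w' : ℝ) ≤ w₀ + r →
        θ k w - θ k w' ≤ ε * r := by
  filter_upwards [free_unif hS hpos f g y hf hg hy hc hη Q cnt' chg N] with w₀ h hw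
  exact fix_of_unif (h hw)

end ae

end Pool.LA91
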