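import Pool.Agent.H92.GN.Free

/-!
# Near digits are full given every context

From the exactness of the positions given the record at a window `w` to the fullness of the near
digits given the digits of the direction and given every context which has few bits given the
record, the coarse positions and the digits of the direction.
-/

set_option autoImplicit false

namespace Pool.RCD

open Finset Real
open Pool.Agent.H49.Ent Pool.Agent.H32.Dense Pool.STK Pool.KA Pool.KSAT Pool.K2S Pool.PB Pool.S6C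
  Pool.GEN

section pure

variable {Ω U Y Y' C C' X B V : Type} [Fintype Ω] {q : Ω → ℝ}

/-- `free_info`, with few bits. -/
theorem free_few (hq : IsLaw q) (u : Ω → U) (y : Ω → Y) (y' : Ω → Y') (c : Ω → C) (c' : Ω → C')
    (hc : Det q c' c) {e₁ e₂ : ℝ} (h1 : CH q y c' ≤ e₁) (h2 : CH q y' c' ≤ e₂) :
    CH q y (fun ω => (y' ω, c ω)) ≤
      CH q y (fun ω => (u ω, (y' ω, c ω))) + (CH q u c - CH q u c') + (e₁ + e₂) := by
  have s1 := CH_chain hq.nonneg y u (fun ω => (y' ω, c ω))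
  have s2 := CH_chain hq.nonneg u y (fun ω => (y' ω, c ω))
  have s3 : CH q (fun ω => (y ω, u ω)) (fun ω => (y' ω, c ω)) =
      CH q (fun ω => (u ω, y ω)) (fun ω => (y' ω, c ω)) := by
    refine CH_congr hq.nonneg ?_ ?_ (fun _ _ _ _ h => h) (fun _ _ _ _ h => h) <;>
    · intro ω ω' _ _ hh
      simp only [Prod.mk.injEq] at hh ⊢
      tauto
  have s4 : CH q u c' ≤ CH q (fun ω => (y ω, y' ω)) c' + CH q u (fun ω => ((y ω, y' ω), c' ω)) :=
    CH_le_add hq.nonneg u (fun ω => (y ω, y' ω)) c'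
  have s5 : CH q u (fun ω => ((y ω, y' ω), c' ω)) ≤ CH q u (fun ω => (y ω, (y' ω, c ω))) := by
    refine CH_mono_cond hq.nonneg fun ω ω' a b hh => ?_
    simp only [Prod.mk.injEq] at hh ⊢
    exact ⟨hh.1.1, hh.1.2, hc ω ω' a b hh.2⟩
  have s6 : CH q (fun ω => (y ω, y' ω)) c' ≤ e₁ + e₂ := by
    have a1 := CH_chain hq.nonneg y y' c'
    have a2 : CH q y (fun ω => (y' ω, c' ω)) ≤ CH q y c' :=
      CH_mono_cond hq.nonneg fun _ _ _ _ hh => (Prod.ext_iff.mp hh).2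
    linarith
  have s7 : CH q u (fun ω => (y' ω, c ω)) ≤ CH q u c :=
    CH_mono_cond hq.nonneg fun _ _ _ _ hh => (Prod.ext_iff.mp hh).2
  linarith

/-- A context with few bits given `z`. -/
theorem ctx_few (hq : IsLaw q) (v : Ω → V) (c : Ω → C) (z : Ω → C') {e : ℝ}
    (h : CH q c z ≤ e) : CH q v z ≤ CH q v c + e := by
  have s1 := CH_le_add hq.nonneg v c z
  have s2 : CH q v (fun ω => (c ω, z ω)) ≤ CH q v c :=
    CH_mono_cond hq.nonneg fun _ _ _ _ hh => (Prod.ext_iff.mp hh).1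
  linarith

/-- **The near digits.** `x` are the positions, `c₀` the record at the lower window, `c₁` the
record at the upper window, `b` the coarse positions, `v` the near digits, `u` the digits of the
direction, `c` the context. -/
theorem near_full (hq : IsLaw q) (x : Ω → X) (b : Ω → B) (v : Ω → V) (u : Ω → U) (c : Ω → C)
    {C₀ C₁ : Type} (c₀ : Ω → C₀) (c₁ : Ω → C₁) (h01 : Det q c₁ c₀) {a β φ e₁ e₂ e₃ : ℝ}
    (hx : a ≤ CH q x c₀) (hb : CH q b c₀ ≤ β) (hf : CH q x (fun ω => (v ω, (b ω, c₀ ω))) ≤ φ)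
    (h1 : CH q v c₁ ≤ e₁) (h2 : CH q b c₁ ≤ e₂)
    (h3 : CH q c (fun ω => (u ω, (b ω, c₀ ω))) ≤ e₃) :
    a - β - φ - (CH q u c₀ - CH q u c₁) - (e₁ + e₂) - e₃ ≤ CH q v c := by
  have s1 := CH_le_add hq.nonneg x b c₀
  have s2 := CH_le_add hq.nonneg x v (fun ω => (b ω, c₀ ω))
  have s3 := free_few hq u v b c₀ c₁ h01 h1 h2
  have s4 := ctx_few hq v c (fun ω => (u ω, (b ω, c₀ ω))) h3
  linarith

end pure

/-! ### Classes -/

variable {m : ℕ}

/-- The positions `X` have the entropy `a J` given every `D`-free closed function at the window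
`w` and the time. -/
def Exb (S : PCl m) (w : ℝ) {ξ : ∀ J : ℕ, Fam m J → Type}
    (X : ∀ (J : ℕ) (F : Fam m J), F.Ω → ξ J F) (a : ℝ) : Prop :=
  Bas S (fun J F A => ∀ (V : Type) (z : F.Ω → V), Cl2 (vf (-1) J F) (vg w J F) A z →
    a * J ≤ CH (Pool.Agent.H49.Ent.cond F.p A True) (X J F) (fun ω => (z ω, F.W ω)))

theorem Lg.mono {J : ℕ} {F : Fam m J} {κ κ' : ℝ} (hk : κ ≤ κ') {A B : F.Ω → Prop}
    (h : Lg F κ A B) : Lg F κ' A B := by
  refine ⟨h.1, le_trans (mul_le_mul_of_nonneg_right (Real.exp_le_exp.2 ?_)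
    (Pe_nonneg F.isLaw A)) h.2⟩
  have := mul_le_mul_of_nonneg_right hk (Nat.cast_nonneg (α := ℝ) J)
  linarith

/-- Base statements hold on all large events. -/
theorem Bas.lrg {S : PCl m} {Φ : Stat m} (h : Bas S Φ) : ∃ κ : ℝ, 0 < κ ∧
    Bas S (fun J F A => ∀ B, Lg F κ A B → Φ J F B) := by
  obtain ⟨c, hc, J₁, h1⟩ := h
  refine ⟨c / 2, half_pos hc, c / 2, half_pos hc, J₁, fun J hJ F A hSt B hB => ?_⟩
  exact h1 J hJ F B (S.mono (by linarith) (S.res (half_pos hc).le hSt hB.1 hB.2))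

/-- Exactness in the form of functions of the exact point which are functions of the line and of
the window. -/
theorem Exb.of {S : PCl m}
    (hpos : ∀ (τ : ℝ) (J : ℕ) (F : Fam m J) (A : F.Ω → Prop), S.St τ J F A → 0 < Pe F.p A)
    {w : ℝ} {ξ : ∀ J : ℕ, Fam m J → Type} {X : ∀ (J : ℕ) (F : Fam m J), F.Ω → ξ J F} {a : ℝ}
    (h : Bas S (fun J F A => ∀ (V : Type) (z : PtT F → V) (z' : LnT F → V),
      (∀ ω, A ω → z (ptr F J ω) = z' (slam F ⌊w * J⌋₊ ω)) →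
      a * J ≤ CH (Pool.Agent.H49.Ent.cond F.p A True) (X J F)
        (fun ω => (z' (slam F ⌊w * J⌋₊ ω), F.W ω)))) : Exb S w X a := by
  have hpc : Bas S (fun _ F A => 0 < Pe F.p A) := ⟨1, one_pos, 0, fun J _ F A hA =>
    hpos 1 J F A hA⟩
  refine Bas.mono 0 (h.and hpc) ?_
  rintro J - F A ⟨h1, hA⟩ V z hz
  obtain ⟨φ, ψ, h2⟩ := (cl_neg F A (by norm_num)).1 hz
  have hcl := isLaw_cond F.isLaw hA
  have h3 := h1 V φ ψ fun ω hω => (h2 ω hω).2
  refine h3.trans (le_of_eq ?_)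
  have key : ∀ ω, 0 < Pool.Agent.H49.Ent.cond F.p A True ω → A ω := by
    intro ω hω
    have := (cond_pos_iff F.isLaw.nonneg _ True ω).1 hω
    simpa using this.2
  refine CH_congr hcl.nonneg ?_ ?_ ?_ ?_
  · intro ω ω' _ _ hh
    exact (Prod.ext_iff.mp hh).1
  · intro ω ω' _ _ hh
    exact (Prod.ext_iff.mp hh).1
  · intro ω ω' p1 p2 hh
    simp only [Prod.mk.injEq] at hh ⊢
    refine ⟨?_, hh.2⟩
    rw [(h2 ω (key ω p1)).1, (h2 ω' (key ω' p2)).1, (h2 ω (key ω p1)).2,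
      (h2 ω' (key ω' p2)).2]
    exact hh.1
  · intro ω ω' p1 p2 hh
    simp only [Prod.mk.injEq] at hh ⊢
    refine ⟨?_, hh.2⟩
    rw [← (h2 ω (key ω p1)).2, ← (h2 ω' (key ω' p2)).2, ← (h2 ω (key ω p1)).1,
      ← (h2 ω' (key ω' p2)).1]
    exact hh.1

/-- **Near digits are full given every context**, class form. `z`, `z'` are the `D`-free records
at the windows `w ≤ w'`. -/
theorem full_cls {S : PCl m}
    (hpos : ∀ (τ : ℝ) (J : ℕ) (F : Fam m J) (A : F.Ω → Prop), S.St τ J F A → 0 < Pe F.p A)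
    {η : ℚ → ℚ → ℝ} {t : ℚ → ℚ → ℚ → ℚ → ℝ}
    (N : FNum S (γ := fun _ _ F => ℕ × F.ζ) (fun _ _ F => F.W) η t) {w w' r : ℚ} (hw : w ≤ w')
    (hw' : w' ≤ 1) (hr : r ≤ 1) {ξ : ∀ J : ℕ, Fam m J → Type}
    {X : ∀ (J : ℕ) (F : Fam m J), F.Ω → ξ J F} {a : ℝ} (hX : Exb S (w : ℝ) X a) (h : ℝ)
    (hh : 0 < h) : ∃ κ : ℝ, 0 < κ ∧
    Bas S (fun J F A => ∃ (V V' : Type) (z : F.Ω → V) (z' : F.Ω → V'),
      Cl2 (vf (-1) J F) (vg (w : ℝ) J F) A z ∧ Cl2 (vf (-1) J F) (vg (w' : ℝ) J F) A z' ∧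
      (∃ φ : V' → V, ∀ ω, z ω = φ (z' ω)) ∧ ∀ B, Lg F κ A B → 0 < Pe F.p B ∧
      (∀ (V₂ : Type) (y : F.Ω → V₂), Cl2 (vf (-1) J F) (vg (w : ℝ) J F) B y →
        CH (Pool.Agent.H49.Ent.cond F.p B True) y z ≤ h * J) ∧
      (∀ (V₂ : Type) (y : F.Ω → V₂), Cl2 (vf (-1) J F) (vg (w' : ℝ) J F) B y →
        CH (Pool.Agent.H49.Ent.cond F.p B True) y z' ≤ h * J) ∧
      ∀ (Yb Yv Yc : Type) (b : F.Ω → Yb) (v : F.Ω → Yv) (c : F.Ω → Yc) (β φ e₁ e₂ e₃ : ℝ),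
        CH (Pool.Agent.H49.Ent.cond F.p B True) b (fun ω => (z ω, F.W ω)) ≤ β →
        CH (Pool.Agent.H49.Ent.cond F.p B True) (X J F)
          (fun ω => (v ω, (b ω, (z ω, F.W ω)))) ≤ φ →
        CH (Pool.Agent.H49.Ent.cond F.p B True) v (fun ω => (z' ω, F.W ω)) ≤ e₁ →
        CH (Pool.Agent.H49.Ent.cond F.p B True) b (fun ω => (z' ω, F.W ω)) ≤ e₂ →
        CH (Pool.Agent.H49.Ent.cond F.p B True) c
          (fun ω => (vu (r : ℝ) J F ω, (b ω, (z ω, F.W ω)))) ≤ e₃ →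
        (a - (t w (-1) 0 r - t w' (-1) 0 r) - 2 * h) * J - β - φ - (e₁ + e₂) - e₃ ≤
          CH (Pool.Agent.H49.Ent.cond F.p B True) v c) := by
  classical
  obtain ⟨κ₁, hκ₁, hb⟩ := N.rcd hpos {(w, -1), (w', -1)}
    (by simp [hw', hw.trans hw']) {(0, r)} (by simp [hr]) h hh
  obtain ⟨κ₂, hκ₂, hx⟩ := Bas.lrg hX
  refine ⟨min κ₁ κ₂, lt_min hκ₁ hκ₂, Bas.mono 0 (hb.and hx) ?_⟩
  rintro J - F A ⟨⟨V, z, R, hB⟩, hx⟩
  obtain ⟨i, hi⟩ : ∃ i : {x // x ∈ ({(w, -1), (w', -1)} : Finset (ℚ × ℚ))},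
    i = ⟨(w, -1), by simp⟩ := ⟨_, rfl⟩
  obtain ⟨j, hj⟩ : ∃ j : {x // x ∈ ({(w, -1), (w', -1)} : Finset (ℚ × ℚ))},
    j = ⟨(w', -1), by simp⟩ := ⟨_, rfl⟩
  have eq1 : (((-1 : ℚ)) : ℝ) = -1 := by norm_num
  have c1 : Cl2 (vf (-1) J F) (vg (w : ℝ) J F) A (z i) := by
    have := R.cl i
    rw [hi] at this ⊢
    simp only [eq1] at this
    exact this
  have c2 : Cl2 (vf (-1) J F) (vg (w' : ℝ) J F) A (z j) := by
    have := R.cl j
    rw [hj] at this ⊢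
    simp only [eq1] at this
    exact this
  have hle : leq {(w, -1), (w', -1)} i j := ⟨by rw [hi, hj]; exact hw, by rw [hi, hj]⟩
  refine ⟨V i, V j, z i, z j, c1, c2, R.nest i j hle, fun B hBL => ?_⟩
  have hL1 : Lg F κ₁ A B := hBL.mono (min_le_left _ _)
  have hL2 : Lg F κ₂ A B := hBL.mono (min_le_right _ _)
  refine ⟨R.pos B hL1, fun V₂ y hy => ?_, fun V₂ y hy => ?_, ?_⟩
  · have := R.max B hL1 i V₂ y (by
      rw [hi]
      simp only [eq1]
      exact hy)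
    exact this
  · have := R.max B hL1 j V₂ y (by
      rw [hj]
      simp only [eq1]
      exact hy)
    exact this
  intro Yb Yv Yc b v c β φ e₁ e₂ e₃ g1 g2 g3 g4 g5
  have hcl := isLaw_cond F.isLaw (R.pos B hL1)
  obtain ⟨ψ, hψ⟩ := R.nest i j hle
  have hx1 := hx B hL2 (V i) (z i) (c1.sub hBL.1)
  have key := near_full hcl (X J F) b v (vu (r : ℝ) J F) c (fun ω => (z i ω, F.W ω))
    (fun ω => (z j ω, F.W ω)) (fun ω ω' _ _ hh => by
      simp only [Prod.mk.injEq] at hh ⊢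
      exact ⟨by rw [hψ ω, hψ ω', hh.1], hh.2⟩) hx1 g1 g2 g3 g4 g5
  have a1 := (abs_le.1 (hB B hL1 i ⟨(0, r), by simp⟩)).2
  have a2 := (abs_le.1 (hB B hL1 j ⟨(0, r), by simp⟩)).1
  simp only at a1 a2
  have f1 : t i.1.1 i.1.2 0 r = t w (-1) 0 r := by rw [hi]
  have f2 : t j.1.1 j.1.2 0 r = t w' (-1) 0 r := by rw [hj]
  rw [f1] at a1
  rw [f2] at a2
  linarith

end Pool.RCD
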