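import Pool.Agent.H92.GN.Prod
import Pool.Agent.H92.GN.Full

/-!
# Near digits are full given every context, chart-dependent directions

`full_nn`: `full_cls` with an arbitrary natural quantity `Q` (the digits of the direction together
with jets of own paths) in place of the digits of the direction. `Few.of_y`, `NN.add`: a fixed
function can be moved from the side information to the first factor of a product, and the numbers
add.
-/

set_option autoImplicit false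

namespace Pool.LA91

open Finset Real
open Pool.Agent.H49.Ent Pool.Agent.H32.Dense Pool.STK Pool.KA Pool.KSAT Pool.K2S Pool.PB Pool.S6C
  Pool.GEN Pool.RCD

variable {m : ℕ} {U U₀ U' : Type} {α β γ α' β' γ' : ∀ J : ℕ, Fam m J → Type}
  {f : ∀ (J : ℕ) (F : Fam m J), F.Ω → α J F} {g : ∀ (J : ℕ) (F : Fam m J), F.Ω → β J F}
  {f' : ∀ (J : ℕ) (F : Fam m J), F.Ω → α' J F} {g' : ∀ (J : ℕ) (F : Fam m J), F.Ω → β' J F}
  {y : ∀ (J : ℕ) (F : Fam m J), F.Ω → γ J F} {y' : ∀ (J : ℕ) (F : Fam m J), F.Ω → γ' J F}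
  {S : PCl m}

theorem pos_of_cond {Ω : Type} [Fintype Ω] {p : Ω → ℝ} (hp : IsLaw p) {A : Ω → Prop} {ω : Ω}
    (h : 0 < Pool.Agent.H49.Ent.cond p A True ω) : A ω :=
  of_eq_true ((cond_pos_iff hp.nonneg A True ω).1 h).2

/-- A fixed function moves from the side information to the quantity. -/
theorem Few.of_y {Q : Qt m U} {Q' : Qt m U'} {u₀ : ∀ (J : ℕ) (F : Fam m J), F.Ω → U₀}
    (hpos : ∀ (τ : ℝ) (J : ℕ) (F : Fam m J) (A : F.Ω → Prop), S.St τ J F A → 0 < Pe F.p A)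
    (h : Few S f g (fun J F ω => (y J F ω, u₀ J F ω)) Q Q') :
    Few S f g y ((Qt.fn u₀).prod Q) Q' := by
  intro c hc
  obtain ⟨e, he, H⟩ := h c hc
  refine ⟨e, he, fun K => Bas.mono 0 ((H K).and (pos_bas hpos)) ?_⟩
  rintro J - F A ⟨H, hA⟩ u u' hu hu'
  obtain ⟨V, z, hz, h1⟩ := H (fun ω => (u ω).2) u' hu.2 hu'
  have hcl := isLaw_cond F.isLaw hA
  refine ⟨V, z, hz, le_trans (CH_mono_cond hcl.nonneg ?_) h1⟩
  intro ω ω' a b hh
  simp only [Prod.mk.injEq] at hh ⊢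
  have e1 := hu.1 ω (pos_of_cond F.isLaw a)
  have e2 := hu.1 ω' (pos_of_cond F.isLaw b)
  simp only at e1 e2
  exact ⟨by rw [hh.1], hh.2.1, hh.2.2, by rw [← e1, ← e2, hh.1]⟩

/-- **The numbers add.** -/
theorem NN.add (hS : S.Ne)
    (hpos : ∀ (τ : ℝ) (J : ℕ) (F : Fam m J) (A : F.Ω → Prop), S.St τ J F A → 0 < Pe F.p A)
    {η : ℝ} (hη : RNum S f g η) {Q : Qt m U} {u₀ : ∀ (J : ℕ) (F : Fam m J), F.Ω → U₀}
    {θ θ₁ θ₂ : ℝ} (N : NN S f g y ((Qt.fn u₀).prod Q) θ) (N₁ : NN S f g y (Qt.fn u₀) θ₁)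
    (N₂ : NN S f g (fun J F ω => (y J F ω, u₀ J F ω)) Q θ₂) (x : Exs S Q) : θ = θ₁ + θ₂ := by
  have key : ∀ h : ℝ, 0 < h → Bas S (fun J _ _ => |(θ - θ₁ - θ₂) * J| ≤ h * J) := by
    intro h hh
    obtain ⟨k1, hk1, e1, he1, H1⟩ := N.cond hpos N₁ (h / 2) (half_pos hh)
    obtain ⟨k2, hk2, e2, he2, H2⟩ := N₂ (h / 2) (half_pos hh)
    obtain ⟨K, M, hx⟩ := x (min e1 e2) (lt_min he1 he2)
    refine Bas.mono 0 ((((H1 K).and (H2 K)).and hx).and ((mx_ex hpos hη (min k1 k2)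
      (lt_min hk1 hk2)).and (pos_bas hpos))) ?_
    rintro J - F A ⟨⟨⟨H1, H2⟩, u, hu, -⟩, ⟨V, z, hz⟩, hA⟩
    have hcl := isLaw_cond F.isLaw hA
    have a1 := H1 V z (hz.le (min_le_left _ _)) (u₀ J F) u (fun ω _ => rfl)
      (Q.mono le_rfl (min_le_left _ _) hu)
    have a2 := H2 V z (hz.le (min_le_right _ _)) u (Q.mono le_rfl (min_le_right _ _) hu)
    have a3 : CH (Pool.Agent.H49.Ent.cond F.p A True) u (fun ω => (u₀ J F ω, (z ω, y J F ω))) =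
        CH (Pool.Agent.H49.Ent.cond F.p A True) u (fun ω => (z ω, (y J F ω, u₀ J F ω))) := by
      refine CH_congr hcl.nonneg (fun _ _ _ _ h => ?_) (fun _ _ _ _ h => ?_)
        (fun _ _ _ _ hh => ?_) (fun _ _ _ _ hh => ?_)
      · simp only [Prod.mk.injEq] at h ⊢
        tauto
      · simp only [Prod.mk.injEq] at h ⊢
        tauto
      · simp only [Prod.mk.injEq] at hh ⊢
        tauto
      · simp only [Prod.mk.injEq] at hh ⊢
        tauto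
    rw [a3] at a1
    rw [abs_le] at a1 a2 ⊢
    constructor <;> nlinarith [a1.1, a1.2, a2.1, a2.2]
  refine le_antisymm (le_of_bas hS fun ε hε => ?_) (le_of_bas hS fun ε hε => ?_)
  · refine Bas.mono 0 (key ε hε) fun J _ F A h => ?_
    have := (abs_le.1 h).2
    nlinarith
  · refine Bas.mono 0 (key ε hε) fun J _ F A h => ?_
    have := (abs_le.1 h).1
    nlinarith

/-- Exactness of the positions given coarse positions. -/
theorem exact_y {J : ℕ} {F : Fam m J} {A : F.Ω → Prop} (hA : 0 < Pe F.p A) {X Y Y' Z : Type}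
    (x : F.Ω → X) (z : F.Ω → Z) (w : F.Ω → Y) (b : F.Ω → Y') {a β : ℝ}
    (hx : a ≤ CH (Pool.Agent.H49.Ent.cond F.p A True) x (fun ω => (z ω, w ω)))
    (hb : CH (Pool.Agent.H49.Ent.cond F.p A True) b (fun ω => (z ω, w ω)) ≤ β) :
    a - β ≤ CH (Pool.Agent.H49.Ent.cond F.p A True) x (fun ω => (z ω, (w ω, b ω))) := by
  have hcl := isLaw_cond F.isLaw hA
  have s1 := CH_le_add hcl.nonneg x b (fun ω => (z ω, w ω))
  have s2 : CH (Pool.Agent.H49.Ent.cond F.p A True) x (fun ω => (b ω, (z ω, w ω))) ≤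
      CH (Pool.Agent.H49.Ent.cond F.p A True) x (fun ω => (z ω, (w ω, b ω))) := by
    refine CH_mono_cond hcl.nonneg fun ω ω' _ _ hh => ?_
    simp only [Prod.mk.injEq] at hh ⊢
    tauto
  linarith

/-- **Near digits are full given every context.** `z`, `z'` are the records at the lower and at the
upper window, `u` is the quantity `Q` over the charts of the lower window, `X` are positions which
are exact given the lower record, `b` coarse positions, `v` near digits, `cc` the context. -/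
theorem full_nn
    (hpos : ∀ (τ : ℝ) (J : ℕ) (F : Fam m J) (A : F.Ω → Prop), S.St τ J F A → 0 < Pe F.p A)
    (hf : ∀ (J : ℕ) (F : Fam m J), ∃ φ : α' J F → α J F, ∀ ω, f J F ω = φ (f' J F ω))
    (hg : ∀ (J : ℕ) (F : Fam m J), ∃ φ : β' J F → β J F, ∀ ω, g J F ω = φ (g' J F ω))
    (hy : ∀ (J : ℕ) (F : Fam m J), ∃ φ : γ' J F → γ J F, ∀ ω, y J F ω = φ (y' J F ω))
    {Q : Qt m U} {Q' : Qt m U'} {θ θ' : ℝ} (N : NN S f g y Q θ) (N' : NN S f' g' y' Q' θ')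
    (x' : Exs S Q') (c : Few S f' g' y' Q Q') {ξ : ∀ J : ℕ, Fam m J → Type}
    {X : ∀ (J : ℕ) (F : Fam m J), F.Ω → ξ J F} {a : ℝ}
    (hX : Bas S (fun J F A => ∀ (V : Type) (z : F.Ω → V), Cl2 (f J F) (g J F) A z →
      a * J ≤ CH (Pool.Agent.H49.Ent.cond F.p A True) (X J F) (fun ω => (z ω, y J F ω))))
    (h : ℝ) (hh : 0 < h) :
    ∃ k : ℝ, 0 < k ∧ ∃ e₀ : ℝ, 0 < e₀ ∧ ∀ K : ℕ, Bas S (fun J F A =>
      ∀ (V : Type) (z : F.Ω → V) (V' : Type) (z' : F.Ω → V'), Mx f g k F A z →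
      Mx f' g' k F A z' → ∀ u, Q.P K e₀ J F A u →
      ∀ (Yb Yv Yc : Type) (b : F.Ω → Yb) (v : F.Ω → Yv) (cc : F.Ω → Yc) (β₀ φ e₁ e₂ e₃ : ℝ),
        CH (Pool.Agent.H49.Ent.cond F.p A True) b (fun ω => (z ω, y J F ω)) ≤ β₀ →
        CH (Pool.Agent.H49.Ent.cond F.p A True) (X J F)
          (fun ω => (v ω, (b ω, (z ω, y J F ω)))) ≤ φ →
        CH (Pool.Agent.H49.Ent.cond F.p A True) v (fun ω => ((z ω, z' ω), y' J F ω)) ≤ e₁ →
        CH (Pool.Agent.H49.Ent.cond F.p A True) b (fun ω => ((z ω, z' ω), y' J F ω)) ≤ e₂ →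
        CH (Pool.Agent.H49.Ent.cond F.p A True) cc
          (fun ω => (u ω, (b ω, (z ω, y J F ω)))) ≤ e₃ →
        (a - (θ - θ') - h) * J - β₀ - φ - (e₁ + e₂) - e₃ ≤
          CH (Pool.Agent.H49.Ent.cond F.p A True) v cc) := by
  obtain ⟨k1, hk1, e1, he1, H1⟩ := N (h / 4) (by positivity)
  obtain ⟨k2, hk2, e2, he2, H2⟩ := N' (h / 4) (by positivity)
  obtain ⟨e3, he3, H3⟩ := c.mx hpos (h / 4) (by positivity)
  obtain ⟨e₀, he₀, l1, l2, l3⟩ : ∃ e₀ : ℝ, 0 < e₀ ∧ e₀ ≤ e1 ∧ e₀ ≤ e2 ∧ e₀ ≤ e3 :=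
    ⟨min e1 (min e2 e3), by positivity, min_le_left _ _, (min_le_right _ _).trans (min_le_left _ _),
      (min_le_right _ _).trans (min_le_right _ _)⟩
  obtain ⟨k, hk, m1, m2, m3⟩ : ∃ k : ℝ, 0 < k ∧ k ≤ k1 ∧ k ≤ k2 ∧ k ≤ h / 4 / 2 :=
    ⟨min k1 (min k2 (h / 4 / 2)), by positivity, min_le_left _ _,
      (min_le_right _ _).trans (min_le_left _ _), (min_le_right _ _).trans (min_le_right _ _)⟩
  obtain ⟨K₁, M₁, hx1⟩ := x' e₀ he₀
  refine ⟨k, hk, e₀, he₀, fun K => ?_⟩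
  refine Bas.mono 0 (((((H1 (max K K₁)).and (H2 (max K K₁))).and (H3 (max K K₁))).and
    (hx1.and (pos_bas hpos))).and hX) ?_
  rintro J - F A ⟨⟨⟨⟨H1, H2⟩, H3⟩, ⟨u', hu', -⟩, hA⟩, hX⟩ V z V' z' hz hz₀ u hu Yb Yv Yc b v cc
    β₀ φ e₁ e₂ e₃ g1 g2 g3 g4 g5
  have hcl := isLaw_cond F.isLaw hA
  have hJ0 : (0 : ℝ) ≤ J := Nat.cast_nonneg J
  have hz' := hz.join hA (hf J F) (hg J F) hz₀
  obtain ⟨χ, hχ⟩ := hy J F
  have a1 := (abs_le.1 (H1 V z (hz.le m1) u (Q.mono (le_max_left _ _) l1 hu))).2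
  have a2 := (abs_le.1 (H2 _ _ (hz'.le m2) u' (Q'.mono (le_max_right _ _) l2 hu'))).1
  have a3 := H3 _ _ (hz'.le m3) u u' (Q.mono (le_max_left _ _) l3 hu)
    (Q'.mono (le_max_right _ _) l3 hu')
  have s1 := CH_le_add hcl.nonneg u' u (fun ω => ((z ω, z' ω), y' J F ω))
  have key := near_full hcl (X J F) b v u cc (fun ω => (z ω, y J F ω))
    (fun ω => ((z ω, z' ω), y' J F ω)) (fun ω ω' _ _ hh => by
      simp only [Prod.mk.injEq] at hh ⊢
      exact ⟨hh.1.1, by rw [hχ ω, hχ ω', hh.2]⟩) (hX V z hz.1) g1 g2 g3 g4 g5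
  have s3 : 0 ≤ h * J := by positivity
  nlinarith

end Pool.LA91
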