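import Pool.Agent.H92.GN.FreeQ

/-!
# Products of natural quantities

`Qt.prod Q₁ Q₂`: the joint quantity. `Qt.fn f`: a fixed function. `Few` for products (`Few.fst`,
`Few.snd`, `Few.pair`, `Few.seq`, `Few.trans`), existence (`Exs.prod`), numbers given a quantity
(`NN.cond`), free of the records given a quantity (`NN.free_cond`).
-/

set_option autoImplicit false

namespace Pool.LA91

open Finset Real
open Pool.Agent.H49.Ent Pool.Agent.H32.Dense Pool.STK Pool.KA Pool.KSAT Pool.K2S Pool.PB Pool.S6C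
  Pool.GEN Pool.RCD

variable {m : ℕ} {U U₁ U₂ U₁' U₂' U' : Type} {α β γ α' β' γ' : ∀ J : ℕ, Fam m J → Type}
  {f : ∀ (J : ℕ) (F : Fam m J), F.Ω → α J F} {g : ∀ (J : ℕ) (F : Fam m J), F.Ω → β J F}
  {f' : ∀ (J : ℕ) (F : Fam m J), F.Ω → α' J F} {g' : ∀ (J : ℕ) (F : Fam m J), F.Ω → β' J F}
  {y : ∀ (J : ℕ) (F : Fam m J), F.Ω → γ J F} {y' : ∀ (J : ℕ) (F : Fam m J), F.Ω → γ' J F}
  {S : PCl m}

/-- **The joint quantity.** -/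
def Qt.prod (Q₁ : Qt m U₁) (Q₂ : Qt m U₂) : Qt m (U₁ × U₂) where
  P K e J F A u := Q₁.P K e J F A (fun ω => (u ω).1) ∧ Q₂.P K e J F A (fun ω => (u ω).2)
  sub hB h := ⟨Q₁.sub hB h.1, Q₂.sub hB h.2⟩
  mono hK he h := ⟨Q₁.mono hK he h.1, Q₂.mono hK he h.2⟩

theorem Qt.prod_mk {Q₁ : Qt m U₁} {Q₂ : Qt m U₂} {K : ℕ} {e : ℝ} {J : ℕ} {F : Fam m J}
    {A : F.Ω → Prop} {u₁ : F.Ω → U₁} {u₂ : F.Ω → U₂} (h₁ : Q₁.P K e J F A u₁)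
    (h₂ : Q₂.P K e J F A u₂) : (Q₁.prod Q₂).P K e J F A (fun ω => (u₁ ω, u₂ ω)) := ⟨h₁, h₂⟩

/-- **A fixed function.** -/
def Qt.fn (u₀ : ∀ (J : ℕ) (F : Fam m J), F.Ω → U) : Qt m U where
  P _ _ J F A u := ∀ ω, A ω → u ω = u₀ J F ω
  sub hB h := fun ω hω => h ω (hB ω hω)
  mono _ _ h := h

theorem Few.fst {Q₁ : Qt m U₁} {Q₂ : Qt m U₂} {Q' : Qt m U'}
    (hpos : ∀ (τ : ℝ) (J : ℕ) (F : Fam m J) (A : F.Ω → Prop), S.St τ J F A → 0 < Pe F.p A)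
    (h : Few S f g y Q₁ Q') : Few S f g y (Q₁.prod Q₂) Q' := by
  intro c hc
  obtain ⟨e, he, H⟩ := h c hc
  refine ⟨e, he, fun K => Bas.mono 0 ((H K).and (pos_bas hpos)) ?_⟩
  rintro J - F A ⟨H, hA⟩ u u' hu hu'
  obtain ⟨V, z, hz, h1⟩ := H (fun ω => (u ω).1) u' hu.1 hu'
  refine ⟨V, z, hz, le_trans (CH_mono_cond (isLaw_cond F.isLaw hA).nonneg ?_) h1⟩
  intro ω ω' _ _ hh
  simp only [Prod.mk.injEq] at hh ⊢
  exact ⟨by rw [hh.1], hh.2⟩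

theorem Few.snd {Q₁ : Qt m U₁} {Q₂ : Qt m U₂} {Q' : Qt m U'}
    (hpos : ∀ (τ : ℝ) (J : ℕ) (F : Fam m J) (A : F.Ω → Prop), S.St τ J F A → 0 < Pe F.p A)
    (h : Few S f g y Q₂ Q') : Few S f g y (Q₁.prod Q₂) Q' := by
  intro c hc
  obtain ⟨e, he, H⟩ := h c hc
  refine ⟨e, he, fun K => Bas.mono 0 ((H K).and (pos_bas hpos)) ?_⟩
  rintro J - F A ⟨H, hA⟩ u u' hu hu'
  obtain ⟨V, z, hz, h1⟩ := H (fun ω => (u ω).2) u' hu.2 hu'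
  refine ⟨V, z, hz, le_trans (CH_mono_cond (isLaw_cond F.isLaw hA).nonneg ?_) h1⟩
  intro ω ω' _ _ hh
  simp only [Prod.mk.injEq] at hh ⊢
  exact ⟨by rw [hh.1], hh.2⟩

/-- **Few bits, one after the other.** -/
theorem Few.seq {Q : Qt m U} {Q₁' : Qt m U₁'} {Q₂' : Qt m U₂'}
    (hpos : ∀ (τ : ℝ) (J : ℕ) (F : Fam m J) (A : F.Ω → Prop), S.St τ J F A → 0 < Pe F.p A)
    (h₁ : Few S f g y Q Q₁') (h₂ : Few S f g y (Q.prod Q₁') Q₂') :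
    Few S f g y Q (Q₁'.prod Q₂') := by
  intro c hc
  obtain ⟨e₁, he₁, H₁⟩ := h₁ (c / 2) (half_pos hc)
  obtain ⟨e₂, he₂, H₂⟩ := h₂ (c / 2) (half_pos hc)
  refine ⟨min e₁ e₂, lt_min he₁ he₂, fun K => Bas.mono 0 (((H₁ K).and (H₂ K)).and
    (pos_bas hpos)) ?_⟩
  rintro J - F A ⟨⟨H₁, H₂⟩, hA⟩ u u' hu hu'
  have hcl := isLaw_cond F.isLaw hA
  have l1 : min e₁ e₂ ≤ e₁ := min_le_left _ _
  have l2 : min e₁ e₂ ≤ e₂ := min_le_right _ _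
  obtain ⟨V, z, hz, a1⟩ := H₁ u (fun ω => (u' ω).1) (Q.mono le_rfl l1 hu)
    (Q₁'.mono le_rfl l1 hu'.1)
  obtain ⟨V', z', hz', a2⟩ := H₂ (fun ω => (u ω, (u' ω).1)) (fun ω => (u' ω).2)
    ⟨Q.mono le_rfl l2 hu, Q₁'.mono le_rfl l2 hu'.1⟩ (Q₂'.mono le_rfl l2 hu'.2)
  refine ⟨_, _, hz.join hz', ?_⟩
  have s1 := CH_chain hcl.nonneg (fun ω => (u' ω).2) (fun ω => (u' ω).1)
    (fun ω => (u ω, ((z ω, z' ω), y J F ω)))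
  have s2 : CH (Pool.Agent.H49.Ent.cond F.p A True) (fun ω => (u' ω).1)
      (fun ω => (u ω, ((z ω, z' ω), y J F ω))) ≤
      CH (Pool.Agent.H49.Ent.cond F.p A True) (fun ω => (u' ω).1)
        (fun ω => (u ω, (z ω, y J F ω))) := by
    refine CH_mono_cond hcl.nonneg fun ω ω' _ _ hh => ?_
    simp only [Prod.mk.injEq] at hh ⊢
    exact ⟨hh.1, hh.2.1.1, hh.2.2⟩
  have s3 : CH (Pool.Agent.H49.Ent.cond F.p A True) (fun ω => (u' ω).2)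
      (fun ω => ((u' ω).1, (u ω, ((z ω, z' ω), y J F ω)))) ≤
      CH (Pool.Agent.H49.Ent.cond F.p A True) (fun ω => (u' ω).2)
        (fun ω => ((u ω, (u' ω).1), (z' ω, y J F ω))) := by
    refine CH_mono_cond hcl.nonneg fun ω ω' _ _ hh => ?_
    simp only [Prod.mk.injEq] at hh ⊢
    exact ⟨⟨hh.2.1, hh.1⟩, hh.2.2.1.2, hh.2.2.2⟩
  have s4 : CH (Pool.Agent.H49.Ent.cond F.p A True) u' (fun ω => (u ω, ((z ω, z' ω), y J F ω))) ≤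
      CH (Pool.Agent.H49.Ent.cond F.p A True) (fun ω => ((u' ω).2, (u' ω).1))
        (fun ω => (u ω, ((z ω, z' ω), y J F ω))) := by
    refine CH_mono_left hcl.nonneg fun ω ω' _ _ hh => ?_
    simp only [Prod.mk.injEq] at hh
    exact Prod.ext hh.1.2 hh.1.1
  change CH (Pool.Agent.H49.Ent.cond F.p A True) u' (fun ω => (u ω, ((z ω, z' ω), y J F ω))) ≤
    c * J
  linarith

theorem Few.pair {Q : Qt m U} {Q₁' : Qt m U₁'} {Q₂' : Qt m U₂'}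
    (hpos : ∀ (τ : ℝ) (J : ℕ) (F : Fam m J) (A : F.Ω → Prop), S.St τ J F A → 0 < Pe F.p A)
    (h₁ : Few S f g y Q Q₁') (h₂ : Few S f g y Q Q₂') : Few S f g y Q (Q₁'.prod Q₂') :=
  Few.seq hpos h₁ (Few.fst hpos h₂)

/-- Joint quantities, each of them few bits given the one before. -/
theorem Few.prod {Q₁ : Qt m U₁} {Q₂ : Qt m U₂} {Q₁' : Qt m U₁'} {Q₂' : Qt m U₂'}
    (hpos : ∀ (τ : ℝ) (J : ℕ) (F : Fam m J) (A : F.Ω → Prop), S.St τ J F A → 0 < Pe F.p A)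
    (h₁ : Few S f g y Q₁ Q₁') (h₂ : Few S f g y Q₂ Q₂') :
    Few S f g y (Q₁.prod Q₂) (Q₁'.prod Q₂') :=
  Few.pair hpos (Few.fst hpos h₁) (Few.snd hpos h₂)

/-- **Few bits of few bits.** -/
theorem Few.trans {Q : Qt m U} {Q₁ : Qt m U₁} {Q₂ : Qt m U₂}
    (hpos : ∀ (τ : ℝ) (J : ℕ) (F : Fam m J) (A : F.Ω → Prop), S.St τ J F A → 0 < Pe F.p A)
    (x₁ : Exs S Q₁) (h₁ : Few S f g y Q Q₁) (h₂ : Few S f g y Q₁ Q₂) : Few S f g y Q Q₂ := by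
  intro c hc
  obtain ⟨e₁, he₁, H₁⟩ := h₁ (c / 2) (half_pos hc)
  obtain ⟨e₂, he₂, H₂⟩ := h₂ (c / 2) (half_pos hc)
  have l1 : min e₁ e₂ ≤ e₁ := min_le_left _ _
  have l2 : min e₁ e₂ ≤ e₂ := min_le_right _ _
  obtain ⟨K₁, M₁, hx⟩ := x₁ (min e₁ e₂) (lt_min he₁ he₂)
  refine ⟨min e₁ e₂, lt_min he₁ he₂, fun K => Bas.mono 0 ((((H₁ (max K K₁)).and
    (H₂ (max K K₁))).and hx).and (pos_bas hpos)) ?_⟩
  rintro J - F A ⟨⟨⟨H₁, H₂⟩, u₁, hu₁, -⟩, hA⟩ u u₂ hu hu₂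
  have hcl := isLaw_cond F.isLaw hA
  obtain ⟨V, z, hz, a1⟩ := H₁ u u₁ (Q.mono (le_max_left _ _) l1 hu)
    (Q₁.mono (le_max_right _ _) l1 hu₁)
  obtain ⟨V', z', hz', a2⟩ := H₂ u₁ u₂ (Q₁.mono (le_max_right _ _) l2 hu₁)
    (Q₂.mono (le_max_left _ _) l2 hu₂)
  refine ⟨_, _, hz.join hz', ?_⟩
  have s1 := CH_le_add hcl.nonneg u₂ u₁ (fun ω => (u ω, ((z ω, z' ω), y J F ω)))
  have s2 : CH (Pool.Agent.H49.Ent.cond F.p A True) u₁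
      (fun ω => (u ω, ((z ω, z' ω), y J F ω))) ≤
      CH (Pool.Agent.H49.Ent.cond F.p A True) u₁ (fun ω => (u ω, (z ω, y J F ω))) := by
    refine CH_mono_cond hcl.nonneg fun ω ω' _ _ hh => ?_
    simp only [Prod.mk.injEq] at hh ⊢
    exact ⟨hh.1, hh.2.1.1, hh.2.2⟩
  have s3 : CH (Pool.Agent.H49.Ent.cond F.p A True) u₂
      (fun ω => (u₁ ω, (u ω, ((z ω, z' ω), y J F ω)))) ≤
      CH (Pool.Agent.H49.Ent.cond F.p A True) u₂ (fun ω => (u₁ ω, (z' ω, y J F ω))) := by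
    refine CH_mono_cond hcl.nonneg fun ω ω' _ _ hh => ?_
    simp only [Prod.mk.injEq] at hh ⊢
    exact ⟨hh.1, hh.2.2.1.2, hh.2.2.2⟩
  change CH (Pool.Agent.H49.Ent.cond F.p A True) u₂ (fun ω => (u ω, ((z ω, z' ω), y J F ω))) ≤
    c * J
  linarith

/-- `Few` is preserved when the records and the side information get finer. -/
theorem Few.up {Q : Qt m U} {Q' : Qt m U'}
    (hpos : ∀ (τ : ℝ) (J : ℕ) (F : Fam m J) (A : F.Ω → Prop), S.St τ J F A → 0 < Pe F.p A)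
    (hf : ∀ (J : ℕ) (F : Fam m J), ∃ φ : α' J F → α J F, ∀ ω, f J F ω = φ (f' J F ω))
    (hg : ∀ (J : ℕ) (F : Fam m J), ∃ φ : β' J F → β J F, ∀ ω, g J F ω = φ (g' J F ω))
    (hy : ∀ (J : ℕ) (F : Fam m J), ∃ φ : γ' J F → γ J F, ∀ ω, y J F ω = φ (y' J F ω))
    (h : Few S f g y Q Q') : Few S f' g' y' Q Q' := by
  intro c hc
  obtain ⟨e, he, H⟩ := h c hc
  refine ⟨e, he, fun K => Bas.mono 0 ((H K).and (pos_bas hpos)) ?_⟩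
  rintro J - F A ⟨H, hA⟩ u u' hu hu'
  obtain ⟨V, z, hz, h1⟩ := H u u' hu hu'
  obtain ⟨φ, hφ⟩ := hf J F
  obtain ⟨ψ, hψ⟩ := hg J F
  obtain ⟨χ, hχ⟩ := hy J F
  refine ⟨V, z, hz.mono ⟨φ, fun ω _ => hφ ω⟩ ⟨ψ, fun ω _ => hψ ω⟩,
    le_trans (CH_mono_cond (isLaw_cond F.isLaw hA).nonneg ?_) h1⟩
  intro ω ω' _ _ hh
  simp only [Prod.mk.injEq] at hh ⊢
  exact ⟨hh.1, hh.2.1, by rw [hχ ω, hχ ω', hh.2.2]⟩

/-- A fixed function which is a function of the side information. -/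
theorem Few.fn {Q : Qt m U} {u₀ : ∀ (J : ℕ) (F : Fam m J), F.Ω → U'}
    (hpos : ∀ (τ : ℝ) (J : ℕ) (F : Fam m J) (A : F.Ω → Prop), S.St τ J F A → 0 < Pe F.p A)
    (h0 : ∀ (J : ℕ) (F : Fam m J), ∃ φ : γ J F → U', ∀ ω, u₀ J F ω = φ (y J F ω)) :
    Few S f g y Q (Qt.fn u₀) := by
  intro c hc
  refine ⟨1, one_pos, fun K => Bas.mono 0 (pos_bas hpos) ?_⟩
  rintro J - F A hA u u' - hu'
  obtain ⟨φ, hφ⟩ := h0 J F
  refine ⟨Unit, fun _ => (), ⟨⟨fun _ => (), fun _ _ => rfl⟩, fun _ => (), fun _ _ => rfl⟩, ?_⟩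
  have hcl := isLaw_cond F.isLaw hA
  have h1 : CH (Pool.Agent.H49.Ent.cond F.p A True) u' (fun ω => (u ω, ((), y J F ω))) = 0 := by
    refine CH_eq_zero hcl.nonneg fun ω ω' a b hh => ?_
    simp only [Prod.mk.injEq] at hh
    have e1 := hu' ω ((cond_pos_iff F.isLaw.nonneg A True ω).1 a |> fun h => of_eq_true h.2)
    have e2 := hu' ω' ((cond_pos_iff F.isLaw.nonneg A True ω').1 b |> fun h => of_eq_true h.2)
    rw [e1, e2, hφ ω, hφ ω', hh.2.2]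
  rw [h1]
  positivity

/-- A fixed function of a fixed function. -/
theorem Few.fn_fn {u₀ : ∀ (J : ℕ) (F : Fam m J), F.Ω → U} {u₀' : ∀ (J : ℕ) (F : Fam m J), F.Ω → U'}
    (hpos : ∀ (τ : ℝ) (J : ℕ) (F : Fam m J) (A : F.Ω → Prop), S.St τ J F A → 0 < Pe F.p A)
    (h0 : ∀ (J : ℕ) (F : Fam m J), ∃ φ : U → γ J F → U', ∀ ω, u₀' J F ω =
      φ (u₀ J F ω) (y J F ω)) :
    Few S f g y (Qt.fn u₀) (Qt.fn u₀') := by
  intro c hc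
  refine ⟨1, one_pos, fun K => Bas.mono 0 (pos_bas hpos) ?_⟩
  rintro J - F A hA u u' hu hu'
  obtain ⟨φ, hφ⟩ := h0 J F
  refine ⟨Unit, fun _ => (), ⟨⟨fun _ => (), fun _ _ => rfl⟩, fun _ => (), fun _ _ => rfl⟩, ?_⟩
  have hcl := isLaw_cond F.isLaw hA
  have h1 : CH (Pool.Agent.H49.Ent.cond F.p A True) u' (fun ω => (u ω, ((), y J F ω))) = 0 := by
    refine CH_eq_zero hcl.nonneg fun ω ω' a b hh => ?_
    simp only [Prod.mk.injEq] at hh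
    have e1 := hu' ω ((cond_pos_iff F.isLaw.nonneg A True ω).1 a |> fun h => of_eq_true h.2)
    have e2 := hu' ω' ((cond_pos_iff F.isLaw.nonneg A True ω').1 b |> fun h => of_eq_true h.2)
    have e3 := hu ω ((cond_pos_iff F.isLaw.nonneg A True ω).1 a |> fun h => of_eq_true h.2)
    have e4 := hu ω' ((cond_pos_iff F.isLaw.nonneg A True ω').1 b |> fun h => of_eq_true h.2)
    rw [e1, e2, hφ ω, hφ ω', ← e3, ← e4, hh.1, hh.2.2]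
  rw [h1]
  positivity

theorem Exs.prod {Q₁ : Qt m U₁} {Q₂ : Qt m U₂} (x₁ : Exs S Q₁) (x₂ : Exs S Q₂) :
    Exs S (Q₁.prod Q₂) := by
  intro e he
  obtain ⟨K₁, M₁, h₁⟩ := x₁ e he
  obtain ⟨K₂, M₂, h₂⟩ := x₂ e he
  refine ⟨max K₁ K₂, M₁ + M₂, Bas.mono 0 (h₁.and h₂) ?_⟩
  rintro J - F A ⟨⟨u₁, a1, b1⟩, u₂, a2, b2⟩
  refine ⟨fun ω => (u₁ ω, u₂ ω), ⟨Q₁.mono (le_max_left _ _) le_rfl a1,
    Q₂.mono (le_max_right _ _) le_rfl a2⟩, ?_⟩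
  have h3 : (cnt F.p (fun ω => (u₁ ω, u₂ ω)) A : ℝ) ≤ (cnt F.p u₁ A : ℝ) * cnt F.p u₂ A := by
    exact_mod_cast cnt_pair F.p u₁ u₂ A
  refine h3.trans ((mul_le_mul b1 b2 (Nat.cast_nonneg _) (Real.exp_pos _).le).trans ?_)
  rw [← Real.exp_add]
  exact Real.exp_le_exp.2 (le_of_eq (by ring))

/-- The count of a joint quantity. -/
theorem cnt_prod {Q₁ : Qt m U₁} {Q₂ : Qt m U₂} {M₁ M₂ : ℝ}
    (x₁ : ∀ e : ℝ, 0 < e → ∃ K : ℕ, Bas S (fun J F A => ∃ u, Q₁.P K e J F A u ∧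
      (cnt F.p u A : ℝ) ≤ Real.exp (M₁ * J)))
    (x₂ : ∀ e : ℝ, 0 < e → ∃ K : ℕ, Bas S (fun J F A => ∃ u, Q₂.P K e J F A u ∧
      (cnt F.p u A : ℝ) ≤ Real.exp (M₂ * J))) :
    ∀ e : ℝ, 0 < e → ∃ K : ℕ, Bas S (fun J F A => ∃ u, (Q₁.prod Q₂).P K e J F A u ∧
      (cnt F.p u A : ℝ) ≤ Real.exp ((M₁ + M₂) * J)) := by
  intro e he
  obtain ⟨K₁, h₁⟩ := x₁ e he
  obtain ⟨K₂, h₂⟩ := x₂ e he
  refine ⟨max K₁ K₂, Bas.mono 0 (h₁.and h₂) ?_⟩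
  rintro J - F A ⟨⟨u₁, a1, b1⟩, u₂, a2, b2⟩
  refine ⟨fun ω => (u₁ ω, u₂ ω), ⟨Q₁.mono (le_max_left _ _) le_rfl a1,
    Q₂.mono (le_max_right _ _) le_rfl a2⟩, ?_⟩
  have h3 : (cnt F.p (fun ω => (u₁ ω, u₂ ω)) A : ℝ) ≤ (cnt F.p u₁ A : ℝ) * cnt F.p u₂ A := by
    exact_mod_cast cnt_pair F.p u₁ u₂ A
  refine h3.trans ((mul_le_mul b1 b2 (Nat.cast_nonneg _) (Real.exp_pos _).le).trans ?_)
  rw [← Real.exp_add]
  exact Real.exp_le_exp.2 (le_of_eq (by ring))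

/-- **The number of a quantity given another one.** -/
theorem NN.cond {Q₁ : Qt m U₁} {Q₂ : Qt m U₂} {θ θ₁ : ℝ}
    (hpos : ∀ (τ : ℝ) (J : ℕ) (F : Fam m J) (A : F.Ω → Prop), S.St τ J F A → 0 < Pe F.p A)
    (N : NN S f g y (Q₁.prod Q₂) θ) (N₁ : NN S f g y Q₁ θ₁) (h : ℝ) (hh : 0 < h) :
    ∃ k : ℝ, 0 < k ∧ ∃ e₀ : ℝ, 0 < e₀ ∧ ∀ K : ℕ, Bas S (fun J F A =>
      ∀ (V : Type) (z : F.Ω → V), Mx f g k F A z → ∀ u₁ u₂, Q₁.P K e₀ J F A u₁ →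
      Q₂.P K e₀ J F A u₂ →
      |CH (Pool.Agent.H49.Ent.cond F.p A True) u₂ (fun ω => (u₁ ω, (z ω, y J F ω))) -
        (θ - θ₁) * J| ≤ h * J) := by
  obtain ⟨k1, hk1, e1, he1, H1⟩ := N (h / 2) (half_pos hh)
  obtain ⟨k2, hk2, e2, he2, H2⟩ := N₁ (h / 2) (half_pos hh)
  refine ⟨min k1 k2, lt_min hk1 hk2, min e1 e2, lt_min he1 he2, fun K =>
    Bas.mono 0 (((H1 K).and (H2 K)).and (pos_bas hpos)) ?_⟩
  rintro J - F A ⟨⟨H1, H2⟩, hA⟩ V z hz u₁ u₂ hu₁ hu₂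
  have hcl := isLaw_cond F.isLaw hA
  have a1 := H1 V z (hz.le (min_le_left _ _)) (fun ω => (u₁ ω, u₂ ω))
    ⟨Q₁.mono le_rfl (min_le_left _ _) hu₁, Q₂.mono le_rfl (min_le_left _ _) hu₂⟩
  have a2 := H2 V z (hz.le (min_le_right _ _)) u₁ (Q₁.mono le_rfl (min_le_right _ _) hu₁)
  have s1 := CH_chain hcl.nonneg u₂ u₁ (fun ω => (z ω, y J F ω))
  have s2 : CH (Pool.Agent.H49.Ent.cond F.p A True) (fun ω => (u₂ ω, u₁ ω))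
      (fun ω => (z ω, y J F ω)) = CH (Pool.Agent.H49.Ent.cond F.p A True)
      (fun ω => (u₁ ω, u₂ ω)) (fun ω => (z ω, y J F ω)) := by
    refine CH_congr hcl.nonneg ?_ ?_ (fun _ _ _ _ h => h) (fun _ _ _ _ h => h) <;>
    · intro ω ω' _ _ hh
      simp only [Prod.mk.injEq] at hh ⊢
      tauto
  rw [abs_le] at a1 a2 ⊢
  constructor <;> nlinarith [a1.1, a1.2, a2.1, a2.2]

end Pool.LA91
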