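import Pool.Agent.H92.GN.Cl

/-!
# Records: maximal closed functions, nested, for finitely many pairs of visible variables

For countably many pairs `(f, g)` of visible variables there is a nonempty subclass in which the
entropy of `f` given the best closed function is a number (`ext_rec`). For finitely many pairs,
partially ordered by refinement, there are closed functions (`records`), exactly nested, such that
on all large events every other closed function is determined up to a small entropy.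
-/

set_option autoImplicit false

namespace Pool.RCD

open Finset Real
open Pool.Agent.H49.Ent Pool.Agent.H32.Dense Pool.STK Pool.KA Pool.K2S Pool.PB Pool.S6C

variable {m : ℕ}

/-- The property: there is a closed function with at most `exp (-(s J))` values of `f` in each
cell. -/
def qRec {α β : ∀ J : ℕ, Fam m J → Type} (f : ∀ (J : ℕ) (F : Fam m J), F.Ω → α J F)
    (g : ∀ (J : ℕ) (F : Fam m J), F.Ω → β J F) (s : ℝ) : Stat m := fun J F A =>
  ∃ (V : Type) (z : F.Ω → V), Cl2 (f J F) (g J F) A z ∧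
    ∀ v, (cnt F.p (f J F) (fun ω => A ω ∧ z ω = v) : ℝ) ≤ Real.exp (-(s * J))

theorem qRec.hered {α β : ∀ J : ℕ, Fam m J → Type} (f : ∀ (J : ℕ) (F : Fam m J), F.Ω → α J F)
    (g : ∀ (J : ℕ) (F : Fam m J), F.Ω → β J F) (s : ℝ) (J : ℕ) (F : Fam m J) :
    Hered (qRec f g s J F) := by
  rintro A B hB ⟨V, z, h1, h2⟩
  refine ⟨V, z, h1.sub hB, fun v => le_trans ?_ (h2 v)⟩
  have h3 : Sub (fun ω => B ω ∧ z ω = v) (fun ω => A ω ∧ z ω = v) :=
    fun ω hω => ⟨hB ω hω.1, hω.2⟩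
  exact_mod_cast cnt_mono F.p (f J F) h3

theorem qRec.anti {α β : ∀ J : ℕ, Fam m J → Type} (f : ∀ (J : ℕ) (F : Fam m J), F.Ω → α J F)
    (g : ∀ (J : ℕ) (F : Fam m J), F.Ω → β J F) (s s' : ℝ) (J : ℕ) (F : Fam m J) (A : F.Ω → Prop)
    (h : s' ≤ s) (hA : qRec f g s J F A) : qRec f g s' J F A := by
  obtain ⟨V, z, h1, h2⟩ := hA
  refine ⟨V, z, h1, fun v => (h2 v).trans (Real.exp_le_exp.2 ?_)⟩
  have := mul_le_mul_of_nonneg_right h (Nat.cast_nonneg (α := ℝ) J)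
  linarith

theorem qRec.lo {α β : ∀ J : ℕ, Fam m J → Type} (f : ∀ (J : ℕ) (F : Fam m J), F.Ω → α J F)
    (g : ∀ (J : ℕ) (F : Fam m J), F.Ω → β J F) {S : PCl m} {M : ℝ}
    (hM : Bas S (fun J F A => (cnt F.p (f J F) A : ℝ) ≤ Real.exp (M * J))) :
    Bas S (qRec f g (-M)) := by
  refine Bas.mono 0 hM fun J _ F A hA => ⟨Unit, fun _ => (), ⟨⟨fun _ => (), fun _ _ => rfl⟩,
    fun _ => (), fun _ _ => rfl⟩, fun v => ?_⟩
  have h1 : (cnt F.p (f J F) (fun ω => A ω ∧ () = v) : ℝ) ≤ cnt F.p (f J F) A := by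
    have h3 : Sub (fun ω => A ω ∧ () = v) A := fun ω hω => hω.1
    exact_mod_cast cnt_mono F.p (f J F) h3
  refine h1.trans (hA.trans (Real.exp_le_exp.2 (le_of_eq (by ring))))

theorem qRec.up {α β : ∀ J : ℕ, Fam m J → Type} (f : ∀ (J : ℕ) (F : Fam m J), F.Ω → α J F)
    (g : ∀ (J : ℕ) (F : Fam m J), F.Ω → β J F) {J : ℕ} (hJ : 1 ≤ J) {F : Fam m J}
    {A : F.Ω → Prop} (hA : 0 < Pe F.p A) : ¬ qRec f g 1 J F A := by
  rintro ⟨V, z, -, h2⟩
  have h0 : cset F.p (f J F) A ≠ ∅ := by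
    intro h
    have h1 := one_le_cnt F.isLaw (f J F) hA
    rw [← cset_card, h, card_empty] at h1
    omega
  obtain ⟨y, hy⟩ := Finset.nonempty_iff_ne_empty.2 h0
  obtain ⟨ω, h1, h3, -⟩ := of_mem_cset hy
  have h4 := h2 (z ω)
  have h5 : (1 : ℝ) ≤ cnt F.p (f J F) (fun ω' => A ω' ∧ z ω' = z ω) := by
    rw [← cset_card]
    have : 0 < (cset F.p (f J F) fun ω' => A ω' ∧ z ω' = z ω).card :=
      card_pos.2 ⟨f J F ω, mem_cset (f J F) h1 ⟨h3, rfl⟩⟩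
    exact_mod_cast this
  have h6 : Real.exp (-(1 * (J : ℝ))) < 1 := by
    rw [Real.exp_lt_one_iff]
    have : (1 : ℝ) ≤ J := by exact_mod_cast hJ
    linarith
  linarith

/-- **The number of a pair**: `η J` is the entropy of `f` given the best closed function. -/
structure RNum (S : PCl m) {α β : ∀ J : ℕ, Fam m J → Type}
    (f : ∀ (J : ℕ) (F : Fam m J), F.Ω → α J F) (g : ∀ (J : ℕ) (F : Fam m J), F.Ω → β J F)
    (η : ℝ) : Prop where
  at' : ∀ h : ℝ, 0 < h → Bas S (qRec f g (-η - h))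
  no : ∀ h : ℝ, 0 < h → Bas S (fun J F A => ¬ qRec f g (-η + h) J F A)

theorem RNum.sub {S S' : PCl m} (hs : ∀ (τ : ℝ) (J : ℕ) (F : Fam m J) (A : F.Ω → Prop),
    S'.St τ J F A → S.St τ J F A) {α β : ∀ J : ℕ, Fam m J → Type}
    {f : ∀ (J : ℕ) (F : Fam m J), F.Ω → α J F} {g : ∀ (J : ℕ) (F : Fam m J), F.Ω → β J F}
    {η : ℝ} (h : RNum S f g η) : RNum S' f g η :=
  ⟨fun e he => (h.at' e he).sub hs, fun e he => (h.no e he).sub hs⟩

/-- **Numbers of countably many pairs.** -/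
theorem ext_rec {S : PCl m} (hS : S.Ne)
    (hpos : ∀ (τ : ℝ) (J : ℕ) (F : Fam m J) (A : F.Ω → Prop), S.St τ J F A → 0 < Pe F.p A)
    (α β : ℕ → ∀ J : ℕ, Fam m J → Type) (f : ∀ (i J : ℕ) (F : Fam m J), F.Ω → α i J F)
    (g : ∀ (i J : ℕ) (F : Fam m J), F.Ω → β i J F) (M : ℕ → ℝ)
    (hM : ∀ i, Bas S (fun J F A => (cnt F.p (f i J F) A : ℝ) ≤ Real.exp (M i * J))) :
    ∃ S' : PCl m, S'.Ne ∧
      (∀ (τ : ℝ) (J : ℕ) (F : Fam m J) (A : F.Ω → Prop), S'.St τ J F A → S.St τ J F A) ∧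
      ∀ i, ∃ η : ℝ, RNum S' (f i) (g i) η := by
  have hlo : ∀ i, Bas S (qRec (f i) (g i) (-M i)) := fun i => qRec.lo _ _ (hM i)
  obtain ⟨S', h1, h2, -, h4⟩ := hS.diag
    (fun n S₁ P => ∃ s : ℝ, PNum (S₁.sl P) (qRec (f n) (g n)) s ∧
      P.P = (fun τ J F A => qRec (f n) (g n) (s - τ) J F A ∨ s - τ ≤ -M n)) (by
    intro n S₁ hle hn
    obtain ⟨s, -, -, P, hP, hs, hPe⟩ := hn.num (qRec (f n) (g n))
      (fun s J F => qRec.hered _ _ s J F)
      (fun s s' J F A h hA => qRec.anti _ _ s s' J F A h hA)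
      (a := -M n) (b := 1) ((hlo n).clp.le hle)
      ((Clp.of one_pos 1 fun J hJ F A hA => qRec.up _ _ hJ (hpos 1 J F A hA) :
        Clp S (fun J F A => ¬ qRec (f n) (g n) 1 J F A)).le hle)
    exact ⟨P, ⟨s, hs, hPe⟩, hP⟩)
  refine ⟨S', h1, h2, fun i => ?_⟩
  obtain ⟨S₁, P, ⟨s, hs, hPe⟩, -, -, hle, hall⟩ := h4 i
  refine ⟨-s, ⟨fun h hh => ?_, fun h hh => ?_⟩⟩
  · obtain ⟨τ₀, hτ₀, J₀, hb⟩ := (hlo i).sub h2
    have hi : (0 : ℝ) < (i : ℝ) + 1 := by positivity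
    refine ⟨min τ₀ (min h (1 / ((i : ℝ) + 1))), lt_min hτ₀ (lt_min hh (by positivity)), J₀,
      fun J hJ F A hA => ?_⟩
    have k1 : min τ₀ (min h (1 / ((i : ℝ) + 1))) ≤ h := (min_le_right _ _).trans (min_le_left _ _)
    have k2 : min τ₀ (min h (1 / ((i : ℝ) + 1))) ≤ 1 / ((i : ℝ) + 1) :=
      (min_le_right _ _).trans (min_le_right _ _)
    have k3 : ((i : ℝ) + 1) * min τ₀ (min h (1 / ((i : ℝ) + 1))) ≤ 1 := by
      rw [le_div_iff₀ hi] at k2
      linarith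
    have k4 := (hall _ J F A k3 hA).2
    rw [hPe] at k4
    rcases k4 with k4 | k4
    · exact qRec.anti _ _ _ _ J F A (by linarith) k4
    · exact qRec.anti _ _ _ _ J F A (by linarith) (hb J hJ F A (S'.mono (min_le_left _ _) hA))
  · have := Bas.neg (fun J F => qRec.hered (f i) (g i) (s + h) J F) ((hs.le hle).2 h hh)
    have e : -(-s) + h = s + h := by ring
    rw [e]
    exact this

/-- The entropy of `f` given any closed function is at least the number. -/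
theorem RNum.low {S : PCl m} (hpos : ∀ (τ : ℝ) (J : ℕ) (F : Fam m J) (A : F.Ω → Prop),
      S.St τ J F A → 0 < Pe F.p A) {α β : ∀ J : ℕ, Fam m J → Type}
    {f : ∀ (J : ℕ) (F : Fam m J), F.Ω → α J F} {g : ∀ (J : ℕ) (F : Fam m J), F.Ω → β J F}
    {η : ℝ} (hη : RNum S f g η) (h : ℝ) (hh : 0 < h) :
    Bas S (fun J F A => ∀ (V : Type) (z : F.Ω → V), Cl2 (f J F) (g J F) A z →
      (η - h) * J ≤ CH (Pool.Agent.H49.Ent.cond F.p A True) (f J F) z) := by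
  obtain ⟨c, hc, J₂, hn⟩ := hη.no (h / 2) (half_pos hh)
  obtain ⟨κ, hκe⟩ : ∃ κ, κ = c / 2 := ⟨_, rfl⟩
  have hκ : 0 < κ := by rw [hκe]; linarith
  obtain ⟨C, hC⟩ : ∃ C, C = max 1 (2 * |η| / h) := ⟨_, rfl⟩
  have hC1 : 1 ≤ C := by rw [hC]; exact le_max_left _ _
  have hC2 : 2 * |η| / h ≤ C := by rw [hC]; exact le_max_right _ _
  obtain ⟨J₁, hJ₁⟩ := exp_small' hκ hC1
  refine ⟨κ, hκ, max J₁ J₂, fun J hJ F A hSt V z hz => ?_⟩
  have hA := hpos κ J F A hSt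
  have hJ0 : (0 : ℝ) ≤ J := Nat.cast_nonneg J
  have hcl := isLaw_cond F.isLaw hA
  by_cases hneg : η - h / 2 ≤ 0
  · refine le_trans ?_ (CH_nonneg hcl.nonneg _ _)
    exact mul_nonpos_of_nonpos_of_nonneg (by linarith) hJ0
  push Not at hneg
  obtain ⟨M, hM⟩ : ∃ M, M = Real.exp (-((-η + h / 2) * J)) := ⟨_, rfl⟩
  have hM1 : 1 ≤ M := by
    rw [hM, Real.one_le_exp_iff]
    have : 0 ≤ (η - h / 2) * J := mul_nonneg hneg.le hJ0
    linarith
  have key := CH_ge_cells F.isLaw (f J F) z hA (κ := κ * J) hM1 (by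
    intro B hB hP
    have hSB : S.St c J F B := S.mono (by linarith) (S.res hκ.le hSt hB hP)
    have h3 := hn J ((le_max_right _ _).trans hJ) F B hSB
    by_contra hcon
    push Not at hcon
    refine h3 ⟨V, z, hz.sub hB, fun v => ?_⟩
    rw [← hM]
    exact hcon v)
  refine le_trans ?_ key
  have hlM : Real.log M = (η - h / 2) * J := by
    rw [hM, Real.log_exp]
    ring
  rw [hlM]
  have e1 := hJ₁ J ((le_max_left _ _).trans hJ)
  have hC0 : 0 < C := by linarith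
  have e2 : Real.exp (-(κ * J)) * ((η - h / 2) * J) ≤ 1 / C * ((η - h / 2) * J) :=
    mul_le_mul_of_nonneg_right e1 (mul_nonneg hneg.le hJ0)
  have e3 : 1 / C * ((η - h / 2) * J) ≤ h / 2 * J := by
    have a1 : η - h / 2 ≤ |η| := by
      have := le_abs_self η
      linarith
    have a2 : |η| ≤ h / 2 * C := by
      rw [div_le_iff₀ hh] at hC2
      linarith
    have a3 : 1 / C * (η - h / 2) ≤ h / 2 := by
      rw [one_div, inv_mul_le_iff₀ hC0]
      linarith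
    calc 1 / C * ((η - h / 2) * J) = 1 / C * (η - h / 2) * J := by ring
      _ ≤ h / 2 * J := mul_le_mul_of_nonneg_right a3 hJ0
  nlinarith

/-- On all large events: a closed function with small cells determines every closed function. -/
theorem RNum.max {S : PCl m} (hpos : ∀ (τ : ℝ) (J : ℕ) (F : Fam m J) (A : F.Ω → Prop),
      S.St τ J F A → 0 < Pe F.p A) {α β : ∀ J : ℕ, Fam m J → Type}
    {f : ∀ (J : ℕ) (F : Fam m J), F.Ω → α J F} {g : ∀ (J : ℕ) (F : Fam m J), F.Ω → β J F}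
    {η : ℝ} (hη : RNum S f g η) (h : ℝ) (hh : 0 < h) : ∃ κ : ℝ, 0 < κ ∧
    Bas S (fun J F A => ∀ (V : Type) (z : F.Ω → V), Cl2 (f J F) (g J F) A z →
      (∀ v, (cnt F.p (f J F) (fun ω => A ω ∧ z ω = v) : ℝ) ≤ Real.exp (-((-η - h / 2) * J))) →
      ∀ B : F.Ω → Prop, Sub B A → Real.exp (-(κ * J)) * Pe F.p A ≤ Pe F.p B →
        0 < Pe F.p B ∧ CH (Pool.Agent.H49.Ent.cond F.p B True) (f J F) z ≤ (η + h / 2) * J ∧
        ∀ (V' : Type) (z' : F.Ω → V'), Cl2 (f J F) (g J F) B z' →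
          (η - h / 2) * J ≤ CH (Pool.Agent.H49.Ent.cond F.p B True) (f J F) z' ∧
          CH (Pool.Agent.H49.Ent.cond F.p B True) z' z ≤ h * J) := by
  obtain ⟨c, hc, J₂, hn⟩ := hη.low hpos (h / 2) (half_pos hh)
  refine ⟨c / 2, half_pos hc, c / 2, half_pos hc, J₂, fun J hJ F A hSt V z hz hv B hB hP => ?_⟩
  have hSB : S.St c J F B := S.mono (by linarith) (S.res (half_pos hc).le hSt hB hP)
  have hBp := hpos c J F B hSB
  have h1 : CH (Pool.Agent.H49.Ent.cond F.p B True) (f J F) z ≤ (η + h / 2) * J := by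
    have h2 := CH_le_cells F.isLaw (f J F) z hBp (M := Real.exp (-((-η - h / 2) * J))) (by
      intro v
      refine le_trans ?_ (hv v)
      have h3 : Sub (fun ω => B ω ∧ z ω = v) (fun ω => A ω ∧ z ω = v) :=
        fun ω hω => ⟨hB ω hω.1, hω.2⟩
      exact_mod_cast cnt_mono F.p (f J F) h3)
    rw [Real.log_exp] at h2
    linarith
  refine ⟨hBp, h1, fun V' z' hz' => ⟨hn J hJ F B hSB V' z' hz', ?_⟩⟩
  have h3 := hn J hJ F B hSB _ _ ((hz.sub hB).join hz')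
  have h4 := CH_split F.isLaw (z := z) hBp hz'.1
  rw [h4]
  linarith

/-! ### Records -/

/-- The event `B` is a large part of `A`. -/
def Lg {J : ℕ} (F : Fam m J) (κ : ℝ) (A B : F.Ω → Prop) : Prop :=
  Sub B A ∧ Real.exp (-(κ * J)) * Pe F.p A ≤ Pe F.p B

theorem Lg.refl {J : ℕ} (F : Fam m J) {κ : ℝ} (hκ : 0 ≤ κ) (A : F.Ω → Prop) : Lg F κ A A := by
  refine ⟨fun _ h => h, ?_⟩
  have : Real.exp (-(κ * J)) ≤ 1 := by
    rw [Real.exp_le_one_iff]
    have : 0 ≤ κ * (J : ℝ) := by positivity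
    linarith
  calc _ ≤ 1 * Pe F.p A := mul_le_mul_of_nonneg_right this (Pe_nonneg F.isLaw A)
    _ = _ := one_mul _

/-- **Records** for the pairs `(f i, g i)`, ordered by `le`: closed functions, exactly nested,
maximal on all large events, up to `h J`. -/
structure Rcd {ι : Type} (le : ι → ι → Prop) {α β : ι → ∀ J : ℕ, Fam m J → Type}
    (f : ∀ (i : ι) (J : ℕ) (F : Fam m J), F.Ω → α i J F)
    (g : ∀ (i : ι) (J : ℕ) (F : Fam m J), F.Ω → β i J F) (η : ι → ℝ) (h κ : ℝ) {J : ℕ}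
    (F : Fam m J) (A : F.Ω → Prop) {V : ι → Type} (z : ∀ i, F.Ω → V i) : Prop where
  cl : ∀ i, Cl2 (f i J F) (g i J F) A (z i)
  nest : ∀ i j, le i j → ∃ φ : V j → V i, ∀ ω, z i ω = φ (z j ω)
  pos : ∀ B, Lg F κ A B → 0 < Pe F.p B
  up : ∀ B, Lg F κ A B → ∀ i,
    CH (Pool.Agent.H49.Ent.cond F.p B True) (f i J F) (z i) ≤ (η i + h) * J
  low : ∀ B, Lg F κ A B → ∀ (i : ι) (V' : Type) (z' : F.Ω → V'), Cl2 (f i J F) (g i J F) B z' →
    (η i - h) * J ≤ CH (Pool.Agent.H49.Ent.cond F.p B True) (f i J F) z'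
  max : ∀ B, Lg F κ A B → ∀ (i : ι) (V' : Type) (z' : F.Ω → V'), Cl2 (f i J F) (g i J F) B z' →
    CH (Pool.Agent.H49.Ent.cond F.p B True) z' (z i) ≤ h * J

/-- Finitely many base statements. -/
theorem Bas.fin' {S : PCl m} {ι : Type} [Finite ι] {Φ : ι → Stat m} (h : ∀ i, Bas S (Φ i)) :
    Bas S (fun J F A => ∀ i, Φ i J F A) := by
  obtain ⟨n, ⟨e⟩⟩ := Finite.exists_equiv_fin ι
  refine Bas.mono 0 (Bas.all n (Φ := fun i J F A => ∀ hi : i < n, Φ (e.symm ⟨i, hi⟩) J F A)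
    fun i hi => Bas.mono 0 (h (e.symm ⟨i, hi⟩)) fun _ _ _ _ h1 _ => h1) ?_
  intro J _ F A h1 i
  have := h1 (e i) (e i).2 (e i).2
  simpa using this

/-- **Existence of records.** -/
theorem records {ι : Type} [Finite ι] {S : PCl m}
    (hpos : ∀ (τ : ℝ) (J : ℕ) (F : Fam m J) (A : F.Ω → Prop), S.St τ J F A → 0 < Pe F.p A)
    {le : ι → ι → Prop} (hrf : ∀ i, le i i) (htr : ∀ i j k, le i j → le j k → le i k)
    {α β : ι → ∀ J : ℕ, Fam m J → Type}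
    {f : ∀ (i : ι) (J : ℕ) (F : Fam m J), F.Ω → α i J F}
    {g : ∀ (i : ι) (J : ℕ) (F : Fam m J), F.Ω → β i J F}
    (hf : ∀ i j, le i j → ∀ (J : ℕ) (F : Fam m J), ∃ φ : α j J F → α i J F,
      ∀ ω, f i J F ω = φ (f j J F ω))
    (hg : ∀ i j, le i j → ∀ (J : ℕ) (F : Fam m J), ∃ φ : β j J F → β i J F,
      ∀ ω, g i J F ω = φ (g j J F ω))
    {η : ι → ℝ} (hη : ∀ i, RNum S (f i) (g i) (η i)) (h : ℝ) (hh : 0 < h) : ∃ κ : ℝ, 0 < κ ∧
    Bas S (fun _ F A => ∃ (V : ι → Type) (z : ∀ i, F.Ω → V i), Rcd le f g η h κ F A z) := by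
  choose κ hκ hm using fun i => (hη i).max hpos h hh
  obtain ⟨κ₀, hκ₀, hle⟩ : ∃ κ₀ : ℝ, 0 < κ₀ ∧ ∀ i, κ₀ ≤ κ i := by
    cases nonempty_fintype ι
    rcases isEmpty_or_nonempty ι with hE | hN
    · exact ⟨1, one_pos, fun i => (hE.false i).elim⟩
    · refine ⟨Finset.univ.inf' Finset.univ_nonempty κ, ?_, fun i => Finset.inf'_le _ (mem_univ i)⟩
      rw [Finset.lt_inf'_iff]
      exact fun i _ => hκ i
  refine ⟨κ₀, hκ₀, ?_⟩
  have hpc : Bas S (fun _ F A => 0 < Pe F.p A) := ⟨1, one_pos, 0, fun J _ F A hA =>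
    hpos 1 J F A hA⟩
  refine Bas.mono 0 (((Bas.fin' hm).and (Bas.fin' fun i => (hη i).at' (h / 2)
    (half_pos hh))).and hpc) ?_
  rintro J - F A ⟨⟨h1, h2⟩, hA⟩
  choose V z hz hc using h2
  have hJ0 : (0 : ℝ) ≤ J := Nat.cast_nonneg J
  have hlg : ∀ B, Lg F κ₀ A B → ∀ i, Real.exp (-(κ i * J)) * Pe F.p A ≤ Pe F.p B := by
    intro B hB i
    refine le_trans (mul_le_mul_of_nonneg_right (Real.exp_le_exp.2 ?_) (Pe_nonneg F.isLaw A)) hB.2
    have := mul_le_mul_of_nonneg_right (hle i) hJ0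
    linarith
  -- the joins
  obtain ⟨Z, hZ⟩ : ∃ Z : ∀ i, F.Ω → (∀ j : {j // le j i}, V j),
      Z = fun (i : ι) (ω : F.Ω) (j : {j // le j i}) => z j.1 ω := ⟨_, rfl⟩
  have hdet : ∀ i, ∃ φ : (∀ j : {j // le j i}, V j) → V i, ∀ ω, z i ω = φ (Z i ω) := fun i =>
    ⟨fun v => v ⟨i, hrf i⟩, fun ω => by rw [hZ]⟩
  have hmono : ∀ (B : F.Ω → Prop), 0 < Pe F.p B → ∀ (i : ι) (U : Type) (y : F.Ω → U),
      CH (Pool.Agent.H49.Ent.cond F.p B True) y (Z i) ≤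
        CH (Pool.Agent.H49.Ent.cond F.p B True) y (z i) := by
    intro B hB i U y
    obtain ⟨φ, hφ⟩ := hdet i
    refine CH_mono_cond (isLaw_cond F.isLaw hB).nonneg fun ω ω' _ _ hh => ?_
    rw [hφ ω, hφ ω', hh]
  refine ⟨fun i => ∀ j : {j // le j i}, V j, Z, ⟨fun i => ?_, fun i j hij => ?_, fun B hB => ?_,
    fun B hB i => ?_, fun B hB i V' z' hz' => ?_, fun B hB i V' z' hz' => ?_⟩⟩
  · rw [hZ]
    refine Cl2.pi fun j => ?_
    obtain ⟨φ, hφ⟩ := hf j i j.2 J F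
    obtain ⟨ψ, hψ⟩ := hg j i j.2 J F
    exact (hz j).mono ⟨φ, fun ω _ => hφ ω⟩ ⟨ψ, fun ω _ => hψ ω⟩
  · refine ⟨fun v k => v ⟨k.1, htr k.1 i j k.2 hij⟩, fun ω => ?_⟩
    rw [hZ]
  · exact lt_of_lt_of_le (mul_pos (Real.exp_pos _) hA) hB.2
  · have h3 := h1 i (V i) (z i) (hz i) (hc i) B hB.1 (hlg B hB i)
    refine (hmono B h3.1 i _ _).trans (h3.2.1.trans ?_)
    exact mul_le_mul_of_nonneg_right (by linarith) hJ0
  · have h3 := h1 i (V i) (z i) (hz i) (hc i) B hB.1 (hlg B hB i)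
    refine le_trans ?_ (h3.2.2 V' z' hz').1
    exact mul_le_mul_of_nonneg_right (by linarith) hJ0
  · have h3 := h1 i (V i) (z i) (hz i) (hc i) B hB.1 (hlg B hB i)
    exact (hmono B h3.1 i _ _).trans (h3.2.2 V' z' hz').2

end Pool.RCD
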