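import Pool.Agent.H92.GN.Tel

/-!
# Conditional entropies given records are numbers of a class

For countably many `(f, g, u, y)` there is a nonempty subclass in which the entropy of `u` given
`y` and the best closed function for `(f, g)` is a number `θ` (`ext_cnd`), on all events of small
defect. For the records `z` of `(f, g)` it is the entropy of `u` given `(z, y)`
(`records_num`).
-/

set_option autoImplicit false

namespace Pool.RCD

open Finset Real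
open Pool.Agent.H49.Ent Pool.Agent.H32.Dense Pool.STK Pool.KA Pool.KSAT Pool.K2S Pool.PB Pool.S6C
  Pool.GEN

variable {m : ℕ}

/-- The property: there is a closed function such that `u` has at most `exp (-(s J))` values in
each cell of this function and of `y`. -/
def qCnd {α β υ γ : ∀ J : ℕ, Fam m J → Type} (f : ∀ (J : ℕ) (F : Fam m J), F.Ω → α J F)
    (g : ∀ (J : ℕ) (F : Fam m J), F.Ω → β J F) (u : ∀ (J : ℕ) (F : Fam m J), F.Ω → υ J F)
    (y : ∀ (J : ℕ) (F : Fam m J), F.Ω → γ J F) (s : ℝ) : Stat m := fun J F A =>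
  ∃ (V : Type) (z : F.Ω → V), Cl2 (f J F) (g J F) A z ∧
    ∀ v, (cnt F.p (u J F) (fun ω => A ω ∧ (z ω, y J F ω) = v) : ℝ) ≤ Real.exp (-(s * J))

section one

variable {α β υ γ : ∀ J : ℕ, Fam m J → Type} (f : ∀ (J : ℕ) (F : Fam m J), F.Ω → α J F)
    (g : ∀ (J : ℕ) (F : Fam m J), F.Ω → β J F) (u : ∀ (J : ℕ) (F : Fam m J), F.Ω → υ J F)
    (y : ∀ (J : ℕ) (F : Fam m J), F.Ω → γ J F)

theorem qCnd.hered (s : ℝ) (J : ℕ) (F : Fam m J) : Hered (qCnd f g u y s J F) := by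
  rintro A B hB ⟨V, z, h1, h2⟩
  refine ⟨V, z, h1.sub hB, fun v => le_trans ?_ (h2 v)⟩
  have h3 : Sub (fun ω => B ω ∧ (z ω, y J F ω) = v) (fun ω => A ω ∧ (z ω, y J F ω) = v) :=
    fun ω hω => ⟨hB ω hω.1, hω.2⟩
  exact_mod_cast cnt_mono F.p (u J F) h3

theorem qCnd.anti (s s' : ℝ) (J : ℕ) (F : Fam m J) (A : F.Ω → Prop)
    (h : s' ≤ s) (hA : qCnd f g u y s J F A) : qCnd f g u y s' J F A := by
  obtain ⟨V, z, h1, h2⟩ := hA
  refine ⟨V, z, h1, fun v => (h2 v).trans (Real.exp_le_exp.2 ?_)⟩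
  have := mul_le_mul_of_nonneg_right h (Nat.cast_nonneg (α := ℝ) J)
  linarith

theorem qCnd.lo {S : PCl m} {M : ℝ}
    (hM : Bas S (fun J F A => (cnt F.p (u J F) A : ℝ) ≤ Real.exp (M * J))) :
    Bas S (qCnd f g u y (-M)) := by
  refine Bas.mono 0 hM fun J _ F A hA => ⟨Unit, fun _ => (), ⟨⟨fun _ => (), fun _ _ => rfl⟩,
    fun _ => (), fun _ _ => rfl⟩, fun v => ?_⟩
  have h1 : (cnt F.p (u J F) (fun ω => A ω ∧ ((), y J F ω) = v) : ℝ) ≤ cnt F.p (u J F) A := by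
    have h3 : Sub (fun ω => A ω ∧ ((), y J F ω) = v) A := fun ω hω => hω.1
    exact_mod_cast cnt_mono F.p (u J F) h3
  refine h1.trans (hA.trans (Real.exp_le_exp.2 (le_of_eq (by ring))))

theorem qCnd.up {J : ℕ} (hJ : 1 ≤ J) {F : Fam m J}
    {A : F.Ω → Prop} (hA : 0 < Pe F.p A) : ¬ qCnd f g u y 1 J F A := by
  rintro ⟨V, z, -, h2⟩
  have h0 : cset F.p (u J F) A ≠ ∅ := by
    intro h
    have h1 := one_le_cnt F.isLaw (u J F) hA
    rw [← cset_card, h, card_empty] at h1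
    omega
  obtain ⟨x, hx⟩ := Finset.nonempty_iff_ne_empty.2 h0
  obtain ⟨ω, h1, h3, -⟩ := of_mem_cset hx
  have h4 := h2 (z ω, y J F ω)
  have h5 : (1 : ℝ) ≤ cnt F.p (u J F) (fun ω' => A ω' ∧ (z ω', y J F ω') = (z ω, y J F ω)) := by
    rw [← cset_card]
    have : 0 < (cset F.p (u J F) fun ω' => A ω' ∧ (z ω', y J F ω') = (z ω, y J F ω)).card :=
      card_pos.2 ⟨u J F ω, mem_cset (u J F) h1 ⟨h3, rfl⟩⟩
    exact_mod_cast this
  have h6 : Real.exp (-(1 * (J : ℝ))) < 1 := by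
    rw [Real.exp_lt_one_iff]
    have : (1 : ℝ) ≤ J := by exact_mod_cast hJ
    linarith
  linarith

end one

/-- **The number of `(f, g, u, y)`**: `θ J` is the entropy of `u` given `y` and the best closed
function. -/
structure CNum (S : PCl m) {α β υ γ : ∀ J : ℕ, Fam m J → Type}
    (f : ∀ (J : ℕ) (F : Fam m J), F.Ω → α J F) (g : ∀ (J : ℕ) (F : Fam m J), F.Ω → β J F)
    (u : ∀ (J : ℕ) (F : Fam m J), F.Ω → υ J F) (y : ∀ (J : ℕ) (F : Fam m J), F.Ω → γ J F)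
    (θ : ℝ) : Prop where
  at' : ∀ h : ℝ, 0 < h → Bas S (qCnd f g u y (-θ - h))
  no : ∀ h : ℝ, 0 < h → Bas S (fun J F A => ¬ qCnd f g u y (-θ + h) J F A)

theorem CNum.sub {S S' : PCl m} (hs : ∀ (τ : ℝ) (J : ℕ) (F : Fam m J) (A : F.Ω → Prop),
    S'.St τ J F A → S.St τ J F A) {α β υ γ : ∀ J : ℕ, Fam m J → Type}
    {f : ∀ (J : ℕ) (F : Fam m J), F.Ω → α J F} {g : ∀ (J : ℕ) (F : Fam m J), F.Ω → β J F}
    {u : ∀ (J : ℕ) (F : Fam m J), F.Ω → υ J F} {y : ∀ (J : ℕ) (F : Fam m J), F.Ω → γ J F}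
    {θ : ℝ} (h : CNum S f g u y θ) : CNum S' f g u y θ :=
  ⟨fun e he => (h.at' e he).sub hs, fun e he => (h.no e he).sub hs⟩

/-- **Numbers of countably many quadruples.** -/
theorem ext_cnd {S : PCl m} (hS : S.Ne)
    (hpos : ∀ (τ : ℝ) (J : ℕ) (F : Fam m J) (A : F.Ω → Prop), S.St τ J F A → 0 < Pe F.p A)
    (α β υ γ : ℕ → ∀ J : ℕ, Fam m J → Type) (f : ∀ (i J : ℕ) (F : Fam m J), F.Ω → α i J F)
    (g : ∀ (i J : ℕ) (F : Fam m J), F.Ω → β i J F)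
    (u : ∀ (i J : ℕ) (F : Fam m J), F.Ω → υ i J F)
    (y : ∀ (i J : ℕ) (F : Fam m J), F.Ω → γ i J F) (M : ℕ → ℝ)
    (hM : ∀ i, Bas S (fun J F A => (cnt F.p (u i J F) A : ℝ) ≤ Real.exp (M i * J))) :
    ∃ S' : PCl m, S'.Ne ∧
      (∀ (τ : ℝ) (J : ℕ) (F : Fam m J) (A : F.Ω → Prop), S'.St τ J F A → S.St τ J F A) ∧
      ∀ i, ∃ θ : ℝ, CNum S' (f i) (g i) (u i) (y i) θ := by
  have hlo : ∀ i, Bas S (qCnd (f i) (g i) (u i) (y i) (-M i)) := fun i => qCnd.lo _ _ _ _ (hM i)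
  obtain ⟨S', h1, h2, -, h4⟩ := hS.diag
    (fun n S₁ P => ∃ s : ℝ, PNum (S₁.sl P) (qCnd (f n) (g n) (u n) (y n)) s ∧
      P.P = (fun τ J F A => qCnd (f n) (g n) (u n) (y n) (s - τ) J F A ∨ s - τ ≤ -M n)) (by
    intro n S₁ hle hn
    obtain ⟨s, -, -, P, hP, hs, hPe⟩ := hn.num (qCnd (f n) (g n) (u n) (y n))
      (fun s J F => qCnd.hered _ _ _ _ s J F)
      (fun s s' J F A h hA => qCnd.anti _ _ _ _ s s' J F A h hA)
      (a := -M n) (b := 1) ((hlo n).clp.le hle)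
      ((Clp.of one_pos 1 fun J hJ F A hA => qCnd.up _ _ _ _ hJ (hpos 1 J F A hA) :
        Clp S (fun J F A => ¬ qCnd (f n) (g n) (u n) (y n) 1 J F A)).le hle)
    exact ⟨P, ⟨s, hs, hPe⟩, hP⟩)
  refine ⟨S', h1, h2, fun i => ?_⟩
  obtain ⟨S₁, P, ⟨s, hs, hPe⟩, -, -, hle, hall⟩ := h4 i
  refine ⟨-s, ⟨fun h hh => ?_, fun h hh => ?_⟩⟩
  · obtain ⟨τ₀, hτ₀, J₀, hb⟩ := (hlo i).sub h2
    have hi : (0 : ℝ) < (i : ℝ) + 1 := by positivity
    refine ⟨min τ₀ (min h (1 / ((i : ℝ) + 1))), lt_min hτ₀ (lt_min hh (by positivity)), J₀,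
      fun J hJ F A hA => ?_⟩
    have k1 : min τ₀ (min h (1 / ((i : ℝ) + 1))) ≤ h := (min_le_right _ _).trans (min_le_left _ _)
    have k2 : min τ₀ (min h (1 / ((i : ℝ) + 1))) ≤ 1 / ((i : ℝ) + 1) :=
      (min_le_right _ _).trans (min_le_right _ _)
    have k3 : ((i : ℝ) + 1) * min τ₀ (min h (1 / ((i : ℝ) + 1))) ≤ 1 := by
      rw [le_div_iff₀ hi] at k2
      linarith
    have k4 := (hall _ J F A k3 hA).2
    rw [hPe] at k4
    rcases k4 with k4 | k4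
    · exact qCnd.anti _ _ _ _ _ _ J F A (by linarith) k4
    · exact qCnd.anti _ _ _ _ _ _ J F A (by linarith)
        (hb J hJ F A (S'.mono (min_le_left _ _) hA))
  · have := Bas.neg (fun J F => qCnd.hered (f i) (g i) (u i) (y i) (s + h) J F)
      ((hs.le hle).2 h hh)
    have e : -(-s) + h = s + h := by ring
    rw [e]
    exact this

/-- The entropy of `u` given `y` and any closed function is at least the number. -/
theorem CNum.low {S : PCl m} (hpos : ∀ (τ : ℝ) (J : ℕ) (F : Fam m J) (A : F.Ω → Prop),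
      S.St τ J F A → 0 < Pe F.p A) {α β υ γ : ∀ J : ℕ, Fam m J → Type}
    {f : ∀ (J : ℕ) (F : Fam m J), F.Ω → α J F} {g : ∀ (J : ℕ) (F : Fam m J), F.Ω → β J F}
    {u : ∀ (J : ℕ) (F : Fam m J), F.Ω → υ J F} {y : ∀ (J : ℕ) (F : Fam m J), F.Ω → γ J F}
    {θ : ℝ} (hθ : CNum S f g u y θ) (h : ℝ) (hh : 0 < h) :
    Bas S (fun J F A => ∀ (V : Type) (z : F.Ω → V), Cl2 (f J F) (g J F) A z →
      (θ - h) * J ≤ CH (Pool.Agent.H49.Ent.cond F.p A True) (u J F)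
        (fun ω => (z ω, y J F ω))) := by
  obtain ⟨c, hc, J₂, hn⟩ := hθ.no (h / 2) (half_pos hh)
  obtain ⟨κ, hκe⟩ : ∃ κ, κ = c / 2 := ⟨_, rfl⟩
  have hκ : 0 < κ := by rw [hκe]; linarith
  obtain ⟨C, hC⟩ : ∃ C, C = max 1 (2 * |θ| / h) := ⟨_, rfl⟩
  have hC1 : 1 ≤ C := by rw [hC]; exact le_max_left _ _
  have hC2 : 2 * |θ| / h ≤ C := by rw [hC]; exact le_max_right _ _
  obtain ⟨J₁, hJ₁⟩ := exp_small' hκ hC1
  refine ⟨κ, hκ, max J₁ J₂, fun J hJ F A hSt V z hz => ?_⟩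
  have hA := hpos κ J F A hSt
  have hJ0 : (0 : ℝ) ≤ J := Nat.cast_nonneg J
  have hcl := isLaw_cond F.isLaw hA
  by_cases hneg : θ - h / 2 ≤ 0
  · refine le_trans ?_ (CH_nonneg hcl.nonneg _ _)
    exact mul_nonpos_of_nonpos_of_nonneg (by linarith) hJ0
  push Not at hneg
  obtain ⟨M, hM⟩ : ∃ M, M = Real.exp (-((-θ + h / 2) * J)) := ⟨_, rfl⟩
  have hM1 : 1 ≤ M := by
    rw [hM, Real.one_le_exp_iff]
    have : 0 ≤ (θ - h / 2) * J := mul_nonneg hneg.le hJ0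
    linarith
  have key := CH_ge_cells F.isLaw (u J F) (fun ω => (z ω, y J F ω)) hA (κ := κ * J) hM1 (by
    intro B hB hP
    have hSB : S.St c J F B := S.mono (by linarith) (S.res hκ.le hSt hB hP)
    have h3 := hn J ((le_max_right _ _).trans hJ) F B hSB
    by_contra hcon
    push Not at hcon
    refine h3 ⟨V, z, hz.sub hB, fun v => ?_⟩
    rw [← hM]
    exact hcon v)
  refine le_trans ?_ key
  have hlM : Real.log M = (θ - h / 2) * J := by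
    rw [hM, Real.log_exp]
    ring
  rw [hlM]
  have e1 := hJ₁ J ((le_max_left _ _).trans hJ)
  have hC0 : 0 < C := by linarith
  have e2 : Real.exp (-(κ * J)) * ((θ - h / 2) * J) ≤ 1 / C * ((θ - h / 2) * J) :=
    mul_le_mul_of_nonneg_right e1 (mul_nonneg hneg.le hJ0)
  have e3 : 1 / C * ((θ - h / 2) * J) ≤ h / 2 * J := by
    have a1 : θ - h / 2 ≤ |θ| := by
      have := le_abs_self θ
      linarith
    have a2 : |θ| ≤ h / 2 * C := by
      rw [div_le_iff₀ hh] at hC2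
      linarith
    have a3 : 1 / C * (θ - h / 2) ≤ h / 2 := by
      rw [one_div, inv_mul_le_iff₀ hC0]
      linarith
    calc 1 / C * ((θ - h / 2) * J) = 1 / C * (θ - h / 2) * J := by ring
      _ ≤ h / 2 * J := mul_le_mul_of_nonneg_right a3 hJ0
  nlinarith

/-- The facts on all large events. -/
theorem CNum.lrg {S : PCl m} (hpos : ∀ (τ : ℝ) (J : ℕ) (F : Fam m J) (A : F.Ω → Prop),
      S.St τ J F A → 0 < Pe F.p A) {α β υ γ : ∀ J : ℕ, Fam m J → Type}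
    {f : ∀ (J : ℕ) (F : Fam m J), F.Ω → α J F} {g : ∀ (J : ℕ) (F : Fam m J), F.Ω → β J F}
    {u : ∀ (J : ℕ) (F : Fam m J), F.Ω → υ J F} {y : ∀ (J : ℕ) (F : Fam m J), F.Ω → γ J F}
    {θ : ℝ} (hθ : CNum S f g u y θ) (h : ℝ) (hh : 0 < h) : ∃ κ : ℝ, 0 < κ ∧
    Bas S (fun J F A => ∃ (V : Type) (z : F.Ω → V), Cl2 (f J F) (g J F) A z ∧
      ∀ B, Lg F κ A B → 0 < Pe F.p B ∧
        CH (Pool.Agent.H49.Ent.cond F.p B True) (u J F) (fun ω => (z ω, y J F ω)) ≤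
          (θ + h) * J ∧
        ∀ (V' : Type) (z' : F.Ω → V'), Cl2 (f J F) (g J F) B z' →
          (θ - h) * J ≤ CH (Pool.Agent.H49.Ent.cond F.p B True) (u J F)
            (fun ω => (z' ω, y J F ω))) := by
  obtain ⟨c, hc, J₂, hn⟩ := hθ.low hpos h hh
  obtain ⟨c', hc', J₃, ha⟩ := hθ.at' h hh
  refine ⟨c / 2, half_pos hc, min (c / 2) c', lt_min (half_pos hc) hc', max J₂ J₃,
    fun J hJ F A hSt => ?_⟩
  obtain ⟨V, z, hz, hv⟩ := ha J ((le_max_right _ _).trans hJ) F A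
    (S.mono (min_le_right _ _) hSt)
  refine ⟨V, z, hz, fun B hB => ?_⟩
  have hSB : S.St c J F B := S.mono (by linarith) (S.res (half_pos hc).le
    (S.mono (min_le_left _ _) hSt) hB.1 hB.2)
  have hBp := hpos c J F B hSB
  refine ⟨hBp, ?_, fun V' z' hz' => hn J ((le_max_left _ _).trans hJ) F B hSB V' z' hz'⟩
  have h2 := CH_le_cells F.isLaw (u J F) (fun ω => (z ω, y J F ω)) hBp
    (M := Real.exp (-((-θ - h) * J))) (by
    intro v
    refine le_trans ?_ (hv v)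
    have h3 : Sub (fun ω => B ω ∧ (z ω, y J F ω) = v) (fun ω => A ω ∧ (z ω, y J F ω) = v) :=
      fun ω hω => ⟨hB.1 ω hω.1, hω.2⟩
    exact_mod_cast cnt_mono F.p (u J F) h3)
  rw [Real.log_exp] at h2
  linarith

/-- **Records with numbers.** The entropies of the functions `u l` given the records `z (i l)` and
`y l` are the numbers `θ l`, on all large events. -/
theorem records_num {ι : Type} [Finite ι] {S : PCl m}
    (hpos : ∀ (τ : ℝ) (J : ℕ) (F : Fam m J) (A : F.Ω → Prop), S.St τ J F A → 0 < Pe F.p A)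
    {le : ι → ι → Prop} (hrf : ∀ i, le i i) (htr : ∀ i j k, le i j → le j k → le i k)
    {α β : ι → ∀ J : ℕ, Fam m J → Type}
    {f : ∀ (i : ι) (J : ℕ) (F : Fam m J), F.Ω → α i J F}
    {g : ∀ (i : ι) (J : ℕ) (F : Fam m J), F.Ω → β i J F}
    (hf : ∀ i j, le i j → ∀ (J : ℕ) (F : Fam m J), ∃ φ : α j J F → α i J F,
      ∀ ω, f i J F ω = φ (f j J F ω))
    (hg : ∀ i j, le i j → ∀ (J : ℕ) (F : Fam m J), ∃ φ : β j J F → β i J F,
      ∀ ω, g i J F ω = φ (g j J F ω))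
    {η : ι → ℝ} (hη : ∀ i, RNum S (f i) (g i) (η i))
    {Λ : Type} [Finite Λ] (i : Λ → ι) {υ γ : Λ → ∀ J : ℕ, Fam m J → Type}
    (u : ∀ (l : Λ) (J : ℕ) (F : Fam m J), F.Ω → υ l J F)
    (y : ∀ (l : Λ) (J : ℕ) (F : Fam m J), F.Ω → γ l J F) {θ : Λ → ℝ}
    (hθ : ∀ l, CNum S (f (i l)) (g (i l)) (u l) (y l) (θ l)) (h : ℝ) (hh : 0 < h) :
    ∃ κ : ℝ, 0 < κ ∧
    Bas S (fun J F A => ∃ (V : ι → Type) (z : ∀ i, F.Ω → V i), Rcd le f g η h κ F A z ∧
      ∀ B, Lg F κ A B → ∀ l,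
        |CH (Pool.Agent.H49.Ent.cond F.p B True) (u l J F) (fun ω => (z (i l) ω, y l J F ω)) -
          θ l * J| ≤ h * J) := by
  obtain ⟨κ₁, hκ₁, hr⟩ := records hpos hrf htr hf hg hη (h / 2) (half_pos hh)
  choose κ hκ hm using fun l => (hθ l).lrg hpos (h / 2) (half_pos hh)
  obtain ⟨κ₀, hκ₀, hle, hle1⟩ : ∃ κ₀ : ℝ, 0 < κ₀ ∧ (∀ l, κ₀ ≤ κ l) ∧ κ₀ ≤ κ₁ := by
    cases nonempty_fintype Λ
    rcases isEmpty_or_nonempty Λ with hE | hN
    · exact ⟨κ₁, hκ₁, fun l => (hE.false l).elim, le_rfl⟩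
    · refine ⟨min κ₁ (Finset.univ.inf' Finset.univ_nonempty κ), lt_min hκ₁ ?_,
        fun l => (min_le_right _ _).trans (Finset.inf'_le _ (mem_univ l)), min_le_left _ _⟩
      rw [Finset.lt_inf'_iff]
      exact fun l _ => hκ l
  refine ⟨κ₀, hκ₀, ?_⟩
  refine Bas.mono 0 (hr.and (Bas.fin' hm)) ?_
  rintro J - F A ⟨⟨V, z, R⟩, h2⟩
  choose V₁ z₁ hz₁ hc using h2
  have hJ0 : (0 : ℝ) ≤ J := Nat.cast_nonneg J
  have hLg : ∀ {κ' : ℝ}, κ₀ ≤ κ' → ∀ B, Lg F κ₀ A B → Lg F κ' A B := by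
    intro κ' hκ' B hB
    refine ⟨hB.1, le_trans (mul_le_mul_of_nonneg_right (Real.exp_le_exp.2 ?_)
      (Pe_nonneg F.isLaw A)) hB.2⟩
    have := mul_le_mul_of_nonneg_right hκ' hJ0
    linarith
  refine ⟨V, z, ⟨R.cl, R.nest, fun B hB => R.pos B (hLg hle1 B hB), fun B hB i => ?_,
    fun B hB i V' z' hz' => ?_, fun B hB i V' z' hz' => ?_⟩, fun B hB l => ?_⟩
  · refine (R.up B (hLg hle1 B hB) i).trans (mul_le_mul_of_nonneg_right (by linarith) hJ0)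
  · refine le_trans (mul_le_mul_of_nonneg_right (by linarith) hJ0)
      (R.low B (hLg hle1 B hB) i V' z' hz')
  · refine (R.max B (hLg hle1 B hB) i V' z' hz').trans
      (mul_le_mul_of_nonneg_right (by linarith) hJ0)
  · obtain ⟨hBp, h3, h4⟩ := hc l B (hLg (hle l) B hB)
    have h5 := h4 _ _ ((R.cl (i l)).sub hB.1)
    have h6 := R.max B (hLg hle1 B hB) (i l) _ _ ((hz₁ l).sub hB.1)
    have hcl := isLaw_cond F.isLaw hBp
    -- upper bound
    have h7 := CH_le_add hcl.nonneg (u l J F) (z₁ l) (fun ω => (z (i l) ω, y l J F ω))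
    have h8 : CH (Pool.Agent.H49.Ent.cond F.p B True) (z₁ l)
        (fun ω => (z (i l) ω, y l J F ω)) ≤
        CH (Pool.Agent.H49.Ent.cond F.p B True) (z₁ l) (z (i l)) :=
      CH_mono_cond hcl.nonneg fun _ _ _ _ hh => (Prod.ext_iff.mp hh).1
    have h9 : CH (Pool.Agent.H49.Ent.cond F.p B True) (u l J F)
        (fun ω => (z₁ l ω, (z (i l) ω, y l J F ω))) ≤
        CH (Pool.Agent.H49.Ent.cond F.p B True) (u l J F) (fun ω => (z₁ l ω, y l J F ω)) := by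
      refine CH_mono_cond hcl.nonneg fun ω ω' _ _ hh => ?_
      simp only [Prod.mk.injEq] at hh ⊢
      exact ⟨hh.1, hh.2.2⟩
    rw [abs_le]
    constructor
    · nlinarith
    · nlinarith

/-- Passing to the limit in a nonempty class. -/
theorem le_of_bas {S : PCl m} (hS : S.Ne) {a b : ℝ}
    (h : ∀ ε : ℝ, 0 < ε → Bas S (fun J _ _ => a * J ≤ b * J + ε * J)) : a ≤ b := by
  by_contra hcon
  push Not at hcon
  obtain ⟨τ, hτ, J₁, hJ⟩ := h ((a - b) / 2) (by linarith)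
  obtain ⟨J, hJ1, F, A, hA⟩ := hS τ hτ (J₁ + 1)
  have h1 := hJ J (by omega) F A hA
  have h2 : (0 : ℝ) < J := by
    have : 0 < J := by omega
    exact_mod_cast this
  nlinarith

end Pool.RCD
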