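import Mathlib

/-!
# Boxes in which small quantities are free

`t k` is a decreasing function with values in `[0, c 2 ^ (-k)]`. At almost every point the
variation of `t k` on the box of size `C 2 ^ (-k)` is `o(2 ^ (-k))`.
-/

set_option autoImplicit false

namespace Pool.RCD

open MeasureTheory Filter Topology

theorem ae_small (t : ℕ → ℝ → ℝ) (c : ℝ) (h0 : ∀ k x, 0 ≤ t k x)
    (hc : ∀ k x, t k x ≤ c * (1 / 2) ^ k) (ha : ∀ k, Antitone (t k)) :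
    ∀ᵐ w : ℝ, ∀ C ε : ℝ, 0 < C → 0 < ε → ∃ k₀ : ℕ, ∀ k ≥ k₀,
      t k (w - C * (1 / 2) ^ k) - t k (w + C * (1 / 2) ^ k) ≤ ε * (1 / 2) ^ k := by
  -- the sum with weights
  have hsum : ∀ x, Summable fun k => (3 / 2 : ℝ) ^ k * t k x := by
    intro x
    refine Summable.of_nonneg_of_le (fun k => mul_nonneg (by positivity) (h0 k x))
      (fun k => ?_) ((summable_geometric_of_lt_one (r := (3 / 4 : ℝ)) (by norm_num)
        (by norm_num)).mul_left c)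
    calc (3 / 2 : ℝ) ^ k * t k x ≤ (3 / 2) ^ k * (c * (1 / 2) ^ k) :=
          mul_le_mul_of_nonneg_left (hc k x) (by positivity)
      _ = c * (3 / 4) ^ k := by
          have : (3 / 4 : ℝ) ^ k = (3 / 2) ^ k * (1 / 2) ^ k := by
            rw [← mul_pow]
            norm_num
          rw [this]
          ring
  obtain ⟨T, hT⟩ : ∃ T : ℝ → ℝ, T = fun x => -∑' k, (3 / 2 : ℝ) ^ k * t k x := ⟨_, rfl⟩
  have hmono : Monotone T := by
    intro x y hxy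
    rw [hT]
    simp only
    refine neg_le_neg ((hsum y).tsum_le_tsum (fun k => ?_) (hsum x))
    exact mul_le_mul_of_nonneg_left (ha k hxy) (by positivity)
  filter_upwards [hmono.ae_differentiableAt] with w hw C ε hC hε
  obtain ⟨L, hL⟩ : ∃ L, L = deriv T w := ⟨_, rfl⟩
  have hd : HasDerivAt T L w := by
    rw [hL]
    exact hw.hasDerivAt
  rw [hasDerivAt_iff_isLittleO] at hd
  have h1 := hd.def one_pos
  rw [Metric.eventually_nhds_iff] at h1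
  obtain ⟨δ, hδ, h1⟩ := h1
  -- the choice of the level
  have e1 : Tendsto (fun k : ℕ => C * (1 / 2 : ℝ) ^ k) atTop (𝓝 (C * 0)) :=
    (tendsto_pow_atTop_nhds_zero_of_lt_one (by norm_num) (by norm_num)).const_mul C
  rw [mul_zero] at e1
  have e2 : Tendsto (fun k : ℕ => (2 * C * (|L| + 1)) * (2 / 3 : ℝ) ^ k) atTop
      (𝓝 ((2 * C * (|L| + 1)) * 0)) :=
    (tendsto_pow_atTop_nhds_zero_of_lt_one (by norm_num) (by norm_num)).const_mul _
  rw [mul_zero] at e2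
  obtain ⟨k₁, hk₁⟩ := (e1.eventually (gt_mem_nhds hδ)).exists_forall_of_atTop
  obtain ⟨k₂, hk₂⟩ := (e2.eventually (gt_mem_nhds hε)).exists_forall_of_atTop
  refine ⟨max k₁ k₂, fun k hk => ?_⟩
  have hs : (0 : ℝ) < (1 / 2) ^ k := by positivity
  have a1 := hk₁ k ((le_max_left _ _).trans hk)
  have a2 := hk₂ k ((le_max_right _ _).trans hk)
  obtain ⟨r, hr⟩ : ∃ r : ℝ, r = C * (1 / 2) ^ k := ⟨_, rfl⟩
  have hr0 : 0 < r := by rw [hr]; positivity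
  rw [← hr] at a1 ⊢
  have b1 := h1 (y := w - r) (by
    rw [Real.dist_eq]
    have : w - r - w = -r := by ring
    rw [this, abs_neg, abs_of_pos hr0]
    exact a1)
  have b2 := h1 (y := w + r) (by
    rw [Real.dist_eq]
    have : w + r - w = r := by ring
    rw [this, abs_of_pos hr0]
    exact a1)
  simp only [Real.norm_eq_abs, smul_eq_mul, one_mul] at b1 b2
  have c1 : w - r - w = -r := by ring
  have c2 : w + r - w = r := by ring
  rw [c1, abs_neg, abs_of_pos hr0] at b1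
  rw [c2, abs_of_pos hr0] at b2
  have b3 := (abs_le.1 b1).1
  have b4 := (abs_le.1 b2).2
  have hLa := le_abs_self L
  have key : T (w + r) - T (w - r) ≤ 2 * r * (|L| + 1) := by
    nlinarith
  -- one term of the sum
  have hterm : (3 / 2 : ℝ) ^ k * (t k (w - r) - t k (w + r)) ≤ T (w + r) - T (w - r) := by
    have e : T (w + r) - T (w - r) = ∑' j, ((3 / 2 : ℝ) ^ j * t j (w - r) -
        (3 / 2 : ℝ) ^ j * t j (w + r)) := by
      rw [(hsum (w - r)).tsum_sub (hsum (w + r)), hT]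
      ring
    rw [e, mul_sub]
    refine ((hsum (w - r)).sub (hsum (w + r))).le_tsum k fun j _ => ?_
    have := mul_le_mul_of_nonneg_left (ha j (show w - r ≤ w + r by linarith))
      (show (0 : ℝ) ≤ (3 / 2) ^ j by positivity)
    linarith
  have h3 : (0 : ℝ) < (3 / 2) ^ k := by positivity
  have h4 : t k (w - r) - t k (w + r) ≤ (2 * r * (|L| + 1)) * (2 / 3) ^ k := by
    have e3 : (2 / 3 : ℝ) ^ k = 1 / (3 / 2) ^ k := by
      rw [one_div, ← inv_pow]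
      norm_num
    rw [e3, mul_one_div, le_div_iff₀ h3]
    linarith
  refine h4.trans ?_
  have e4 : (2 * r * (|L| + 1)) * (2 / 3) ^ k =
      ((2 * C * (|L| + 1)) * (2 / 3) ^ k) * (1 / 2) ^ k := by
    rw [hr]
    ring
  rw [e4]
  exact mul_le_mul_of_nonneg_right a2.le hs.le

open Classical in
/-- The extension of a decreasing function on the rational numbers of the unit interval. -/
noncomputable def rex (t : ℚ → ℝ) (x : ℝ) : ℝ :=
  sSup {y | ∃ q : ℚ, 0 ≤ q ∧ q ≤ 1 ∧ x ≤ q ∧ y = t q}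

section rex

variable {t : ℚ → ℝ} {B : ℝ} (h0 : ∀ q, 0 ≤ q → q ≤ 1 → 0 ≤ t q)
    (hB : ∀ q, 0 ≤ q → q ≤ 1 → t q ≤ B)

include h0 hB

omit h0 in
theorem rex_bdd (x : ℝ) : BddAbove {y | ∃ q : ℚ, 0 ≤ q ∧ q ≤ 1 ∧ x ≤ q ∧ y = t q} := by
  refine ⟨B, ?_⟩
  rintro y ⟨q, h1, h2, -, rfl⟩
  exact hB q h1 h2

omit hB in
theorem rex_nonneg (x : ℝ) : 0 ≤ rex t x := by
  unfold rex
  refine Real.sSup_nonneg ?_
  rintro y ⟨q, h1, h2, -, rfl⟩
  exact h0 q h1 h2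

omit h0 in
theorem rex_le (hB0 : 0 ≤ B) (x : ℝ) : rex t x ≤ B := by
  unfold rex
  refine Real.sSup_le ?_ hB0
  rintro y ⟨q, h1, h2, -, rfl⟩
  exact hB q h1 h2

theorem rex_anti : Antitone (rex t) := by
  intro x y hxy
  unfold rex
  refine Real.sSup_le ?_ (rex_nonneg h0 x)
  rintro z ⟨q, h1, h2, h3, rfl⟩
  exact le_csSup (rex_bdd hB x) ⟨q, h1, h2, hxy.trans h3, rfl⟩

omit h0 in
theorem rex_eq (ha : ∀ q q', 0 ≤ q → q ≤ q' → q' ≤ 1 → t q' ≤ t q) {q : ℚ} (h1 : 0 ≤ q)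
    (h2 : q ≤ 1) : rex t q = t q := by
  refine le_antisymm ?_ ?_
  · unfold rex
    refine csSup_le ⟨_, q, h1, h2, le_rfl, rfl⟩ ?_
    rintro z ⟨q', h3, h4, h5, rfl⟩
    exact ha q q' h1 (by exact_mod_cast h5) h4
  · exact le_csSup (rex_bdd hB q) ⟨q, h1, h2, le_rfl, rfl⟩

end rex

/-- The rational form: decreasing functions on the rational numbers of the unit interval. -/
theorem ae_small_rat (t : ℕ → ℚ → ℝ) (c : ℝ) (hc0 : 0 ≤ c)
    (h0 : ∀ k q, 0 ≤ q → q ≤ 1 → 0 ≤ t k q)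
    (hc : ∀ k q, 0 ≤ q → q ≤ 1 → t k q ≤ c * (1 / 2) ^ k)
    (ha : ∀ k q q', 0 ≤ q → q ≤ q' → q' ≤ 1 → t k q' ≤ t k q) :
    ∀ᵐ w : ℝ, ∀ C ε : ℝ, 0 < C → 0 < ε → ∃ k₀ : ℕ, ∀ k ≥ k₀, ∀ q q' : ℚ, 0 ≤ q → q ≤ q' →
      q' ≤ 1 → |(q : ℝ) - w| ≤ C * (1 / 2) ^ k → |(q' : ℝ) - w| ≤ C * (1 / 2) ^ k →
      t k q - t k q' ≤ ε * (1 / 2) ^ k := by
  have h := ae_small (fun k => rex (t k)) c (fun k x => rex_nonneg (h0 k) x)
    (fun k x => rex_le (hc k) (by positivity) x) (fun k => rex_anti (h0 k) (hc k))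
  filter_upwards [h] with w hw C ε hC hε
  obtain ⟨k₀, hk₀⟩ := hw C ε hC hε
  refine ⟨k₀, fun k hk q q' q0 qq q1 h1 h2 => ?_⟩
  have h3 := hk₀ k hk
  have h4 := (abs_le.1 h1).1
  have h5 := (abs_le.1 h2).2
  have h6 := rex_anti (h0 k) (hc k) (show w - C * (1 / 2) ^ k ≤ (q : ℝ) by linarith)
  have h7 := rex_anti (h0 k) (hc k) (show (q' : ℝ) ≤ w + C * (1 / 2) ^ k by linarith)
  rw [rex_eq (hc k) (ha k) q0 (qq.trans q1)] at h6
  rw [rex_eq (hc k) (ha k) (q0.trans qq) q1] at h7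
  linarith

/-! ### Paths -/

/-- The extension along a path. -/
noncomputable def pex (t : ℚ → ℚ → ℝ) (g : ℝ → ℝ) (x : ℝ) : ℝ :=
  sSup {y | ∃ w Q : ℚ, w ≤ 1 ∧ g x ≤ w ∧ x ≤ Q ∧ y = t w Q}

/-- **Boxes along a path.** `t k` is a decreasing function of two variables with values in
`[0, c 2 ^ (-k)]`. At almost every point of an increasing path with a positive slope the variation
of `t k` on the box of size `C 2 ^ (-k)` is `o(2 ^ (-k))`. -/
theorem ae_path (t : ℕ → ℚ → ℚ → ℝ) (c : ℝ) (hc0 : 0 ≤ c)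
    (h0 : ∀ k w Q, w ≤ 1 → 0 ≤ t k w Q) (hc : ∀ k w Q, w ≤ 1 → t k w Q ≤ c * (1 / 2) ^ k)
    (ha : ∀ k w w' Q Q', w ≤ w' → w' ≤ 1 → Q ≤ Q' → t k w' Q' ≤ t k w Q) {g : ℝ → ℝ}
    (hg : Monotone g) :
    ∀ᵐ Q₀ : ℝ, DifferentiableAt ℝ g Q₀ → 0 < deriv g Q₀ → ∀ C ε : ℝ, 0 < C → 0 < ε →
      ∃ k₀ : ℕ, ∀ k ≥ k₀, ∀ w w' Q Q' : ℚ, w ≤ w' → w' ≤ 1 → Q ≤ Q' →
        |(w : ℝ) - g Q₀| ≤ C * (1 / 2) ^ k → |(w' : ℝ) - g Q₀| ≤ C * (1 / 2) ^ k →
        |(Q : ℝ) - Q₀| ≤ C * (1 / 2) ^ k → |(Q' : ℝ) - Q₀| ≤ C * (1 / 2) ^ k →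
        t k w Q - t k w' Q' ≤ ε * (1 / 2) ^ k := by
  have hbd : ∀ k x, BddAbove {y | ∃ w Q : ℚ, w ≤ 1 ∧ g x ≤ w ∧ x ≤ Q ∧ y = t k w Q} := by
    intro k x
    refine ⟨c * (1 / 2) ^ k, ?_⟩
    rintro y ⟨w, Q, h1, -, -, rfl⟩
    exact hc k w Q h1
  have hn : ∀ k x, 0 ≤ pex (t k) g x := by
    intro k x
    unfold pex
    refine Real.sSup_nonneg ?_
    rintro y ⟨w, Q, h1, -, -, rfl⟩
    exact h0 k w Q h1
  have hle : ∀ k x, pex (t k) g x ≤ c * (1 / 2) ^ k := by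
    intro k x
    unfold pex
    refine Real.sSup_le ?_ (by positivity)
    rintro y ⟨w, Q, h1, -, -, rfl⟩
    exact hc k w Q h1
  have han : ∀ k, Antitone (pex (t k) g) := by
    intro k x y hxy
    unfold pex
    refine Real.sSup_le ?_ (hn k x)
    rintro z ⟨w, Q, h1, h2, h3, rfl⟩
    exact le_csSup (hbd k x) ⟨w, Q, h1, (hg hxy).trans h2, hxy.trans h3, rfl⟩
  filter_upwards [ae_small (fun k => pex (t k) g) c hn hle han] with Q₀ hQ hd hd0 C ε hC hε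
  obtain ⟨d, hde⟩ : ∃ d, d = deriv g Q₀ := ⟨_, rfl⟩
  rw [← hde] at hd0
  have hD : HasDerivAt g d Q₀ := by
    rw [hde]
    exact hd.hasDerivAt
  rw [hasDerivAt_iff_isLittleO] at hD
  have h1 := hD.def (half_pos hd0)
  rw [Metric.eventually_nhds_iff] at h1
  obtain ⟨δ, hδ, h1⟩ := h1
  obtain ⟨C', hC'⟩ : ∃ C', C' = max C (2 * C / d) := ⟨_, rfl⟩
  have c1 : C ≤ C' := by rw [hC']; exact le_max_left _ _
  have c2 : 2 * C / d ≤ C' := by rw [hC']; exact le_max_right _ _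
  have c0 : 0 < C' := hC.trans_le c1
  have c3 : C ≤ d / 2 * C' := by
    rw [div_le_iff₀ hd0] at c2
    linarith
  obtain ⟨k₁, hk₁⟩ := hQ C' ε c0 hε
  have e1 : Tendsto (fun k : ℕ => C' * (1 / 2 : ℝ) ^ k) atTop (𝓝 (C' * 0)) :=
    (tendsto_pow_atTop_nhds_zero_of_lt_one (by norm_num) (by norm_num)).const_mul C'
  rw [mul_zero] at e1
  obtain ⟨k₂, hk₂⟩ := (e1.eventually (gt_mem_nhds hδ)).exists_forall_of_atTop
  refine ⟨max k₁ k₂, fun k hk w w' Q Q' hw hw' hQQ a1 a2 a3 a4 => ?_⟩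
  have b1 := hk₁ k ((le_max_left _ _).trans hk)
  have b2 := hk₂ k ((le_max_right _ _).trans hk)
  obtain ⟨s, hs⟩ : ∃ s : ℝ, s = (1 / 2) ^ k := ⟨_, rfl⟩
  have hs0 : 0 < s := by rw [hs]; positivity
  simp only [← hs] at a1 a2 a3 a4 b1 b2 ⊢
  have r0 : 0 < C' * s := mul_pos c0 hs0
  have c4 : C * s ≤ d / 2 * (C' * s) := by
    have := mul_le_mul_of_nonneg_right c3 hs0.le
    linarith
  have c5 : C * s ≤ C' * s := mul_le_mul_of_nonneg_right c1 hs0.le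
  have g1 := h1 (y := Q₀ - C' * s) (by
    rw [Real.dist_eq]
    have : Q₀ - C' * s - Q₀ = -(C' * s) := by ring
    rw [this, abs_neg, abs_of_pos r0]
    exact b2)
  have g2 := h1 (y := Q₀ + C' * s) (by
    rw [Real.dist_eq]
    have : Q₀ + C' * s - Q₀ = C' * s := by ring
    rw [this, abs_of_pos r0]
    exact b2)
  simp only [Real.norm_eq_abs, smul_eq_mul] at g1 g2
  have e2 : Q₀ - C' * s - Q₀ = -(C' * s) := by ring
  have e3 : Q₀ + C' * s - Q₀ = C' * s := by ring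
  rw [e2, abs_neg, abs_of_pos r0] at g1
  rw [e3, abs_of_pos r0] at g2
  have g3 := (abs_le.1 g1).2
  have g4 := (abs_le.1 g2).1
  have a1' := (abs_le.1 a1).1
  have a2' := (abs_le.1 a2).2
  have a3' := (abs_le.1 a3).1
  have a4' := (abs_le.1 a4).2
  -- the lower corner
  have l1 : t k w Q ≤ pex (t k) g (Q₀ - C' * s) := by
    unfold pex
    exact le_csSup (hbd k _) ⟨w, Q, hw.trans hw', by linarith, by linarith, rfl⟩
  have l2 : pex (t k) g (Q₀ + C' * s) ≤ t k w' Q' := by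
    unfold pex
    refine Real.sSup_le ?_ (h0 k w' Q' hw')
    rintro z ⟨w₂, Q₂, i1, i2, i3, rfl⟩
    refine ha k w' w₂ Q' Q₂ ?_ i1 ?_
    · have : (w' : ℝ) ≤ w₂ := by linarith
      exact_mod_cast this
    · have : (Q' : ℝ) ≤ Q₂ := by linarith
      exact_mod_cast this
  linarith

end Pool.RCD
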