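import Pool.Agent.H23.LOV.Sup
import Mathlib

/-!
# Critical points of a path

`t w N`, for rational `w` in `[A, B]` and rational `N` near `N₀ w`: the increments in `N` are
between `0` and `c (N' - N)` and they decrease with `w` (so the mixed increments are a measure
whose marginal in `N` is at most `c` times the length). At almost every critical point of the
function `N₀` the mixed increments on the boxes of size `C r` around `(g, N₀ g)` are `o (r)`
(`crit_ae`): the values of `N₀` at critical points are a null set.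
-/

set_option autoImplicit false

namespace Pool.RCD

open MeasureTheory Set Filter Topology

section one

variable {t : ℚ → ℚ → ℝ} {c A B ρ : ℝ} {N₀ : ℝ → ℝ}

/-- **Critical points**, scale `1`. -/
theorem crit_one (hc : 0 ≤ c) (hρ : 0 < ρ)
    (h1 : ∀ w N N' : ℚ, A ≤ w → (w : ℝ) ≤ B → N ≤ N' → N₀ w - ρ ≤ N → (N' : ℝ) ≤ N₀ w + ρ →
      0 ≤ t w N' - t w N ∧ t w N' - t w N ≤ c * (N' - N))
    (h2 : ∀ w w' N N' : ℚ, A ≤ w → w ≤ w' → (w' : ℝ) ≤ B → (w' : ℝ) ≤ w + ρ → N ≤ N' →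
      N₀ w - ρ ≤ N → (N' : ℝ) ≤ N₀ w + ρ → N₀ w' - ρ ≤ N → (N' : ℝ) ≤ N₀ w' + ρ →
      t w' N' - t w' N ≤ t w N' - t w N) {κ : ℝ} (hκ : 0 < κ) :
    ∀ᵐ g : ℝ, g ∈ Ioo A B → HasDerivAt N₀ 0 g → ∃ r₀ : ℝ, 0 < r₀ ∧ ∀ r : ℝ, 0 < r → r < r₀ →
      ∀ N N' w w' : ℚ, N₀ g - r ≤ N → N ≤ N' → (N' : ℝ) ≤ N₀ g + r → g - r ≤ w → w ≤ w' →
      (w' : ℝ) ≤ g + r → (t w N' - t w N) - (t w' N' - t w' N) ≤ 3 * κ * r := by
  rw [ae_iff]
  obtain ⟨Bd, hBd⟩ : ∃ Bd : Set ℝ, Bd = {g : ℝ | ¬ (g ∈ Ioo A B → HasDerivAt N₀ 0 g →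
    ∃ r₀ : ℝ, 0 < r₀ ∧ ∀ r : ℝ, 0 < r → r < r₀ →
      ∀ N N' w w' : ℚ, N₀ g - r ≤ N → N ≤ N' → (N' : ℝ) ≤ N₀ g + r → g - r ≤ w → w ≤ w' →
      (w' : ℝ) ≤ g + r → (t w N' - t w N) - (t w' N' - t w' N) ≤ 3 * κ * r)} := ⟨_, rfl⟩
  rw [← hBd]
  have hBAB : ∀ g ∈ Bd, g ∈ Ioo A B := by
    intro g hg
    rw [hBd] at hg
    by_contra hcon
    exact hg fun h => absurd h hcon
  rcases lt_or_ge A B with hAB | hAB
  swap
  · have : Bd = ∅ := by
      rw [eq_empty_iff_forall_notMem]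
      intro g hg
      exact absurd ((hBAB g hg).1.trans (hBAB g hg).2) (not_lt.2 hAB)
    rw [this, measure_empty]
  refine le_antisymm (ENNReal.le_of_forall_pos_le_add fun e he _ => ?_) bot_le
  rw [zero_add]
  -- the slope
  obtain ⟨η, hη, hη1, hηe⟩ : ∃ η : ℝ, 0 < η ∧ η ≤ ρ / 4 ∧
      (B - A + 1) * (4 * c * η / κ) ≤ e := by
    have he' : (0 : ℝ) < e := NNReal.coe_pos.2 he
    have hD : 0 < B - A + 1 := by linarith
    have hd : 0 < 4 * (B - A + 1) * c + 1 := by positivity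
    refine ⟨min (ρ / 4) (κ * e / (4 * (B - A + 1) * c + 1)), by positivity, min_le_left _ _, ?_⟩
    have h3 : (B - A + 1) * (4 * c * min (ρ / 4) (κ * e / (4 * (B - A + 1) * c + 1)) / κ) ≤
        (B - A + 1) * (4 * c * (κ * e / (4 * (B - A + 1) * c + 1)) / κ) := by
      refine mul_le_mul_of_nonneg_left (div_le_div_of_nonneg_right
        (mul_le_mul_of_nonneg_left (min_le_right _ _) (by positivity)) hκ.le) hD.le
    have h4 : (B - A + 1) * (4 * c * (κ * e / (4 * (B - A + 1) * c + 1)) / κ) =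
        4 * (B - A + 1) * c / (4 * (B - A + 1) * c + 1) * e := by
      field_simp
    have h5 : 4 * (B - A + 1) * c / (4 * (B - A + 1) * c + 1) ≤ 1 := by
      rw [div_le_one hd]
      linarith
    have h6 := mul_le_mul_of_nonneg_right h5 he'.le
    linarith
  -- the points with slope at most `η` on intervals of length `1 / n`
  obtain ⟨Z, hZ⟩ : ∃ Z : ℕ → Set ℝ, Z = fun (n : ℕ) => {w : ℝ | w ∈ Bd ∧
    ∀ w' : ℝ, |w' - w| ≤ 1 / ((n : ℝ) + 1) → |N₀ w' - N₀ w| ≤ η * |w' - w|} := ⟨_, rfl⟩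
  have hcov : Bd ⊆ ⋃ n : ℕ, Z n := by
    intro w hw
    have hd : HasDerivAt N₀ 0 w := by
      rw [hBd] at hw
      by_contra hcon
      exact hw fun _ h => absurd h hcon
    rw [hasDerivAt_iff_isLittleO] at hd
    have h3 := hd.def hη
    rw [Metric.eventually_nhds_iff] at h3
    obtain ⟨δ, hδ, h3⟩ := h3
    obtain ⟨n, hn⟩ := exists_nat_one_div_lt hδ
    refine mem_iUnion.2 ⟨n, ?_⟩
    rw [hZ]
    refine ⟨hw, fun w' hw' => ?_⟩
    have h4 := h3 (y := w') (by rw [Real.dist_eq]; exact hw'.trans_lt hn)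
    simpa using h4
  have hmonZ : Monotone Z := by
    intro n n' hn w hw
    rw [hZ] at hw ⊢
    refine ⟨hw.1, fun w' hw' => hw.2 w' (hw'.trans ?_)⟩
    have : (n : ℝ) ≤ n' := by exact_mod_cast hn
    exact one_div_le_one_div_of_le (by positivity) (by linarith)
  have hZe' : ∀ n : ℕ, 1 / ((n : ℝ) + 1) ≤ ρ → volume (Z n) ≤ e := by
    intro n hnρ
    obtain ⟨h, hh⟩ : ∃ h : ℝ, h = 1 / ((n : ℝ) + 1) := ⟨_, rfl⟩
    have hh0 : 0 < h := by rw [hh]; positivity
    have hh1 : ((n : ℝ) + 1) * h = 1 := by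
      rw [hh]
      field_simp
    have hh2 : h ≤ 1 := by
      rw [hh, div_le_one (by positivity)]
      linarith [(Nat.cast_nonneg n : (0 : ℝ) ≤ n)]
    have hηh : 0 < η * h := mul_pos hη hh0
    have hηh' : η * h ≤ ρ / 4 := (mul_le_of_le_one_right hη.le hh2).trans hη1
    -- the pieces
    obtain ⟨x, hx⟩ : ∃ x : ℕ → ℝ, x = fun (i : ℕ) => A + i * h := ⟨_, rfl⟩
    have hxs : ∀ i, x (i + 1) = x i + h := by
      intro i
      rw [hx]
      push_cast
      ring
    have hpiece : ∀ i, volume (Z n ∩ Icc (x i) (x (i + 1))) ≤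
        ENNReal.ofReal (4 * c * η / κ * h) := by
      intro i
      by_cases hne : (Z n ∩ Icc (x i) (x (i + 1))).Nonempty
      swap
      · rw [not_nonempty_iff_eq_empty.1 hne, measure_empty]
        exact bot_le
      obtain ⟨v, hvZ, hv⟩ := hne
      have hvs : ∀ w : ℝ, w ∈ Icc (x i) (x (i + 1)) → |N₀ w - N₀ v| ≤ η * h := by
        intro w hw
        rw [hZ] at hvZ
        have hvw : |w - v| ≤ h := by
          rw [abs_le]
          constructor <;> linarith [hv.1, hv.2, hw.1, hw.2, hxs i]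
        exact (hvZ.2 w (by rw [← hh]; exact hvw)).trans (mul_le_mul_of_nonneg_left hvw hη.le)
      obtain ⟨a, ha1, ha2⟩ := exists_rat_btwn (show N₀ v - 2 * (η * h) < N₀ v - η * h by linarith)
      obtain ⟨b, hb1, hb2⟩ := exists_rat_btwn (show N₀ v + η * h < N₀ v + 2 * (η * h) by linarith)
      have hab : a ≤ b := by
        have : (a : ℝ) < b := by linarith
        exact_mod_cast this.le
      have hwa : ∀ w : ℝ, w ∈ Icc (x i) (x (i + 1)) → N₀ w - ρ ≤ a ∧ (b : ℝ) ≤ N₀ w + ρ := by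
        intro w hw
        have := abs_le.1 (hvs w hw)
        constructor <;> linarith [this.1, this.2]
      -- the function of the piece
      obtain ⟨f, hf⟩ : ∃ f : ℚ → ℝ, f = fun w => t w b - t w a := ⟨_, rfl⟩
      have hf0 : ∀ w : ℚ, (w : ℝ) ∈ Icc (x i) (x (i + 1)) → (w : ℝ) ∈ Icc A B → 0 ≤ f w ∧
          f w ≤ 4 * c * η * h := by
        intro w hw hw'
        have e1 := h1 w a b hw'.1 hw'.2 hab (hwa w hw).1 (hwa w hw).2
        have e3 : c * ((b : ℝ) - a) ≤ c * (4 * (η * h)) :=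
          mul_le_mul_of_nonneg_left (by linarith) hc
        rw [hf]
        constructor
        · exact e1.1
        · simp only
          nlinarith [e1.2]
      have hfa : ∀ w w' : ℚ, (w : ℝ) ∈ Icc (x i) (x (i + 1)) → (w : ℝ) ∈ Icc A B →
          (w' : ℝ) ∈ Icc (x i) (x (i + 1)) → (w' : ℝ) ∈ Icc A B → w ≤ w' → f w' ≤ f w := by
        intro w w' a1 a2 a3 a4 hww
        rw [hf]
        exact h2 w w' a b a2.1 hww a4.2 (by linarith [a1.1, a3.2, hxs i]) hab (hwa w a1).1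
          (hwa w a1).2 (hwa w' a3).1 (hwa w' a3).2
      obtain ⟨T, hT⟩ : ∃ T : ℝ → Set ℝ, T = fun (y : ℝ) => {s : ℝ | s = 0 ∨ ∃ w : ℚ,
        (w : ℝ) ∈ Icc (x i) (x (i + 1)) ∧ (w : ℝ) ∈ Icc A B ∧ y ≤ (w : ℝ) ∧ s = f w} := ⟨_, rfl⟩
      have hT0 : ∀ y, (0 : ℝ) ∈ T y := fun y => by rw [hT]; exact Or.inl rfl
      have hTb : ∀ y, ∀ s ∈ T y, s ≤ 4 * c * η * h := by
        intro y s hs
        rw [hT] at hs
        rcases hs with rfl | ⟨w, a1, a2, -, rfl⟩
        · positivity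
        · exact (hf0 w a1 a2).2
      have hTbd : ∀ y, BddAbove (T y) := fun y => ⟨_, fun s hs => hTb y s hs⟩
      obtain ⟨H, hH⟩ : ∃ H : ℝ → ℝ, H = fun y => -sSup (T y) := ⟨_, rfl⟩
      have hHm : Monotone H := by
        intro u u' huu
        rw [hH]
        refine neg_le_neg (csSup_le ⟨0, hT0 u'⟩ fun s hs => le_csSup (hTbd u) ?_)
        rw [hT] at hs ⊢
        rcases hs with rfl | ⟨w, a1, a2, a3, rfl⟩
        · exact Or.inl rfl
        · exact Or.inr ⟨w, a1, a2, huu.trans a3, rfl⟩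
      have hHe : ∀ w : ℚ, (w : ℝ) ∈ Icc (x i) (x (i + 1)) → (w : ℝ) ∈ Icc A B → H w = -f w := by
        intro w a1 a2
        rw [hH]
        refine congrArg Neg.neg (le_antisymm (csSup_le ⟨0, hT0 _⟩ ?_) (le_csSup (hTbd _) ?_))
        · intro s hs
          rw [hT] at hs
          rcases hs with rfl | ⟨w', b1, b2, b3, rfl⟩
          · exact (hf0 w a1 a2).1
          · exact hfa w w' a1 a2 b1 b2 (by exact_mod_cast b3)
        · rw [hT]
          exact Or.inr ⟨w, a1, a2, le_rfl, rfl⟩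
      have hHb : H (x (i + 1)) - H (x i) ≤ 4 * c * η * h := by
        rw [hH]
        have e1 : 0 ≤ sSup (T (x (i + 1))) := le_csSup (hTbd _) (hT0 _)
        have e2 : sSup (T (x i)) ≤ 4 * c * η * h := csSup_le ⟨0, hT0 _⟩ (hTb _)
        simp only
        linarith
      have hxi : x i ≤ x (i + 1) := by rw [hxs]; linarith
      have hvol := Pool.LOV23.volume_deriv_ge hxi (hHm.monotoneOn _) hκ
      obtain ⟨D, hD⟩ : ∃ D : Set ℝ, D = {x : ℝ | ¬ DifferentiableAt ℝ H x} := ⟨_, rfl⟩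
      have hD0 : volume D = 0 := by
        rw [hD, ← ae_iff]
        exact hHm.ae_differentiableAt
      have hsub : Z n ∩ Icc (x i) (x (i + 1)) ⊆ ({x i} ∪ {x (i + 1)}) ∪ D ∪
          {y : ℝ | y ∈ Ioo (x i) (x (i + 1)) ∧ κ ≤ deriv H y} := by
        rintro g ⟨hgZ, hg⟩
        by_contra hcon
        simp only [mem_union, mem_singleton_iff, mem_ofPred_eq, not_or, not_and, not_le] at hcon
        obtain ⟨⟨⟨k1, k2⟩, k3⟩, k4⟩ := hcon
        rw [hD, mem_ofPred_eq, not_not] at k3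
        have hgI : g ∈ Ioo (x i) (x (i + 1)) :=
          ⟨lt_of_le_of_ne hg.1 (Ne.symm k1), lt_of_le_of_ne hg.2 k2⟩
        have k5 := k4 hgI
        obtain ⟨r₀, hr₀, hr⟩ := Pool.LOV23.incr_of_deriv hgI k3 hκ k5
        rw [hZ] at hgZ
        have hgB := hgZ.1
        rw [hBd] at hgB
        refine hgB fun hgAB _ => ?_
        have k8 := abs_le.1 (hvs g hg)
        refine ⟨min r₀ (min (min (N₀ g - a) (b - N₀ g)) (min (g - A) (B - g))),
          lt_min hr₀ (lt_min (lt_min (by linarith [k8.1]) (by linarith [k8.2]))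
            (lt_min (by linarith [hgAB.1]) (by linarith [hgAB.2]))),
          fun r hr1 hr2 N N' w w' hN hNN hN' hw hww hw' => ?_⟩
        have l1 : r < r₀ := hr2.trans_le (min_le_left _ _)
        have l2 : r < N₀ g - a := hr2.trans_le ((min_le_right _ _).trans ((min_le_left _ _).trans
          (min_le_left _ _)))
        have l3 : r < b - N₀ g := hr2.trans_le ((min_le_right _ _).trans ((min_le_left _ _).trans
          (min_le_right _ _)))
        have l4 : r < g - A := hr2.trans_le ((min_le_right _ _).trans ((min_le_right _ _).trans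
          (min_le_left _ _)))
        have l5 : r < B - g := hr2.trans_le ((min_le_right _ _).trans ((min_le_right _ _).trans
          (min_le_right _ _)))
        obtain ⟨i1, i2, i3⟩ := hr r hr1 l1
        have m1 : a ≤ N := by
          have : (a : ℝ) ≤ N := by linarith
          exact_mod_cast this
        have m2 : N' ≤ b := by
          have : (N' : ℝ) ≤ b := by linarith
          exact_mod_cast this
        have hww' : (w : ℝ) ≤ w' := by exact_mod_cast hww
        have m1' : (a : ℝ) ≤ N := by exact_mod_cast m1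
        have m2' : (N' : ℝ) ≤ b := by exact_mod_cast m2
        have hNN' : (N : ℝ) ≤ N' := by exact_mod_cast hNN
        have w1 : (w : ℝ) ∈ Icc (x i) (x (i + 1)) := ⟨by linarith, by linarith⟩
        have w2 : (w : ℝ) ∈ Icc A B := ⟨by linarith, by linarith⟩
        have w1' : (w' : ℝ) ∈ Icc (x i) (x (i + 1)) := ⟨by linarith, by linarith⟩
        have w2' : (w' : ℝ) ∈ Icc A B := ⟨by linarith, by linarith⟩
        have d1 := hwa w w1
        have d2 := hwa w' w1'
        have hwρ : (w' : ℝ) ≤ w + ρ := by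
          have := hnρ
          rw [← hh] at this
          linarith [w1.1, w1'.2, hxs i]
        have n1 := h2 w w' a N w2.1 hww w2'.2 hwρ m1 d1.1 (by linarith [d1.2]) d2.1
          (by linarith [d2.2])
        have n2 := h2 w w' N' b w2.1 hww w2'.2 hwρ m2 (by linarith [d1.1]) d1.2
          (by linarith [d2.1]) d2.2
        have n3 := hHe w w1 w2
        have n4 := hHe w' w1' w2'
        have n5 := hHm hw
        have n6 := hHm hw'
        rw [n3] at n5
        rw [n4] at n6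
        rw [hf] at n5 n6
        simp only at n5 n6
        linarith
      calc volume (Z n ∩ Icc (x i) (x (i + 1)))
          ≤ volume (({x i} ∪ {x (i + 1)}) ∪ D ∪
            {y : ℝ | y ∈ Ioo (x i) (x (i + 1)) ∧ κ ≤ deriv H y}) := measure_mono hsub
        _ ≤ volume (({x i} ∪ {x (i + 1)}) ∪ D) +
            volume {y : ℝ | y ∈ Ioo (x i) (x (i + 1)) ∧ κ ≤ deriv H y} := measure_union_le _ _
        _ = volume {y : ℝ | y ∈ Ioo (x i) (x (i + 1)) ∧ κ ≤ deriv H y} := by
            have : volume (({x i} ∪ {x (i + 1)}) ∪ D) = 0 := by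
              rw [measure_union_null_iff, measure_union_null_iff]
              exact ⟨⟨Real.volume_singleton, Real.volume_singleton⟩, hD0⟩
            rw [this, zero_add]
        _ ≤ ENNReal.ofReal ((H (x (i + 1)) - H (x i)) / κ) := hvol
        _ ≤ ENNReal.ofReal (4 * c * η / κ * h) := by
            refine ENNReal.ofReal_le_ofReal ?_
            rw [div_le_iff₀ hκ]
            have : 4 * c * η / κ * h * κ = 4 * c * η * h := by
              field_simp
            linarith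
    -- the sum
    obtain ⟨k, hk⟩ : ∃ k : ℕ, k = ⌈(B - A) * ((n : ℝ) + 1)⌉₊ := ⟨_, rfl⟩
    have hk0 : 0 ≤ (B - A) * ((n : ℝ) + 1) := mul_nonneg (by linarith) (by positivity)
    have hk1 : (B - A) * ((n : ℝ) + 1) ≤ k := by rw [hk]; exact Nat.le_ceil _
    have hk2 : (k : ℝ) ≤ (B - A) * ((n : ℝ) + 1) + 1 := by
      rw [hk]
      exact (Nat.ceil_lt_add_one hk0).le
    have hsub : Z n ⊆ ⋃ i ∈ Finset.range k, (Z n ∩ Icc (x i) (x (i + 1))) := by
      intro w hw
      have hwM : w ∈ Ioo A B := by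
        rw [hZ] at hw
        exact hBAB w hw.1
      obtain ⟨i, hi⟩ : ∃ i : ℕ, i = ⌊(w - A) * ((n : ℝ) + 1)⌋₊ := ⟨_, rfl⟩
      have q0 : 0 ≤ (w - A) * ((n : ℝ) + 1) := mul_nonneg (by linarith [hwM.1]) (by positivity)
      have q1 : (i : ℝ) ≤ (w - A) * ((n : ℝ) + 1) := by rw [hi]; exact Nat.floor_le q0
      have q2 : (w - A) * ((n : ℝ) + 1) < (i : ℝ) + 1 := by rw [hi]; exact Nat.lt_floor_add_one _
      have q3 : (i : ℝ) * h ≤ w - A := by
        calc (i : ℝ) * h ≤ (w - A) * ((n : ℝ) + 1) * h := mul_le_mul_of_nonneg_right q1 hh0.le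
          _ = w - A := by rw [mul_assoc, hh1, mul_one]
      have q4 : w - A ≤ ((i : ℝ) + 1) * h := by
        calc w - A = (w - A) * ((n : ℝ) + 1) * h := by rw [mul_assoc, hh1, mul_one]
          _ ≤ ((i : ℝ) + 1) * h := mul_le_mul_of_nonneg_right q2.le hh0.le
      have q5 : i < k := by
        have : (i : ℝ) < k := by
          refine q1.trans_lt (lt_of_lt_of_le ?_ hk1)
          exact mul_lt_mul_of_pos_right (by linarith [hwM.2]) (by positivity)
        exact_mod_cast this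
      refine mem_biUnion (Finset.mem_coe.2 (Finset.mem_range.2 q5)) ⟨hw, ?_, ?_⟩
      · rw [hx]
        simp only
        linarith
      · rw [hx]
        push_cast
        linarith
    calc volume (Z n) ≤ volume (⋃ i ∈ Finset.range k,
          (Z n ∩ Icc (x i) (x (i + 1)))) := measure_mono hsub
      _ ≤ ∑ i ∈ Finset.range k, volume (Z n ∩ Icc (x i) (x (i + 1))) :=
          measure_biUnion_finset_le _ _
      _ ≤ ∑ _i ∈ Finset.range k, ENNReal.ofReal (4 * c * η / κ * h) :=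
          Finset.sum_le_sum fun i _ => hpiece i
      _ = ENNReal.ofReal ((k : ℝ) * (4 * c * η / κ * h)) := by
          rw [Finset.sum_const, Finset.card_range, nsmul_eq_mul,
            ENNReal.ofReal_mul (p := (k : ℝ)) (Nat.cast_nonneg _), ENNReal.ofReal_natCast]
      _ ≤ e := by
          rw [← ENNReal.ofReal_coe_nnreal]
          refine ENNReal.ofReal_le_ofReal ?_
          have g0 : 0 ≤ 4 * c * η / κ := by positivity
          have g1 : (k : ℝ) * h ≤ B - A + 1 := by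
            calc (k : ℝ) * h ≤ ((B - A) * ((n : ℝ) + 1) + 1) * h :=
                  mul_le_mul_of_nonneg_right hk2 hh0.le
              _ = (B - A) * (((n : ℝ) + 1) * h) + h := by ring
              _ ≤ B - A + 1 := by rw [hh1, mul_one]; linarith
          calc (k : ℝ) * (4 * c * η / κ * h) = (k : ℝ) * h * (4 * c * η / κ) := by ring
            _ ≤ (B - A + 1) * (4 * c * η / κ) := mul_le_mul_of_nonneg_right g1 g0
            _ ≤ e := hηe
  have hZe : ∀ n, volume (Z n) ≤ e := by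
    intro n
    obtain ⟨n₁, hn₁⟩ := exists_nat_one_div_lt hρ
    have h3 : (n₁ : ℝ) ≤ (max n n₁ : ℕ) := by exact_mod_cast le_max_right n n₁
    refine (measure_mono (hmonZ (le_max_left n n₁))).trans (hZe' (max n n₁) ?_)
    exact (one_div_le_one_div_of_le (by positivity) (by linarith)).trans hn₁.le
  calc volume Bd ≤ volume (⋃ n, Z n) := measure_mono hcov
    _ = ⨆ n, volume (Z n) := hmonZ.measure_iUnion
    _ ≤ e := iSup_le hZe

/-- **Critical points**: the mixed increments on the boxes of size `C r` around `(g, N₀ g)` are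
`o (r)` at almost every critical point `g` of `N₀`. -/
theorem crit_ae (hc : 0 ≤ c) (hρ : 0 < ρ)
    (h1 : ∀ w N N' : ℚ, A ≤ w → (w : ℝ) ≤ B → N ≤ N' → N₀ w - ρ ≤ N → (N' : ℝ) ≤ N₀ w + ρ →
      0 ≤ t w N' - t w N ∧ t w N' - t w N ≤ c * (N' - N))
    (h2 : ∀ w w' N N' : ℚ, A ≤ w → w ≤ w' → (w' : ℝ) ≤ B → (w' : ℝ) ≤ w + ρ → N ≤ N' →
      N₀ w - ρ ≤ N → (N' : ℝ) ≤ N₀ w + ρ → N₀ w' - ρ ≤ N → (N' : ℝ) ≤ N₀ w' + ρ →
      t w' N' - t w' N ≤ t w N' - t w N) :
    ∀ᵐ g : ℝ, g ∈ Ioo A B → HasDerivAt N₀ 0 g → ∀ C ε : ℝ, 0 < C → 0 < ε → ∃ r₀ : ℝ, 0 < r₀ ∧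
      ∀ r : ℝ, 0 < r → r < r₀ → ∀ N N' w w' : ℚ, N₀ g - C * r ≤ N → N ≤ N' →
        (N' : ℝ) ≤ N₀ g + C * r → g - C * r ≤ w → w ≤ w' → (w' : ℝ) ≤ g + C * r →
        (t w N' - t w N) - (t w' N' - t w' N) ≤ ε * r := by
  have key : ∀ᵐ g : ℝ, ∀ j : ℕ, g ∈ Ioo A B → HasDerivAt N₀ 0 g → ∃ r₀ : ℝ, 0 < r₀ ∧
      ∀ r : ℝ, 0 < r → r < r₀ → ∀ N N' w w' : ℚ, N₀ g - r ≤ N → N ≤ N' → (N' : ℝ) ≤ N₀ g + r →
      g - r ≤ w → w ≤ w' → (w' : ℝ) ≤ g + r →
      (t w N' - t w N) - (t w' N' - t w' N) ≤ 3 * (1 / ((j : ℝ) + 1)) * r :=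
    ae_all_iff.2 fun j => crit_one hc hρ h1 h2 (by positivity)
  filter_upwards [key] with g hg hgAB hd C ε hC hε
  obtain ⟨j, hj⟩ := exists_nat_one_div_lt (show 0 < ε / (3 * C) by positivity)
  obtain ⟨r₀, hr₀, hr⟩ := hg j hgAB hd
  refine ⟨r₀ / C, by positivity, fun r hr1 hr2 N N' w w' hN hNN hN' a1 a2 a3 => ?_⟩
  have hCr : C * r < r₀ := by
    rw [lt_div_iff₀ hC] at hr2
    linarith
  have h3 := hr (C * r) (by positivity) hCr N N' w w' hN hNN hN' a1 a2 a3
  have h5 : 3 * (1 / ((j : ℝ) + 1)) * (C * r) ≤ ε * r := by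
    have h6 : 3 * C * (1 / ((j : ℝ) + 1)) ≤ ε := by
      rw [lt_div_iff₀ (by positivity)] at hj
      linarith
    calc 3 * (1 / ((j : ℝ) + 1)) * (C * r) = 3 * C * (1 / ((j : ℝ) + 1)) * r := by ring
      _ ≤ ε * r := mul_le_mul_of_nonneg_right h6 hr1.le
  linarith

end one

end Pool.RCD
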