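import Pool.Agent.H92.GN.Num
import Pool.Agent.H92.GN.Ae

/-!
# The digits of the direction are free of the records

`t w q Q r` is the number of the entropy of the direction to `r` digits given the record at
`(w, q)` and `y Q`, where `y Q` is any nested family. It is nonnegative, at most `m r log 2`,
decreasing in `w` and in `Q`, and its increments are increasing in `r` (`FNum.nonneg`, `FNum.up`,
`FNum.incr`). Along every increasing path with a positive slope the increments over a box of size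
`C 2 ^ (-k)` of the number of the first `C 2 ^ (-k)` digits are `o (2 ^ (-k))` at almost every
point (`ae_path`). In terms of records (`free_rec`): all functions of the record at `w'` and of
`y Q'` are free of the digits of the direction given the record at `w` and `y Q`.
-/

set_option autoImplicit false

namespace Pool.RCD

open Finset Real
open Pool.Agent.H49.Ent Pool.Agent.H32.Dense Pool.STK Pool.KA Pool.KSAT Pool.K2S Pool.PB Pool.S6C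
  Pool.GEN

variable {m : ℕ}

/-- The direction to `r` digits. -/
noncomputable def vu (r : ℝ) (J : ℕ) (F : Fam m J) (ω : F.Ω) : Fin m → ℤ := F.D ⌊r * J⌋₊ ω

/-- A nested family of functions. -/
def Nst {γ : ℚ → ∀ J : ℕ, Fam m J → Type}
    (y : ∀ (Q : ℚ) (J : ℕ) (F : Fam m J), F.Ω → γ Q J F) : Prop :=
  ∀ Q Q' : ℚ, Q ≤ Q' → ∀ (J : ℕ) (F : Fam m J), ∃ φ : γ Q' J F → γ Q J F,
    ∀ ω, y Q J F ω = φ (y Q' J F ω)

/-- The numbers of the records and of the direction given the records and `y Q`. -/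
structure FNum (S : PCl m) {γ : ℚ → ∀ J : ℕ, Fam m J → Type}
    (y : ∀ (Q : ℚ) (J : ℕ) (F : Fam m J), F.Ω → γ Q J F) (η : ℚ → ℚ → ℝ)
    (t : ℚ → ℚ → ℚ → ℚ → ℝ) : Prop where
  rcn : ∀ w q : ℚ, w ≤ 1 → q ≤ 1 → RNum S (vf (q : ℝ)) (vg (w : ℝ)) (η w q)
  num : ∀ w q Q r : ℚ, w ≤ 1 → q ≤ 1 → r ≤ 1 →
    CNum S (vf (q : ℝ)) (vg (w : ℝ)) (vu (r : ℝ)) (y Q) (t w q Q r)

theorem cnt_vu {r : ℝ} (hr : r ≤ 1) {J : ℕ} (hJ : 1 ≤ J) (F : Fam m J) (A : F.Ω → Prop) :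
    (cnt F.p (vu r J F) A : ℝ) ≤ Real.exp (3 * m * J) := by
  have hJ1 : (1 : ℝ) ≤ J := by exact_mod_cast hJ
  refine (cnt_D F ⌊r * J⌋₊ A).trans ?_
  have e1 : (3 : ℝ) ≤ Real.exp (2 * J) := by
    have h4 := Real.add_one_le_exp (2 * (J : ℝ))
    linarith
  have e2 : (2 : ℝ) ^ ⌊r * (J : ℝ)⌋₊ ≤ Real.exp J := by
    have h5 : (2 : ℝ) ^ ⌊r * (J : ℝ)⌋₊ ≤ 2 ^ J :=
      pow_le_pow_right₀ (by norm_num) (floor_le hr J)
    refine h5.trans ?_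
    have h6 : (2 : ℝ) ≤ Real.exp 1 := by
      have := Real.add_one_le_exp (1 : ℝ)
      linarith
    calc (2 : ℝ) ^ J ≤ Real.exp 1 ^ J := pow_le_pow_left₀ (by norm_num) h6 J
      _ = Real.exp J := by rw [← Real.exp_nat_mul, mul_one]
  have e3 : (3 : ℝ) * 2 ^ ⌊r * (J : ℝ)⌋₊ ≤ Real.exp (3 * J) := by
    have e4 : Real.exp (3 * (J : ℝ)) = Real.exp (2 * J) * Real.exp J := by
      rw [← Real.exp_add]
      congr 1
      ring
    rw [e4]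
    exact mul_le_mul e1 e2 (by positivity) (Real.exp_pos _).le
  calc ((3 : ℝ) * 2 ^ ⌊r * (J : ℝ)⌋₊) ^ m ≤ Real.exp (3 * J) ^ m :=
        pow_le_pow_left₀ (by positivity) e3 m
    _ = Real.exp (3 * m * J) := by
        rw [← Real.exp_nat_mul]
        congr 1
        ring

theorem cnt_vu' (r : ℝ) {J : ℕ} (F : Fam m J) (A : F.Ω → Prop) :
    (cnt F.p (vu r J F) A : ℝ) ≤ (3 * 2 ^ ⌊r * J⌋₊) ^ m := cnt_D F _ A

/-- **The numbers exist in a nonempty subclass.** -/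
theorem free_num {S : PCl m} (hS : S.Ne)
    (hpos : ∀ (τ : ℝ) (J : ℕ) (F : Fam m J) (A : F.Ω → Prop), S.St τ J F A → 0 < Pe F.p A)
    {M : ℝ} (hM : Bas S (fun J F A => (cnt F.p (ptr F J) A : ℝ) ≤ Real.exp (M * J)))
    {γ : ℚ → ∀ J : ℕ, Fam m J → Type}
    (y : ∀ (Q : ℚ) (J : ℕ) (F : Fam m J), F.Ω → γ Q J F) :
    ∃ S' : PCl m, S'.Ne ∧
      (∀ (τ : ℝ) (J : ℕ) (F : Fam m J) (A : F.Ω → Prop), S'.St τ J F A → S.St τ J F A) ∧
      ∃ (η : ℚ → ℚ → ℝ) (t : ℚ → ℚ → ℚ → ℚ → ℝ), FNum S' y η t := by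
  classical
  obtain ⟨S₁, n1, s1, η, hη⟩ := vis_num hS hpos hM
  have hpos₁ : ∀ (τ : ℝ) (J : ℕ) (F : Fam m J) (A : F.Ω → Prop), S₁.St τ J F A → 0 < Pe F.p A :=
    fun τ J F A h => hpos τ J F A (s1 τ J F A h)
  have : Nonempty {x : ℚ × ℚ × ℚ × ℚ // x.1 ≤ 1 ∧ x.2.1 ≤ 1 ∧ x.2.2.2 ≤ 1} :=
    ⟨⟨(0, 0, 0, 0), by norm_num⟩⟩
  obtain ⟨e, he⟩ := exists_surjective_nat
    {x : ℚ × ℚ × ℚ × ℚ // x.1 ≤ 1 ∧ x.2.1 ≤ 1 ∧ x.2.2.2 ≤ 1}
  obtain ⟨S', h1, h2, h3⟩ := ext_cnd n1 hpos₁ (fun _ _ F => PtT F × (Fin m → ℤ))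
    (fun _ _ F => LnT F) (fun _ _ _ => Fin m → ℤ) (fun i => γ (e i).1.2.2.1)
    (fun i => vf (((e i).1.2.1 : ℚ) : ℝ)) (fun i => vg (((e i).1.1 : ℚ) : ℝ))
    (fun i => vu (((e i).1.2.2.2 : ℚ) : ℝ)) (fun i => y (e i).1.2.2.1) (fun _ => 3 * m)
    (fun i => ⟨1, one_pos, 1, fun J hJ F A _ => cnt_vu (by
      have := (e i).2.2.2
      exact_mod_cast this) hJ F A⟩)
  choose θ hθ using h3
  have key : ∀ w q Q r : ℚ, ∃ x : ℝ, w ≤ 1 → q ≤ 1 → r ≤ 1 →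
      CNum S' (vf (q : ℝ)) (vg (w : ℝ)) (vu (r : ℝ)) (y Q) x := by
    intro w q Q r
    by_cases h : w ≤ 1 ∧ q ≤ 1 ∧ r ≤ 1
    · obtain ⟨i, hi⟩ := he ⟨(w, q, Q, r), h⟩
      refine ⟨θ i, fun _ _ _ => ?_⟩
      have := hθ i
      rw [hi] at this
      exact this
    · exact ⟨0, fun a b c => absurd ⟨a, b, c⟩ h⟩
  choose t ht using key
  exact ⟨S', h1, fun τ J F A h => s1 τ J F A (h2 τ J F A h), η, t,
    ⟨fun w q hw hq => (hη w q hw hq).sub h2, ht⟩⟩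

section facts

variable {S : PCl m} (hS : S.Ne)
    (hpos : ∀ (τ : ℝ) (J : ℕ) (F : Fam m J) (A : F.Ω → Prop), S.St τ J F A → 0 < Pe F.p A)
    {γ : ℚ → ∀ J : ℕ, Fam m J → Type}
    {y : ∀ (Q : ℚ) (J : ℕ) (F : Fam m J), F.Ω → γ Q J F} {η : ℚ → ℚ → ℝ}
    {t : ℚ → ℚ → ℚ → ℚ → ℝ} (N : FNum S y η t)

include hpos N

/-- **Records with the numbers of the direction**: finitely many `(w, q)`, `Q` and `r`. -/
theorem FNum.rcd (P : Finset (ℚ × ℚ)) (hP : ∀ x ∈ P, x.1 ≤ 1 ∧ x.2 ≤ 1) (U : Finset (ℚ × ℚ))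
    (hU : ∀ x ∈ U, x.2 ≤ 1) (h : ℝ) (hh : 0 < h) : ∃ κ : ℝ, 0 < κ ∧
    Bas S (fun J F A => ∃ (V : {x // x ∈ P} → Type) (z : ∀ i, F.Ω → V i),
      Rcd (leq P) (fun i => vf (i.1.2 : ℝ)) (fun i => vg (i.1.1 : ℝ)) (fun i => η i.1.1 i.1.2)
        h κ F A z ∧ ∀ B, Lg F κ A B → ∀ (i : {x // x ∈ P}) (l : {x // x ∈ U}),
        |CH (Pool.Agent.H49.Ent.cond F.p B True) (vu (l.1.2 : ℝ) J F)
          (fun ω => (z i ω, y l.1.1 J F ω)) - t i.1.1 i.1.2 l.1.1 l.1.2 * J| ≤ h * J) := by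
  obtain ⟨κ, hκ, hb⟩ := records_num hpos (le := leq P) (fun _ => ⟨le_rfl, le_rfl⟩)
    (fun _ _ _ h1 h2 => ⟨h1.1.trans h2.1, h1.2.trans h2.2⟩)
    (fun i j hij J F => vf_mono (by exact_mod_cast hij.2) J F)
    (fun i j hij J F => vg_mono (by exact_mod_cast hij.1)
      (by have := (hP j.1 j.2).1; exact_mod_cast this) J F)
    (fun i => N.rcn _ _ (hP i.1 i.2).1 (hP i.1 i.2).2)
    (Λ := {x // x ∈ P} × {x // x ∈ U}) (fun l => l.1)
    (fun l => vu (l.2.1.2 : ℝ)) (fun l => y l.2.1.1)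
    (θ := fun l => t l.1.1.1 l.1.1.2 l.2.1.1 l.2.1.2)
    (fun l => N.num _ _ _ _ (hP l.1.1 l.1.2).1 (hP l.1.1 l.1.2).2 (hU l.2.1 l.2.2)) h hh
  refine ⟨κ, hκ, Bas.mono 0 hb ?_⟩
  rintro J - F A ⟨V, z, R, hB⟩
  exact ⟨V, z, R, fun B hLg i l => hB B hLg (i, l)⟩

include hS

theorem FNum.nonneg {w q Q r : ℚ} (hw : w ≤ 1) (hq : q ≤ 1) (hr : r ≤ 1) : 0 ≤ t w q Q r := by
  refine le_of_bas hS fun ε hε => ?_
  obtain ⟨κ, hκ, hb⟩ := N.rcd hpos {(w, q)} (by simp [hw, hq]) {(Q, r)} (by simp [hr]) ε hε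
  refine Bas.mono 0 hb ?_
  rintro J - F A ⟨V, z, R, hB⟩
  have h1 := hB A (Lg.refl F hκ.le A) ⟨(w, q), by simp⟩ ⟨(Q, r), by simp⟩
  have h2 := CH_nonneg (isLaw_cond F.isLaw (R.pos A (Lg.refl F hκ.le A))).nonneg
    (vu (r : ℝ) J F) (fun ω => (z ⟨(w, q), by simp⟩ ω, y Q J F ω))
  have h3 := (abs_le.1 h1).2
  simp only at h3
  linarith

theorem FNum.up {w q Q r : ℚ} (hw : w ≤ 1) (hq : q ≤ 1) (hr0 : 0 ≤ r) (hr : r ≤ 1) :
    t w q Q r ≤ m * r * Real.log 2 := by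
  refine le_of_bas hS fun ε hε => ?_
  obtain ⟨κ, hκ, hb⟩ := N.rcd hpos {(w, q)} (by simp [hw, hq]) {(Q, r)} (by simp [hr])
    (ε / 2) (half_pos hε)
  obtain ⟨J₀, hJ₀⟩ := exists_nat_ge (m * Real.log 3 / (ε / 2))
  refine Bas.mono J₀ hb ?_
  rintro J hJ F A ⟨V, z, R, hB⟩
  have hA := R.pos A (Lg.refl F hκ.le A)
  have hcl := isLaw_cond F.isLaw hA
  have h1 := hB A (Lg.refl F hκ.le A) ⟨(w, q), by simp⟩ ⟨(Q, r), by simp⟩
  have h2 := (CH_le_H' hcl (vu (r : ℝ) J F)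
    (fun ω => (z ⟨(w, q), by simp⟩ ω, y Q J F ω))).trans (H_le_cnt F.isLaw _ hA)
  have hc1 : (1 : ℝ) ≤ cnt F.p (vu (r : ℝ) J F) A := by
    exact_mod_cast one_le_cnt F.isLaw (vu (r : ℝ) J F) hA
  have h3 := Real.log_le_log (by linarith) (cnt_vu' (r : ℝ) F A)
  have h4 : Real.log (((3 : ℝ) * 2 ^ ⌊(r : ℝ) * J⌋₊) ^ m) ≤
      m * Real.log 3 + m * r * Real.log 2 * J := by
    rw [Real.log_pow, Real.log_mul (by norm_num) (by positivity), Real.log_pow]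
    have h5 : (⌊(r : ℝ) * J⌋₊ : ℝ) ≤ r * J :=
      Nat.floor_le (mul_nonneg (by exact_mod_cast hr0) (Nat.cast_nonneg _))
    have h6 : (⌊(r : ℝ) * J⌋₊ : ℝ) * Real.log 2 ≤ r * J * Real.log 2 :=
      mul_le_mul_of_nonneg_right h5 (Real.log_nonneg (by norm_num))
    have h7 : (0 : ℝ) ≤ m := Nat.cast_nonneg m
    nlinarith
  have h8 : m * Real.log 3 ≤ ε / 2 * J := by
    have h9 : (J₀ : ℝ) ≤ J := by exact_mod_cast hJ
    have h10 := hJ₀.trans h9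
    rw [div_le_iff₀ (half_pos hε)] at h10
    linarith
  have h11 := (abs_le.1 h1).1
  simp only at h11
  linarith

/-- The increments are nonnegative and increasing in the number of digits. -/
theorem FNum.incr (hy : Nst y) {w w' q Q Q' r r' : ℚ} (hw : w ≤ w') (hw' : w' ≤ 1) (hq : q ≤ 1)
    (hQ : Q ≤ Q') (hr : r ≤ r') (hr' : r' ≤ 1) :
    t w q Q r - t w' q Q' r ≤ t w q Q r' - t w' q Q' r' := by
  classical
  have key : t w q Q r + t w' q Q' r' ≤ t w q Q r' + t w' q Q' r := by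
    refine le_of_bas hS fun ε hε => ?_
    obtain ⟨κ, hκ, hb⟩ := N.rcd hpos {(w, q), (w', q)}
      (by simp [hw', hw.trans hw', hq]) {(Q, r), (Q', r), (Q, r'), (Q', r')}
      (by simp [hr', hr.trans hr']) (ε / 4) (by positivity)
    refine Bas.mono 0 hb ?_
    rintro J - F A ⟨V, z, R, hB⟩
    have hA := R.pos A (Lg.refl F hκ.le A)
    have hcl := isLaw_cond F.isLaw hA
    obtain ⟨i, hi⟩ : ∃ i : {x // x ∈ ({(w, q), (w', q)} : Finset (ℚ × ℚ))}, i = ⟨(w, q), by simp⟩ :=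
      ⟨_, rfl⟩
    obtain ⟨j, hj⟩ : ∃ j : {x // x ∈ ({(w, q), (w', q)} : Finset (ℚ × ℚ))},
      j = ⟨(w', q), by simp⟩ := ⟨_, rfl⟩
    have a1 := (abs_le.1 (hB A (Lg.refl F hκ.le A) i ⟨(Q, r), by simp⟩)).1
    have a2 := (abs_le.1 (hB A (Lg.refl F hκ.le A) j ⟨(Q', r'), by simp⟩)).1
    have a3 := (abs_le.1 (hB A (Lg.refl F hκ.le A) i ⟨(Q, r'), by simp⟩)).2
    have a4 := (abs_le.1 (hB A (Lg.refl F hκ.le A) j ⟨(Q', r), by simp⟩)).2
    rw [hi] at a1 a3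
    rw [hj] at a2 a4
    simp only at a1 a2 a3 a4
    rw [← hi] at a1 a3
    rw [← hj] at a2 a4
    -- the coarse direction is a function of the fine direction
    obtain ⟨φ, hφ⟩ := D_coarse F (Nat.floor_le_floor (mul_le_mul_of_nonneg_right
      (show ((r : ℚ) : ℝ) ≤ (r' : ℝ) by exact_mod_cast hr) (Nat.cast_nonneg (α := ℝ) J)))
    have hchain : ∀ {Y : Type} (c : F.Ω → Y),
        CH (Pool.Agent.H49.Ent.cond F.p A True) (vu (r' : ℝ) J F) c =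
        CH (Pool.Agent.H49.Ent.cond F.p A True) (vu (r : ℝ) J F) c +
        CH (Pool.Agent.H49.Ent.cond F.p A True) (vu (r' : ℝ) J F)
          (fun ω => (vu (r : ℝ) J F ω, c ω)) := by
      intro Y c
      have e := CH_chain hcl.nonneg (vu (r' : ℝ) J F) (vu (r : ℝ) J F) c
      have e2 : CH (Pool.Agent.H49.Ent.cond F.p A True)
          (fun ω => (vu (r' : ℝ) J F ω, vu (r : ℝ) J F ω)) c =
          CH (Pool.Agent.H49.Ent.cond F.p A True) (vu (r' : ℝ) J F) c := by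
        refine CH_congr hcl.nonneg ?_ ?_ (fun _ _ _ _ h => h) (fun _ _ _ _ h => h)
        · intro ω ω' _ _ hh
          simp only [Prod.mk.injEq] at hh
          exact hh.1.1
        · intro ω ω' _ _ hh
          simp only [Prod.mk.injEq] at hh ⊢
          refine ⟨hh.1, ?_⟩
          show F.D _ ω = F.D _ ω'
          rw [hφ ω, hφ ω']
          exact congrArg φ hh.1
      linarith
    have hc1 := hchain (fun ω => (z i ω, y Q J F ω))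
    have hc2 := hchain (fun ω => (z j ω, y Q' J F ω))
    obtain ⟨ψ, hψ⟩ := R.nest i j ⟨by rw [hi, hj]; exact hw, by rw [hi, hj]⟩
    obtain ⟨χ, hχ⟩ := hy Q Q' hQ J F
    have hm : CH (Pool.Agent.H49.Ent.cond F.p A True) (vu (r' : ℝ) J F)
        (fun ω => (vu (r : ℝ) J F ω, (z j ω, y Q' J F ω))) ≤
        CH (Pool.Agent.H49.Ent.cond F.p A True) (vu (r' : ℝ) J F)
        (fun ω => (vu (r : ℝ) J F ω, (z i ω, y Q J F ω))) := by
      refine CH_mono_cond hcl.nonneg fun ω ω' _ _ hh => ?_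
      simp only [Prod.mk.injEq] at hh ⊢
      refine ⟨hh.1, ?_, ?_⟩
      · rw [hψ ω, hψ ω', hh.2.1]
      · rw [hχ ω, hχ ω', hh.2.2]
    linarith
  linarith

theorem FNum.zero {w q Q r : ℚ} (hw : w ≤ 1) (hq : q ≤ 1) (hr : r ≤ 0) : t w q Q r = 0 := by
  have h0 : t w q Q r ≤ 0 := by
    refine le_of_bas hS fun ε hε => ?_
    obtain ⟨κ, hκ, hb⟩ := N.rcd hpos {(w, q)} (by simp [hw, hq]) {(Q, r)}
      (by simp [hr.trans zero_le_one]) (ε / 2) (half_pos hε)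
    obtain ⟨J₀, hJ₀⟩ := exists_nat_ge (m * Real.log 3 / (ε / 2))
    refine Bas.mono J₀ hb ?_
    rintro J hJ F A ⟨V, z, R, hB⟩
    have hA := R.pos A (Lg.refl F hκ.le A)
    have hcl := isLaw_cond F.isLaw hA
    have h1 := hB A (Lg.refl F hκ.le A) ⟨(w, q), by simp⟩ ⟨(Q, r), by simp⟩
    have h2 := (CH_le_H' hcl (vu (r : ℝ) J F)
      (fun ω => (z ⟨(w, q), by simp⟩ ω, y Q J F ω))).trans (H_le_cnt F.isLaw _ hA)
    have hc1 : (1 : ℝ) ≤ cnt F.p (vu (r : ℝ) J F) A := by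
      exact_mod_cast one_le_cnt F.isLaw (vu (r : ℝ) J F) hA
    have h3 := Real.log_le_log (by linarith) (cnt_vu' (r : ℝ) F A)
    have e0 : ⌊(r : ℝ) * J⌋₊ = 0 := by
      refine Nat.floor_eq_zero.2 ?_
      have : (r : ℝ) * J ≤ 0 :=
        mul_nonpos_of_nonpos_of_nonneg (by exact_mod_cast hr) (Nat.cast_nonneg _)
      linarith
    rw [e0, pow_zero, mul_one, Real.log_pow] at h3
    have h8 : m * Real.log 3 ≤ ε / 2 * J := by
      have h9 : (J₀ : ℝ) ≤ J := by exact_mod_cast hJ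
      have h10 := hJ₀.trans h9
      rw [div_le_iff₀ (half_pos hε)] at h10
      linarith
    have h11 := (abs_le.1 h1).1
    simp only at h11
    linarith
  exact le_antisymm h0 (N.nonneg hS hpos hw hq (hr.trans zero_le_one))

/-- The number is decreasing in `w` and in `Q`. -/
theorem FNum.anti (hy : Nst y) {w w' q Q Q' r : ℚ} (hw : w ≤ w') (hw' : w' ≤ 1) (hq : q ≤ 1)
    (hQ : Q ≤ Q') (hr : r ≤ 1) : t w' q Q' r ≤ t w q Q r := by
  rcases le_total r 0 with h | h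
  · rw [N.zero hS hpos hw' hq h, N.zero hS hpos (hw.trans hw') hq h]
  · have h1 := N.incr hS hpos hy hw hw' hq hQ h hr
    rw [N.zero hS hpos hw' hq le_rfl, N.zero hS hpos (hw.trans hw') hq le_rfl] at h1
    linarith

end facts

/-! ### Records -/

/-- Functions of the larger variable `c'` have little information on `u` given `c`, if the
entropy of `u` given `c` and given `c'` is almost the same. -/
theorem free_info {Ω U Y Y' C C' : Type} [Fintype Ω] {q : Ω → ℝ} (hq : IsLaw q) (u : Ω → U)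
    (y : Ω → Y) (y' : Ω → Y') (c : Ω → C) (c' : Ω → C') (hc : Det q c' c) (hy : Det q c' y)
    (hy' : Det q c' y') : CH q y (fun ω => (y' ω, c ω)) ≤
      CH q y (fun ω => (u ω, (y' ω, c ω))) + (CH q u c - CH q u c') := by
  have s1 := CH_chain hq.nonneg y u (fun ω => (y' ω, c ω))
  have s2 := CH_chain hq.nonneg u y (fun ω => (y' ω, c ω))
  have s3 : CH q (fun ω => (y ω, u ω)) (fun ω => (y' ω, c ω)) =
      CH q (fun ω => (u ω, y ω)) (fun ω => (y' ω, c ω)) := by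
    refine CH_congr hq.nonneg ?_ ?_ (fun _ _ _ _ h => h) (fun _ _ _ _ h => h) <;>
    · intro ω ω' _ _ hh
      simp only [Prod.mk.injEq] at hh ⊢
      tauto
  have s4 : CH q u c' ≤ CH q u (fun ω => (y ω, (y' ω, c ω))) := by
    refine CH_mono_cond hq.nonneg fun ω ω' a b hh => ?_
    exact Prod.ext (hy ω ω' a b hh) (Prod.ext (hy' ω ω' a b hh) (hc ω ω' a b hh))
  have s5 : CH q u (fun ω => (y' ω, c ω)) ≤ CH q u c :=
    CH_mono_cond hq.nonneg fun _ _ _ _ hh => (Prod.ext_iff.mp hh).2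
  linarith

/-- **The direction is free of the records.** All functions of the record `j` and of `y Q'` are
free of the direction to `r` digits given the record `i` and `y Q`, up to the increment of the
numbers. -/
theorem free_rec {S : PCl m}
    (hpos : ∀ (τ : ℝ) (J : ℕ) (F : Fam m J) (A : F.Ω → Prop), S.St τ J F A → 0 < Pe F.p A)
    {γ : ℚ → ∀ J : ℕ, Fam m J → Type}
    {y : ∀ (Q : ℚ) (J : ℕ) (F : Fam m J), F.Ω → γ Q J F} {η : ℚ → ℚ → ℝ}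
    {t : ℚ → ℚ → ℚ → ℚ → ℝ} (N : FNum S y η t) (hy : Nst y) (P : Finset (ℚ × ℚ))
    (hP : ∀ x ∈ P, x.1 ≤ 1 ∧ x.2 ≤ 1) (U : Finset (ℚ × ℚ)) (hU : ∀ x ∈ U, x.2 ≤ 1) (h : ℝ)
    (hh : 0 < h) : ∃ κ : ℝ, 0 < κ ∧
    Bas S (fun J F A => ∃ (V : {x // x ∈ P} → Type) (z : ∀ i, F.Ω → V i),
      Rcd (leq P) (fun i => vf (i.1.2 : ℝ)) (fun i => vg (i.1.1 : ℝ)) (fun i => η i.1.1 i.1.2)
        h κ F A z ∧ ∀ B, Lg F κ A B →
        (∀ (i : {x // x ∈ P}) (l : {x // x ∈ U}),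
          |CH (Pool.Agent.H49.Ent.cond F.p B True) (vu (l.1.2 : ℝ) J F)
            (fun ω => (z i ω, y l.1.1 J F ω)) - t i.1.1 i.1.2 l.1.1 l.1.2 * J| ≤ h * J) ∧
        ∀ i j : {x // x ∈ P}, leq P i j → ∀ Q Q' r : ℚ, (Q, r) ∈ U → (Q', r) ∈ U → Q ≤ Q' →
          ∀ (Y Y' : Type) (u : F.Ω → Y) (u' : F.Ω → Y'),
          Det (Pool.Agent.H49.Ent.cond F.p B True) (fun ω => (z j ω, y Q' J F ω)) u →
          Det (Pool.Agent.H49.Ent.cond F.p B True) (fun ω => (z j ω, y Q' J F ω)) u' →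
          CH (Pool.Agent.H49.Ent.cond F.p B True) u (fun ω => (u' ω, (z i ω, y Q J F ω))) ≤
          CH (Pool.Agent.H49.Ent.cond F.p B True) u
            (fun ω => (vu (r : ℝ) J F ω, (u' ω, (z i ω, y Q J F ω)))) +
          (t i.1.1 i.1.2 Q r - t j.1.1 j.1.2 Q' r + 2 * h) * J) := by
  obtain ⟨κ, hκ, hb⟩ := N.rcd hpos P hP U hU h hh
  refine ⟨κ, hκ, Bas.mono 0 hb ?_⟩
  rintro J - F A ⟨V, z, R, hB⟩
  refine ⟨V, z, R, fun B hLg => ⟨hB B hLg, ?_⟩⟩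
  intro i j hij Q Q' r h1 h2 hQ Y Y' u u' hu hu'
  have hcl := isLaw_cond F.isLaw (R.pos B hLg)
  obtain ⟨ψ, hψ⟩ := R.nest i j hij
  obtain ⟨χ, hχ⟩ := hy Q Q' hQ J F
  have key := free_info hcl (vu (r : ℝ) J F) u u' (fun ω => (z i ω, y Q J F ω))
    (fun ω => (z j ω, y Q' J F ω)) (fun ω ω' _ _ hh => by
      simp only [Prod.mk.injEq] at hh ⊢
      exact ⟨by rw [hψ ω, hψ ω', hh.1], by rw [hχ ω, hχ ω', hh.2]⟩) hu hu'
  have a1 := (abs_le.1 (hB B hLg i ⟨(Q, r), h1⟩)).2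
  have a2 := (abs_le.1 (hB B hLg j ⟨(Q', r), h2⟩)).1
  simp only at a1 a2
  linarith

/-! ### Almost every point of a path -/

/-- The increments of the numbers along a path. -/
theorem FNum.path {S : PCl m} (hS : S.Ne)
    (hpos : ∀ (τ : ℝ) (J : ℕ) (F : Fam m J) (A : F.Ω → Prop), S.St τ J F A → 0 < Pe F.p A)
    {γ : ℚ → ∀ J : ℕ, Fam m J → Type}
    {y : ∀ (Q : ℚ) (J : ℕ) (F : Fam m J), F.Ω → γ Q J F} {η : ℚ → ℚ → ℝ}
    {t : ℚ → ℚ → ℚ → ℚ → ℝ} (N : FNum S y η t) (hy : Nst y) {g : ℝ → ℝ} (hg : Monotone g) :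
    ∀ᵐ Q₀ : ℝ, DifferentiableAt ℝ g Q₀ → 0 < deriv g Q₀ → ∀ (c : ℚ) (C ε : ℝ), 0 < C → 0 < ε →
      ∃ k₀ : ℕ, ∀ k ≥ k₀, ∀ w w' Q Q' r : ℚ, w ≤ w' → w' ≤ 1 → Q ≤ Q' →
        |(w : ℝ) - g Q₀| ≤ C * (1 / 2) ^ k → |(w' : ℝ) - g Q₀| ≤ C * (1 / 2) ^ k →
        |(Q : ℝ) - Q₀| ≤ C * (1 / 2) ^ k → |(Q' : ℝ) - Q₀| ≤ C * (1 / 2) ^ k →
        (r : ℝ) ≤ C * (1 / 2) ^ k →
        t w (c * (1 / 2) ^ k) Q r - t w' (c * (1 / 2) ^ k) Q' r ≤ ε * (1 / 2) ^ k := by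
  classical
  obtain ⟨tt, htt⟩ : ∃ tt : ℕ → ℚ → ℕ → ℚ → ℚ → ℝ, tt = fun (n : ℕ) (c : ℚ) (k : ℕ) (w Q : ℚ) =>
    if c * (1 / 2) ^ k ≤ 1 ∧ ((n : ℕ) : ℚ) * (1 / 2) ^ k ≤ 1 then
      t w (c * (1 / 2) ^ k) Q (((n : ℕ) : ℚ) * (1 / 2) ^ k) else 0 := ⟨_, rfl⟩
  have key : ∀ (n : ℕ) (c : ℚ), ∀ᵐ Q₀ : ℝ, DifferentiableAt ℝ g Q₀ → 0 < deriv g Q₀ →
      ∀ C ε : ℝ, 0 < C → 0 < ε → ∃ k₀ : ℕ, ∀ k ≥ k₀, ∀ w w' Q Q' : ℚ, w ≤ w' → w' ≤ 1 → Q ≤ Q' →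
        |(w : ℝ) - g Q₀| ≤ C * (1 / 2) ^ k → |(w' : ℝ) - g Q₀| ≤ C * (1 / 2) ^ k →
        |(Q : ℝ) - Q₀| ≤ C * (1 / 2) ^ k → |(Q' : ℝ) - Q₀| ≤ C * (1 / 2) ^ k →
        tt n c k w Q - tt n c k w' Q' ≤ ε * (1 / 2) ^ k := by
    intro n c
    refine ae_path (tt n c) (m * n * Real.log 2) (by positivity) ?_ ?_ ?_ hg
    · intro k w Q hw
      rw [htt]
      simp only
      split_ifs with hc
      · exact N.nonneg hS hpos hw hc.1 hc.2
      · exact le_rfl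
    · intro k w Q hw
      rw [htt]
      simp only
      split_ifs with hc
      · have := N.up hS hpos (Q := Q) hw hc.1 (by positivity) hc.2
        push_cast at this
        linarith
      · positivity
    · intro k w w' Q Q' hw hw' hQ
      rw [htt]
      simp only
      split_ifs with hc
      · exact N.anti hS hpos hy hw hw' hc.1 hQ hc.2
      · exact le_rfl
  have key' := MeasureTheory.ae_all_iff.2 fun n => MeasureTheory.ae_all_iff.2 fun c => key n c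
  filter_upwards [key'] with Q₀ h0 hd hd0 c C ε hC hε
  obtain ⟨n, hn⟩ := exists_nat_ge C
  obtain ⟨k₀, hk₀⟩ := h0 n c hd hd0 C ε hC hε
  -- the exponents are small
  have e1 : ∀ x : ℚ, ∃ k₁ : ℕ, ∀ k ≥ k₁, x * (1 / 2) ^ k ≤ 1 := by
    intro x
    obtain ⟨k₁, hk₁⟩ := exists_nat_ge x
    refine ⟨k₁, fun k hk => ?_⟩
    have h1 : (k : ℚ) ≤ 2 ^ k := by
      have := (Nat.lt_two_pow_self (n := k)).le
      exact_mod_cast this
    have h2 : x ≤ 2 ^ k := hk₁.trans (le_trans (by exact_mod_cast hk) h1)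
    rw [one_div, inv_pow, ← div_eq_mul_inv, div_le_one (by positivity)]
    exact h2
  obtain ⟨k₁, hk₁⟩ := e1 c
  obtain ⟨k₂, hk₂⟩ := e1 n
  refine ⟨max k₀ (max k₁ k₂), fun k hk w w' Q Q' r hw hw' hQ a1 a2 a3 a4 hr => ?_⟩
  have b0 : k₀ ≤ k := (le_max_left _ _).trans hk
  have b1 : k₁ ≤ k := ((le_max_left _ _).trans (le_max_right _ _)).trans hk
  have b2 : k₂ ≤ k := ((le_max_right _ _).trans (le_max_right _ _)).trans hk
  have h1 := hk₀ k b0 w w' Q Q' hw hw' hQ a1 a2 a3 a4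
  rw [htt] at h1
  simp only at h1
  rw [if_pos ⟨hk₁ k b1, hk₂ k b2⟩, if_pos ⟨hk₁ k b1, hk₂ k b2⟩] at h1
  have h2 : r ≤ n * (1 / 2) ^ k := by
    have h3 : (r : ℝ) ≤ ((n * (1 / 2) ^ k : ℚ) : ℝ) := by
      push_cast
      exact hr.trans (mul_le_mul_of_nonneg_right hn (by positivity))
    exact_mod_cast h3
  exact (N.incr hS hpos hy hw hw' (hk₁ k b1) hQ h2 (hk₂ k b2)).trans h1

end Pool.RCD
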