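import Pool.Agent.H91.LA.Sup
import Pool.Agent.H92.GN.Free

/-!
# First digits of natural quantities are free of the records

The quantities can depend on charts (`Pool.LA91.Qt`, `Pool.LA91.NN`). `Q k w` is the quantity over
the charts of the window `w`, with `c 2 ^ (-k) J` bits. If `Q k w'` is few bits given `Q k w` and
the record at `w'` (a change of charts), then the numbers `θ k w` are decreasing in `w`
(`NN.anti`); at almost every point their increments over the boxes of size `C 2 ^ (-k)` are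
`o (2 ^ (-k))` (`free_ae`), and then all functions of the record at `w'` have little information on
the quantity given the record at `w` (`NN.free`).
-/

set_option autoImplicit false

namespace Pool.LA91

open Finset Real
open Pool.Agent.H49.Ent Pool.Agent.H32.Dense Pool.STK Pool.KA Pool.KSAT Pool.K2S Pool.PB Pool.S6C
  Pool.GEN Pool.RCD

variable {m : ℕ} {U U' : Type} {α β γ α' β' γ' : ∀ J : ℕ, Fam m J → Type}
  {f : ∀ (J : ℕ) (F : Fam m J), F.Ω → α J F} {g : ∀ (J : ℕ) (F : Fam m J), F.Ω → β J F}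
  {f' : ∀ (J : ℕ) (F : Fam m J), F.Ω → α' J F} {g' : ∀ (J : ℕ) (F : Fam m J), F.Ω → β' J F}
  {y : ∀ (J : ℕ) (F : Fam m J), F.Ω → γ J F} {y' : ∀ (J : ℕ) (F : Fam m J), F.Ω → γ' J F}

theorem Mx.le {J : ℕ} {F : Fam m J} {A : F.Ω → Prop} {k k' : ℝ} (hk : k ≤ k') {V : Type}
    {z : F.Ω → V} (h : Mx f g k F A z) : Mx f g k' F A z :=
  ⟨h.1, fun V' z' hz' => (h.2 V' z' hz').trans
    (mul_le_mul_of_nonneg_right hk (Nat.cast_nonneg J))⟩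

/-- **The numbers decrease with the window.** -/
theorem NN.anti {S : PCl m} (hS : S.Ne)
    (hpos : ∀ (τ : ℝ) (J : ℕ) (F : Fam m J) (A : F.Ω → Prop), S.St τ J F A → 0 < Pe F.p A)
    (hf : ∀ (J : ℕ) (F : Fam m J), ∃ φ : α' J F → α J F, ∀ ω, f J F ω = φ (f' J F ω))
    (hg : ∀ (J : ℕ) (F : Fam m J), ∃ φ : β' J F → β J F, ∀ ω, g J F ω = φ (g' J F ω))
    (hy : ∀ (J : ℕ) (F : Fam m J), ∃ φ : γ' J F → γ J F, ∀ ω, y J F ω = φ (y' J F ω))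
    {η η' : ℝ} (hη : RNum S f g η) (hη' : RNum S f' g' η')
    {Q : Qt m U} {Q' : Qt m U'} {θ θ' : ℝ} (N : NN S f g y Q θ) (N' : NN S f' g' y' Q' θ')
    (x : Exs S Q) (x' : Exs S Q') (c : Few S f' g' y' Q Q') : θ' ≤ θ := by
  refine le_of_bas hS fun h hh => ?_
  obtain ⟨k1, hk1, e1, he1, H1⟩ := N (h / 4) (by positivity)
  obtain ⟨k2, hk2, e2, he2, H2⟩ := N' (h / 4) (by positivity)
  obtain ⟨e3, he3, H3⟩ := c.mx hpos (h / 4) (by positivity)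
  obtain ⟨e₀, he₀, l1, l2, l3⟩ : ∃ e₀ : ℝ, 0 < e₀ ∧ e₀ ≤ e1 ∧ e₀ ≤ e2 ∧ e₀ ≤ e3 :=
    ⟨min e1 (min e2 e3), by positivity, min_le_left _ _, (min_le_right _ _).trans (min_le_left _ _),
      (min_le_right _ _).trans (min_le_right _ _)⟩
  obtain ⟨k, hk, m1, m2, m3⟩ : ∃ k : ℝ, 0 < k ∧ k ≤ k1 ∧ k ≤ k2 ∧ k ≤ h / 4 / 2 :=
    ⟨min k1 (min k2 (h / 4 / 2)), by positivity, min_le_left _ _,
      (min_le_right _ _).trans (min_le_left _ _), (min_le_right _ _).trans (min_le_right _ _)⟩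
  obtain ⟨K₀, M₀, hx0⟩ := x e₀ he₀
  obtain ⟨K₁, M₁, hx1⟩ := x' e₀ he₀
  refine Bas.mono 0 ((((H1 (max K₀ K₁)).and (H2 (max K₀ K₁))).and (H3 (max K₀ K₁))).and
    ((hx0.and hx1).and (((mx_ex hpos hη k hk).and (mx_ex hpos hη' k hk)).and (pos_bas hpos)))) ?_
  rintro J - F A ⟨⟨⟨H1, H2⟩, H3⟩, ⟨⟨u, hu, -⟩, u', hu', -⟩, ⟨⟨V, z, hz⟩, V', z₀, hz₀⟩, hA⟩
  have hcl := isLaw_cond F.isLaw hA
  have hJ0 : (0 : ℝ) ≤ J := Nat.cast_nonneg J
  have hz' := hz.join hA (hf J F) (hg J F) hz₀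
  obtain ⟨χ, hχ⟩ := hy J F
  have a1 := (abs_le.1 (H1 V z (hz.le m1) u (Q.mono (le_max_left _ _) l1 hu))).2
  have a2 := (abs_le.1 (H2 _ _ (hz'.le m2) u' (Q'.mono (le_max_right _ _) l2 hu'))).1
  have a3 := H3 _ _ (hz'.le m3) u u' (Q.mono (le_max_left _ _) l3 hu)
    (Q'.mono (le_max_right _ _) l3 hu')
  have s1 := CH_le_add hcl.nonneg u' u (fun ω => ((z ω, z₀ ω), y' J F ω))
  have s2 : CH (Pool.Agent.H49.Ent.cond F.p A True) u (fun ω => ((z ω, z₀ ω), y' J F ω)) ≤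
      CH (Pool.Agent.H49.Ent.cond F.p A True) u (fun ω => (z ω, y J F ω)) := by
    refine CH_mono_cond hcl.nonneg fun ω ω' _ _ hh => ?_
    simp only [Prod.mk.injEq] at hh ⊢
    exact ⟨hh.1.1, by rw [hχ ω, hχ ω', hh.2]⟩
  have s3 : 0 ≤ h * J := by positivity
  nlinarith

/-- **Free of the records**: functions of the record at the finer window have little information on
the quantity given the record at the coarser window, up to the increment of the numbers. -/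
theorem NN.free {S : PCl m}
    (hpos : ∀ (τ : ℝ) (J : ℕ) (F : Fam m J) (A : F.Ω → Prop), S.St τ J F A → 0 < Pe F.p A)
    (hf : ∀ (J : ℕ) (F : Fam m J), ∃ φ : α' J F → α J F, ∀ ω, f J F ω = φ (f' J F ω))
    (hg : ∀ (J : ℕ) (F : Fam m J), ∃ φ : β' J F → β J F, ∀ ω, g J F ω = φ (g' J F ω))
    (hy : ∀ (J : ℕ) (F : Fam m J), ∃ φ : γ' J F → γ J F, ∀ ω, y J F ω = φ (y' J F ω))
    {Q : Qt m U} {Q' : Qt m U'} {θ θ' : ℝ} (N : NN S f g y Q θ) (N' : NN S f' g' y' Q' θ')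
    (x' : Exs S Q') (c : Few S f' g' y' Q Q') (h : ℝ) (hh : 0 < h) :
    ∃ k : ℝ, 0 < k ∧ ∃ e₀ : ℝ, 0 < e₀ ∧ ∀ K : ℕ, Bas S (fun J F A =>
      ∀ (V : Type) (z : F.Ω → V) (V' : Type) (z' : F.Ω → V'), Mx f g k F A z →
      Mx f' g' k F A z' → ∀ u, Q.P K e₀ J F A u → ∀ (Y Y' : Type) (v : F.Ω → Y) (v' : F.Ω → Y'),
      Det (Pool.Agent.H49.Ent.cond F.p A True) (fun ω => ((z ω, z' ω), y' J F ω)) v →
      Det (Pool.Agent.H49.Ent.cond F.p A True) (fun ω => ((z ω, z' ω), y' J F ω)) v' →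
      CH (Pool.Agent.H49.Ent.cond F.p A True) v (fun ω => (v' ω, (z ω, y J F ω))) ≤
        CH (Pool.Agent.H49.Ent.cond F.p A True) v (fun ω => (u ω, (v' ω, (z ω, y J F ω)))) +
          (θ - θ' + h) * J) := by
  obtain ⟨k1, hk1, e1, he1, H1⟩ := N (h / 4) (by positivity)
  obtain ⟨k2, hk2, e2, he2, H2⟩ := N' (h / 4) (by positivity)
  obtain ⟨e3, he3, H3⟩ := c.mx hpos (h / 4) (by positivity)
  obtain ⟨e₀, he₀, l1, l2, l3⟩ : ∃ e₀ : ℝ, 0 < e₀ ∧ e₀ ≤ e1 ∧ e₀ ≤ e2 ∧ e₀ ≤ e3 :=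
    ⟨min e1 (min e2 e3), by positivity, min_le_left _ _, (min_le_right _ _).trans (min_le_left _ _),
      (min_le_right _ _).trans (min_le_right _ _)⟩
  obtain ⟨k, hk, m1, m2, m3⟩ : ∃ k : ℝ, 0 < k ∧ k ≤ k1 ∧ k ≤ k2 ∧ k ≤ h / 4 / 2 :=
    ⟨min k1 (min k2 (h / 4 / 2)), by positivity, min_le_left _ _,
      (min_le_right _ _).trans (min_le_left _ _), (min_le_right _ _).trans (min_le_right _ _)⟩
  obtain ⟨K₁, M₁, hx1⟩ := x' e₀ he₀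
  refine ⟨k, hk, e₀, he₀, fun K => ?_⟩
  refine Bas.mono 0 ((((H1 (max K K₁)).and (H2 (max K K₁))).and (H3 (max K K₁))).and
    (hx1.and (pos_bas hpos))) ?_
  rintro J - F A ⟨⟨⟨H1, H2⟩, H3⟩, ⟨u', hu', -⟩, hA⟩ V z V' z' hz hz₀ u hu Y Y' v v' hv hv'
  have hcl := isLaw_cond F.isLaw hA
  have hJ0 : (0 : ℝ) ≤ J := Nat.cast_nonneg J
  have hz' := hz.join hA (hf J F) (hg J F) hz₀
  obtain ⟨χ, hχ⟩ := hy J F
  have a1 := (abs_le.1 (H1 V z (hz.le m1) u (Q.mono (le_max_left _ _) l1 hu))).2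
  have a2 := (abs_le.1 (H2 _ _ (hz'.le m2) u' (Q'.mono (le_max_right _ _) l2 hu'))).1
  have a3 := H3 _ _ (hz'.le m3) u u' (Q.mono (le_max_left _ _) l3 hu)
    (Q'.mono (le_max_right _ _) l3 hu')
  have s1 := CH_le_add hcl.nonneg u' u (fun ω => ((z ω, z' ω), y' J F ω))
  have key := free_info hcl u v v' (fun ω => (z ω, y J F ω))
    (fun ω => ((z ω, z' ω), y' J F ω)) (fun ω ω' _ _ hh => by
      simp only [Prod.mk.injEq] at hh ⊢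
      exact ⟨hh.1.1, by rw [hχ ω, hχ ω', hh.2]⟩) hv hv'
  have s3 : 0 ≤ h * J := by positivity
  nlinarith

/-- The numbers of a countable set of quantities exist in a subclass. -/
theorem nn_ext_ct {ι : Type} [Countable ι] {S : PCl m} (hS : S.Ne)
    (hpos : ∀ (τ : ℝ) (J : ℕ) (F : Fam m J) (A : F.Ω → Prop), S.St τ J F A → 0 < Pe F.p A)
    (U : ι → Type) (α β γ : ι → ∀ J : ℕ, Fam m J → Type)
    (f : ∀ (i : ι) (J : ℕ) (F : Fam m J), F.Ω → α i J F)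
    (g : ∀ (i : ι) (J : ℕ) (F : Fam m J), F.Ω → β i J F)
    (y : ∀ (i : ι) (J : ℕ) (F : Fam m J), F.Ω → γ i J F) (Q : ∀ i, Qt m (U i))
    (hex : ∀ i, Exs S (Q i)) (hfew : ∀ i, Few S (f i) (g i) (y i) (Q i) (Q i)) :
    ∃ S' : PCl m, S'.Ne ∧
      (∀ (τ : ℝ) (J : ℕ) (F : Fam m J) (A : F.Ω → Prop), S'.St τ J F A → S.St τ J F A) ∧
      ∀ i, ∃ θ : ℝ, NN S' (f i) (g i) (y i) (Q i) θ := by
  rcases isEmpty_or_nonempty ι with hE | hN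
  · exact ⟨S, hS, fun _ _ _ _ h => h, fun i => (hE.false i).elim⟩
  · obtain ⟨s, hs⟩ := exists_surjective_nat ι
    obtain ⟨S', h1, h2, h3⟩ := nn_ext hS hpos (fun n => U (s n)) (fun n => α (s n))
      (fun n => β (s n)) (fun n => γ (s n)) (fun n => f (s n)) (fun n => g (s n))
      (fun n => y (s n)) (fun n => Q (s n)) (fun n => hex (s n)) (fun n => hfew (s n))
    refine ⟨S', h1, h2, fun i => ?_⟩
    obtain ⟨n, rfl⟩ := hs i
    exact h3 n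

section ae

variable {U : ℕ → ℚ → Type} {α β : ℚ → ∀ J : ℕ, Fam m J → Type}
  {γ : ℕ → ℚ → ∀ J : ℕ, Fam m J → Type}

/-- **First digits are free at almost every point.** `Q k w`: quantities with `c 2 ^ (-k) J` bits
over the charts of the window `w`, with a change of charts (`chg`). -/
theorem free_ae {S : PCl m} (hS : S.Ne)
    (hpos : ∀ (τ : ℝ) (J : ℕ) (F : Fam m J) (A : F.Ω → Prop), S.St τ J F A → 0 < Pe F.p A)
    (f : ∀ (w : ℚ) (J : ℕ) (F : Fam m J), F.Ω → α w J F)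
    (g : ∀ (w : ℚ) (J : ℕ) (F : Fam m J), F.Ω → β w J F)
    (y : ∀ (k : ℕ) (w : ℚ) (J : ℕ) (F : Fam m J), F.Ω → γ k w J F)
    (hf : ∀ w w' : ℚ, w ≤ w' → ∀ (J : ℕ) (F : Fam m J), ∃ φ : α w' J F → α w J F,
      ∀ ω, f w J F ω = φ (f w' J F ω))
    (hg : ∀ w w' : ℚ, w ≤ w' → ∀ (J : ℕ) (F : Fam m J), ∃ φ : β w' J F → β w J F,
      ∀ ω, g w J F ω = φ (g w' J F ω))
    (hy : ∀ k (w w' : ℚ), w ≤ w' → ∀ (J : ℕ) (F : Fam m J), ∃ φ : γ k w' J F → γ k w J F,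
      ∀ ω, y k w J F ω = φ (y k w' J F ω))
    {A B c : ℝ} (hc : 0 ≤ c) {η : ℚ → ℝ}
    (hη : ∀ w : ℚ, A ≤ w → (w : ℝ) ≤ B → RNum S (f w) (g w) (η w))
    (Q : ∀ (k : ℕ) (w : ℚ), Qt m (U k w))
    (cnt' : ∀ k (w : ℚ), A ≤ w → (w : ℝ) ≤ B → ∀ e : ℝ, 0 < e → ∃ K : ℕ, Bas S (fun J F A =>
      ∃ u, (Q k w).P K e J F A u ∧ (cnt F.p u A : ℝ) ≤ Real.exp (c * (1 / 2) ^ k * J)))
    (chg : ∀ k (w w' : ℚ), A ≤ w → w ≤ w' → (w' : ℝ) ≤ B →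
      Few S (f w') (g w') (y k w') (Q k w) (Q k w'))
    {θ : ℕ → ℚ → ℝ}
    (N : ∀ k (w : ℚ), A ≤ w → (w : ℝ) ≤ B → NN S (f w) (g w) (y k w) (Q k w) (θ k w)) :
    ∀ᵐ w₀ : ℝ, w₀ ∈ Set.Ioo A B → ∀ C ε : ℝ, 0 < C → 0 < ε → ∃ k₀ : ℕ, ∀ k ≥ k₀, ∀ w w' : ℚ,
      w ≤ w' → |(w : ℝ) - w₀| ≤ C * (1 / 2) ^ k → |(w' : ℝ) - w₀| ≤ C * (1 / 2) ^ k →
      θ k w - θ k w' ≤ ε * (1 / 2) ^ k := by
  have hE : ∀ k (w : ℚ), A ≤ w → (w : ℝ) ≤ B → Exs S (Q k w) := by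
    intro k w h1 h2 e he
    obtain ⟨K, hK⟩ := cnt' k w h1 h2 e he
    exact ⟨K, _, hK⟩
  have han : ∀ k (w w' : ℚ), A ≤ w → w ≤ w' → (w' : ℝ) ≤ B → θ k w' ≤ θ k w := by
    intro k w w' h1 h2 h3
    have h2' : (w : ℝ) ≤ w' := by exact_mod_cast h2
    exact NN.anti hS hpos (hf w w' h2) (hg w w' h2) (hy k w w' h2) (hη w h1 (h2'.trans h3))
      (hη w' (h1.trans h2') h3) (N k w h1 (h2'.trans h3)) (N k w' (h1.trans h2') h3)
      (hE k w h1 (h2'.trans h3)) (hE k w' (h1.trans h2') h3) (chg k w w' h1 h2 h3)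
  have h0 : ∀ k (w : ℚ), A ≤ w → (w : ℝ) ≤ B → 0 ≤ θ k w := fun k w h1 h2 =>
    NN.nonneg hS hpos (hη w h1 h2) (N k w h1 h2) (hE k w h1 h2)
  have hle : ∀ k (w : ℚ), A ≤ w → (w : ℝ) ≤ B → θ k w ≤ c * (1 / 2) ^ k := fun k w h1 h2 =>
    NN.le_cnt hS hpos (hη w h1 h2) (N k w h1 h2) (cnt' k w h1 h2)
  -- the extension to the real numbers
  obtain ⟨G, hG⟩ : ∃ G : ℕ → ℝ → ℝ, G = fun (k : ℕ) (x : ℝ) => sSup {t : ℝ | t = 0 ∨
    ∃ w : ℚ, A ≤ w ∧ (w : ℝ) ≤ B ∧ x ≤ (w : ℝ) ∧ t = θ k w} := ⟨_, rfl⟩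
  have hbd : ∀ (k : ℕ) (x : ℝ), BddAbove {t : ℝ | t = 0 ∨
      ∃ w : ℚ, A ≤ w ∧ (w : ℝ) ≤ B ∧ x ≤ (w : ℝ) ∧ t = θ k w} := by
    intro k x
    refine ⟨c * (1 / 2) ^ k, ?_⟩
    rintro t (rfl | ⟨w, h1, h2, -, rfl⟩)
    · positivity
    · exact hle k w h1 h2
  have hG0 : ∀ k x, 0 ≤ G k x := by
    intro k x
    rw [hG]
    exact le_csSup (hbd k x) (Or.inl rfl)
  have hGc : ∀ k x, G k x ≤ c * (1 / 2) ^ k := by
    intro k x
    rw [hG]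
    refine csSup_le ⟨0, Or.inl rfl⟩ ?_
    rintro t (rfl | ⟨w, h1, h2, -, rfl⟩)
    · positivity
    · exact hle k w h1 h2
  have hGa : ∀ k, Antitone (G k) := by
    intro k x x' hx
    rw [hG]
    refine csSup_le ⟨0, Or.inl rfl⟩ ?_
    rintro t (rfl | ⟨w, h1, h2, h3, rfl⟩)
    · exact le_csSup (hbd k x) (Or.inl rfl)
    · exact le_csSup (hbd k x) (Or.inr ⟨w, h1, h2, hx.trans h3, rfl⟩)
  have hGe : ∀ k (w : ℚ), A ≤ w → (w : ℝ) ≤ B → G k w = θ k w := by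
    intro k w h1 h2
    rw [hG]
    refine le_antisymm (csSup_le ⟨0, Or.inl rfl⟩ ?_) (le_csSup (hbd k w)
      (Or.inr ⟨w, h1, h2, le_rfl, rfl⟩))
    rintro t (rfl | ⟨w', h3, h4, h5, rfl⟩)
    · exact h0 k w h1 h2
    · exact han k w w' h1 (by exact_mod_cast h5) h4
  filter_upwards [ae_small G c hG0 hGc hGa] with w₀ hw₀ hAB C ε hC hε
  obtain ⟨k₁, hk₁⟩ := hw₀ C ε hC hε
  have e1 : Filter.Tendsto (fun k : ℕ => C * (1 / 2 : ℝ) ^ k) Filter.atTop (nhds (C * 0)) :=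
    (tendsto_pow_atTop_nhds_zero_of_lt_one (by norm_num) (by norm_num)).const_mul C
  rw [mul_zero] at e1
  have hd : 0 < min (w₀ - A) (B - w₀) := lt_min (by linarith [hAB.1]) (by linarith [hAB.2])
  obtain ⟨k₂, hk₂⟩ := (e1.eventually (gt_mem_nhds hd)).exists_forall_of_atTop
  refine ⟨max k₁ k₂, fun k hk w w' hww a1 a2 => ?_⟩
  have b1 := hk₁ k ((le_max_left _ _).trans hk)
  have b2 := hk₂ k ((le_max_right _ _).trans hk)
  have b3 := b2.trans_le (min_le_left _ _)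
  have b4 := b2.trans_le (min_le_right _ _)
  have c1 := (abs_le.1 a1).1
  have c2 := (abs_le.1 a2).2
  have hww' : (w : ℝ) ≤ w' := by exact_mod_cast hww
  have d1 := hGa k (show w₀ - C * (1 / 2) ^ k ≤ (w : ℝ) by linarith)
  have d2 := hGa k (show (w' : ℝ) ≤ w₀ + C * (1 / 2) ^ k by linarith)
  rw [hGe k w (by linarith) (by linarith)] at d1
  rw [hGe k w' (by linarith) (by linarith)] at d2
  linarith

end ae

end Pool.LA91
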