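import Mathlib

/-!
# Monotone functions of two variables are differentiable almost everywhere

`stepanov`: a function is differentiable at almost every point at which its difference quotients
are bounded. `ae_diff2`: a monotone function of two variables is differentiable at almost every
point.
-/

set_option autoImplicit false

namespace Pool.M2D

open MeasureTheory Set Filter Topology Metric TopologicalSpace
open scoped ENNReal NNReal

/-! ### Density points -/

/-- At almost every point `p` of a set there are points of the set near every point near `p`. -/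
theorem dens (s : Set (ℝ × ℝ)) : ∀ᵐ p : ℝ × ℝ, p ∈ s → ∀ ε : ℝ, 0 < ε → ∃ δ : ℝ, 0 < δ ∧
    ∀ y, y ≠ p → dist y p < δ → ∃ y' ∈ s, dist y' y < ε * dist y p := by
  have h := ae_imp_of_ae_restrict (Besicovitch.ae_tendsto_measure_inter_div
    (volume : Measure (ℝ × ℝ)) s)
  filter_upwards [h] with p hp hps ε hε
  have h1 := hp hps
  obtain ⟨e, he⟩ : ∃ e, e = min ε 1 := ⟨_, rfl⟩
  have he0 : 0 < e := by rw [he]; exact lt_min hε one_pos
  have he1 : e ≤ 1 := by rw [he]; exact min_le_right _ _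
  have heε : e ≤ ε := by rw [he]; exact min_le_left _ _
  -- the ratio of the volumes
  obtain ⟨c, hc⟩ : ∃ c : ℝ, c = 1 - (e / 4) ^ 2 := ⟨_, rfl⟩
  have hc0 : 0 ≤ c := by rw [hc]; nlinarith only [he1, he0]
  have hc1 : c < 1 := by
    rw [hc]
    have : 0 < (e / 4) ^ 2 := by positivity
    linarith only [this]
  have hev : ∀ᶠ r in 𝓝[>] (0 : ℝ), ENNReal.ofReal c <
      volume (s ∩ closedBall p r) / volume (closedBall p r) := by
    refine (tendsto_order.1 h1).1 _ ?_
    rw [← ENNReal.ofReal_one]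
    exact (ENNReal.ofReal_lt_ofReal_iff one_pos).2 hc1
  rw [eventually_nhdsWithin_iff, Metric.eventually_nhds_iff] at hev
  obtain ⟨δ, hδ, hδ'⟩ := hev
  refine ⟨δ / 2, half_pos hδ, fun y hy hyd => ?_⟩
  by_contra hcon
  push Not at hcon
  obtain ⟨r, hr⟩ : ∃ r, r = dist y p := ⟨_, rfl⟩
  have hr0 : 0 < r := by rw [hr]; exact dist_pos.2 hy
  have h2 := hδ' (y := 2 * r) (by
    rw [Real.dist_eq, sub_zero, abs_of_pos (by linarith only [hr0])]
    rw [hr]
    linarith only [hyd]) (by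
    show (0 : ℝ) < 2 * r
    linarith only [hr0])
  -- volumes
  exact by
   have vol : ∀ (x : ℝ × ℝ) (ρ : ℝ), 0 ≤ ρ → volume (closedBall x ρ) =
       ENNReal.ofReal ((2 * ρ) ^ 2) := by
     intro x ρ hρ
     rw [← closedBall_prod_same, Measure.volume_eq_prod, Measure.prod_prod, Real.volume_closedBall,
       Real.volume_closedBall, ← ENNReal.ofReal_mul (by positivity)]
     congr 1
     ring
   have hsub : closedBall y (e * r / 2) ⊆ closedBall p (2 * r) := by
     refine closedBall_subset_closedBall' ?_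
     rw [← hr]
     nlinarith only [hr0, he1]
   have hdis : s ∩ closedBall p (2 * r) ⊆ closedBall p (2 * r) \ closedBall y (e * r / 2) := by
     rintro x ⟨hx1, hx2⟩
     refine ⟨hx2, fun hx3 => ?_⟩
     have h3 := hcon x hx1
     have h4 := mem_closedBall.1 hx3
     rw [← hr] at h3
     nlinarith only [h3, h4, hε, hr0, heε]
   have h3 : volume (s ∩ closedBall p (2 * r)) ≤ ENNReal.ofReal (c * (4 * r) ^ 2) := by
     refine (measure_mono hdis).trans ?_
     rw [measure_sdiff hsub measurableSet_closedBall.nullMeasurableSet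
       (by rw [vol _ _ (by positivity)]; exact ENNReal.ofReal_ne_top), vol _ _ (by positivity),
       vol _ _ (by positivity), ← ENNReal.ofReal_sub _ (by positivity)]
     refine ENNReal.ofReal_le_ofReal (le_of_eq ?_)
     rw [hc]
     ring
   have h4 : volume (closedBall p (2 * r)) = ENNReal.ofReal ((4 * r) ^ 2) := by
     rw [vol _ _ (by positivity)]
     congr 1
     ring
   exact by
    rw [h4] at h2
    have h5 : 0 < (4 * r) ^ 2 := by positivity
    have h6 : ENNReal.ofReal c * ENNReal.ofReal ((4 * r) ^ 2) <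
        volume (s ∩ closedBall p (2 * r)) := by
      rw [ENNReal.lt_div_iff_mul_lt (Or.inl (by
        rw [Ne, ENNReal.ofReal_eq_zero, not_le]
        exact h5)) (Or.inl ENNReal.ofReal_ne_top)] at h2
      exact h2
    rw [← ENNReal.ofReal_mul hc0] at h6
    exact absurd h3 (not_le.2 h6)

/-! ### Stepanov -/

/-- **Stepanov's theorem** in the plane. -/
theorem stepanov (f : ℝ × ℝ → ℝ) : ∀ᵐ p : ℝ × ℝ, (∃ (N δ : ℝ), 0 < δ ∧
    ∀ y, dist y p < δ → |f y - f p| ≤ N * dist y p) → DifferentiableAt ℝ f p := by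
  -- the sets
  obtain ⟨E, hE⟩ : ∃ E : ℕ → Set (ℝ × ℝ), E = fun (N : ℕ) =>
    {p | ∀ y, dist y p < 1 / ((N : ℝ) + 1) → |f y - f p| ≤ N * dist y p} := ⟨_, rfl⟩
  obtain ⟨S, hS⟩ : ∃ S : ℕ → ℕ → Set (ℝ × ℝ), S = fun (N i : ℕ) =>
    E N ∩ ball (denseSeq (ℝ × ℝ) i) (1 / ((N : ℝ) + 1) / 2) := ⟨_, rfl⟩
  have key : ∀ N i : ℕ, ∀ᵐ p : ℝ × ℝ, p ∈ S N i → DifferentiableAt ℝ f p := by
    intro N i
    have hN : (0 : ℝ) < 1 / ((N : ℝ) + 1) := by positivity
    have hlip : LipschitzOnWith (N : ℝ≥0) f (S N i) := by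
      refine LipschitzOnWith.of_dist_le_mul fun x hx y hy => ?_
      rw [hS] at hx hy
      have hx1 := hx.1
      rw [hE] at hx1
      have hd : dist y x < 1 / ((N : ℝ) + 1) := by
        have a := mem_ball.1 hx.2
        have b := mem_ball.1 hy.2
        have c := dist_triangle_right y x (denseSeq (ℝ × ℝ) i)
        linarith only [a, b, c]
      have := hx1 y hd
      rw [Real.dist_eq, abs_sub_comm, dist_comm x y]
      exact_mod_cast this
    obtain ⟨g, hg, hgf⟩ := hlip.extend_real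
    filter_upwards [hg.ae_differentiableAt, dens (S N i)] with p hp hd hpS
    obtain ⟨L, hL⟩ : ∃ L, L = fderiv ℝ g p := ⟨_, rfl⟩
    have hgd : HasFDerivAt g L p := by
      rw [hL]
      exact hp.hasFDerivAt
    refine HasFDerivAt.differentiableAt (f' := L) ?_
    rw [hasFDerivAt_iff_isLittleO] at hgd ⊢
    rw [Asymptotics.isLittleO_iff]
    intro c hc
    -- the parameters
    obtain ⟨ε, hε⟩ : ∃ ε, ε = min 1 (c / (2 * (N + ‖L‖ + 1))) := ⟨_, rfl⟩
    have hpos : 0 < 2 * ((N : ℝ) + ‖L‖ + 1) := by positivity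
    have hε0 : 0 < ε := by
      rw [hε]
      exact lt_min one_pos (div_pos hc hpos)
    have hε1 : ε ≤ 1 := by rw [hε]; exact min_le_left _ _
    have hε2 : ε * (2 * (N + ‖L‖ + 1)) ≤ c := by
      have : ε ≤ c / (2 * (N + ‖L‖ + 1)) := by rw [hε]; exact min_le_right _ _
      rwa [le_div_iff₀ hpos] at this
    obtain ⟨δ₁, hδ₁, h1⟩ := hd hpS ε hε0
    have h2 := (Asymptotics.isLittleO_iff.1 hgd) (show 0 < c / 4 by linarith only [hc])
    rw [Metric.eventually_nhds_iff] at h2 ⊢
    obtain ⟨δ₂, hδ₂, h2⟩ := h2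
    refine ⟨min δ₁ (min (δ₂ / 2) (1 / ((N : ℝ) + 1))), lt_min hδ₁ (lt_min (half_pos hδ₂) hN),
      fun y hy => ?_⟩
    rcases eq_or_ne y p with rfl | hne
    · simp
    have y1 : dist y p < δ₁ := lt_of_lt_of_le hy (min_le_left _ _)
    have y2 : dist y p < δ₂ / 2 := lt_of_lt_of_le hy ((min_le_right _ _).trans (min_le_left _ _))
    have y3 : dist y p < 1 / ((N : ℝ) + 1) :=
      lt_of_lt_of_le hy ((min_le_right _ _).trans (min_le_right _ _))
    obtain ⟨y', hy'S, hy'⟩ := h1 y hne y1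
    have hr0 : 0 < dist y p := dist_pos.2 hne
    obtain ⟨r, hr⟩ : ∃ r, r = dist y p := ⟨_, rfl⟩
    rw [← hr] at hy' hr0 y2 y3
    have d1 : dist y' p ≤ 2 * r := by
      have := dist_triangle y' y p
      rw [← hr] at this
      nlinarith only [hy', this, hε1, hr0]
    have h3 := h2 (y := y') (by linarith only [y2, d1])
    rw [← hgf hy'S, ← hgf hpS] at h3
    have hy'E : y' ∈ E N := by
      rw [hS] at hy'S
      exact hy'S.1
    rw [hE] at hy'E
    have h4 : |f y - f y'| ≤ N * dist y y' := hy'E y (by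
      rw [dist_comm]
      nlinarith only [hy', hN, hε1, hε0, y3])
    have h5 : ‖L (y - y')‖ ≤ ‖L‖ * dist y y' := by
      rw [dist_eq_norm]
      exact L.le_opNorm _
    rw [dist_comm y y'] at h4 h5
    have e1 : f y - f p - L (y - p) = (f y - f y') + (f y' - f p - L (y' - p)) -
        L (y - y') := by
      rw [map_sub, map_sub, map_sub]
      ring
    rw [e1]
    have t1 := norm_sub_le ((f y - f y') + (f y' - f p - L (y' - p))) (L (y - y'))
    have t2 := norm_add_le (f y - f y') (f y' - f p - L (y' - p))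
    rw [← dist_eq_norm y' p] at h3
    rw [← dist_eq_norm y p, ← hr]
    have h6 : ‖f y - f y'‖ ≤ N * dist y' y := by rwa [Real.norm_eq_abs]
    have hN0 : (0 : ℝ) ≤ N := Nat.cast_nonneg N
    have hL0 : 0 ≤ ‖L‖ := norm_nonneg L
    have h7 : N * dist y' y ≤ N * (ε * r) := mul_le_mul_of_nonneg_left hy'.le hN0
    have h8 : ‖L‖ * dist y' y ≤ ‖L‖ * (ε * r) := mul_le_mul_of_nonneg_left hy'.le hL0
    have h9 : c / 4 * dist y' p ≤ c / 4 * (2 * r) := mul_le_mul_of_nonneg_left d1 (by linarith only [hc])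
    have h10 : (N + ‖L‖) * (ε * r) ≤ c / 2 * r := by
      have : (N + ‖L‖) * ε ≤ c / 2 := by nlinarith only [hε0, hε2]
      calc (N + ‖L‖) * (ε * r) = (N + ‖L‖) * ε * r := by ring
        _ ≤ c / 2 * r := mul_le_mul_of_nonneg_right this hr0.le
    nlinarith only [h3, h5, t1, t2, h6, h7, h8, h9, h10]
  exact by
   have key' := ae_all_iff.2 fun N => ae_all_iff.2 fun i => key N i
   filter_upwards [key'] with p hp hN
   obtain ⟨N, δ, hδ, hNδ⟩ := hN
   obtain ⟨n₁, hn₁⟩ := exists_nat_ge N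
   obtain ⟨n₂, hn₂⟩ := exists_nat_one_div_lt hδ
   obtain ⟨n, hn⟩ : ∃ n, n = max n₁ n₂ := ⟨_, rfl⟩
   have hnE : p ∈ E n := by
     rw [hE]
     intro y hy
     have h1 : (1 : ℝ) / ((n : ℝ) + 1) ≤ 1 / ((n₂ : ℝ) + 1) := by
       refine one_div_le_one_div_of_le (by positivity) ?_
       have : (n₂ : ℝ) ≤ n := by
         rw [hn]
         exact_mod_cast le_max_right _ _
       linarith only [this]
     have h2 := hNδ y (by linarith only [hn₂, hy, h1])
     refine h2.trans (mul_le_mul_of_nonneg_right ?_ dist_nonneg)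
     refine hn₁.trans ?_
     rw [hn]
     exact_mod_cast le_max_left _ _
   have hn0 : (0 : ℝ) < 1 / ((n : ℝ) + 1) / 2 := by positivity
   obtain ⟨i, hi⟩ : ∃ i, dist p (denseSeq (ℝ × ℝ) i) < 1 / ((n : ℝ) + 1) / 2 := by
     obtain ⟨x, hx, i, rfl⟩ := Metric.dense_iff.1 (denseRange_denseSeq (ℝ × ℝ)) p _ hn0
     exact ⟨i, by
       have := mem_ball.1 hx
       rwa [dist_comm] at this⟩
   refine hp n i ?_
   rw [hS]
   exact ⟨hnE, mem_ball.2 hi⟩

/-! ### Monotone functions -/

/-- The upper regularisation. -/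
noncomputable def upr (f : ℝ × ℝ → ℝ) (p : ℝ × ℝ) : ℝ :=
  sInf {x | ∃ a b : ℚ, p.1 < a ∧ p.2 < b ∧ x = f (a, b)}

section mono

variable {f : ℝ × ℝ → ℝ} (hf : Monotone f)

theorem upr_ne (f : ℝ × ℝ → ℝ) (p : ℝ × ℝ) :
    {x | ∃ a b : ℚ, p.1 < a ∧ p.2 < b ∧ x = f (a, b)}.Nonempty := by
  obtain ⟨a, ha⟩ := exists_rat_gt p.1
  obtain ⟨b, hb⟩ := exists_rat_gt p.2
  exact ⟨_, a, b, ha, hb, rfl⟩

include hf

theorem upr_bdd (p : ℝ × ℝ) :
    BddBelow {x | ∃ a b : ℚ, p.1 < a ∧ p.2 < b ∧ x = f (a, b)} := by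
  refine ⟨f p, ?_⟩
  rintro x ⟨a, b, h1, h2, rfl⟩
  exact hf ⟨h1.le, h2.le⟩

theorem le_upr (p : ℝ × ℝ) : f p ≤ upr f p := by
  refine le_csInf (upr_ne f p) ?_
  rintro x ⟨a, b, h1, h2, rfl⟩
  exact hf ⟨h1.le, h2.le⟩

theorem upr_le {p q : ℝ × ℝ} (h1 : p.1 < q.1) (h2 : p.2 < q.2) : upr f p ≤ f q := by
  obtain ⟨a, ha, ha'⟩ := exists_rat_btwn h1
  obtain ⟨b, hb, hb'⟩ := exists_rat_btwn h2
  refine (csInf_le (upr_bdd hf p) ⟨a, b, ha, hb, rfl⟩).trans ?_
  exact hf ⟨ha'.le, hb'.le⟩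

theorem upr_mono : Monotone (upr f) := by
  intro p q hpq
  refine le_csInf (upr_ne f q) ?_
  rintro x ⟨a, b, h1, h2, rfl⟩
  exact csInf_le (upr_bdd hf p) ⟨a, b, hpq.1.trans_lt h1, hpq.2.trans_lt h2, rfl⟩

theorem upr_meas : Measurable (upr f) := by
  refine measurable_of_Iio fun c => ?_
  have e : upr f ⁻¹' Iio c = ⋃ (a : ℚ) (b : ℚ) (_ : f (a, b) < c),
      {p : ℝ × ℝ | p.1 < a ∧ p.2 < b} := by
    ext p
    simp only [mem_preimage, mem_Iio, mem_iUnion, mem_ofPred_eq, exists_prop]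
    constructor
    · intro h
      obtain ⟨x, ⟨a, b, h1, h2, rfl⟩, hx⟩ := (csInf_lt_iff (upr_bdd hf p) (upr_ne f p)).1 h
      exact ⟨a, b, hx, h1, h2⟩
    · rintro ⟨a, b, hx, h1, h2⟩
      exact (csInf_le (upr_bdd hf p) ⟨a, b, h1, h2, rfl⟩).trans_lt hx
  rw [e]
  refine MeasurableSet.iUnion fun a => MeasurableSet.iUnion fun b =>
    MeasurableSet.iUnion fun _ => ?_
  exact (measurableSet_lt measurable_fst measurable_const).inter
    (measurableSet_lt measurable_snd measurable_const)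

/-- The difference quotients are bounded at almost every point. -/
theorem quo : ∀ᵐ p : ℝ × ℝ, ∃ (N δ : ℝ), 0 < δ ∧
    ∀ y, dist y p < δ → |f y - f p| ≤ N * dist y p := by
  obtain ⟨D, hD⟩ : ∃ D : Set (ℝ × ℝ), D = {p | ∃ n : ℕ, ∀ h : ℚ, 0 < h →
      (h : ℝ) < 1 / ((n : ℝ) + 1) → upr f (p.1 + h, p.2 + h) - upr f (p.1 - h, p.2 - h) ≤
        n * h} := ⟨_, rfl⟩
  have hDm : MeasurableSet D := by
    have e : D = ⋃ n : ℕ, ⋂ (h : ℚ) (_ : 0 < h) (_ : (h : ℝ) < 1 / ((n : ℝ) + 1)),
        {p : ℝ × ℝ | upr f (p.1 + h, p.2 + h) - upr f (p.1 - h, p.2 - h) ≤ n * h} := by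
      rw [hD]
      ext p
      simp only [mem_ofPred_eq, mem_iUnion, mem_iInter]
    rw [e]
    refine MeasurableSet.iUnion fun n => MeasurableSet.iInter fun h =>
      MeasurableSet.iInter fun _ => MeasurableSet.iInter fun _ => ?_
    refine measurableSet_le ?_ measurable_const
    exact ((upr_meas hf).comp ((measurable_fst.add_const _).prodMk
      (measurable_snd.add_const _))).sub ((upr_meas hf).comp
        ((measurable_fst.sub_const _).prodMk (measurable_snd.sub_const _)))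
  -- the diagonal lines
  have h1 : ∀ c : ℝ, ∀ᵐ s : ℝ, (s, s + c) ∈ D := by
    intro c
    obtain ⟨g, hg⟩ : ∃ g : ℝ → ℝ, g = fun s => upr f (s, s + c) := ⟨_, rfl⟩
    have hgm : Monotone g := by
      intro s s' hs
      rw [hg]
      exact upr_mono hf ⟨hs, by simpa using hs⟩
    filter_upwards [hgm.ae_differentiableAt] with s hs
    obtain ⟨L, hL⟩ : ∃ L, L = deriv g s := ⟨_, rfl⟩
    have hd : HasDerivAt g L s := by
      rw [hL]
      exact hs.hasDerivAt
    rw [hasDerivAt_iff_isLittleO] at hd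
    have h2 := hd.def one_pos
    rw [Metric.eventually_nhds_iff] at h2
    obtain ⟨δ, hδ, h2⟩ := h2
    obtain ⟨n₁, hn₁⟩ := exists_nat_ge (2 * (|L| + 1))
    obtain ⟨n₂, hn₂⟩ := exists_nat_one_div_lt hδ
    rw [hD]
    refine ⟨max n₁ n₂, fun h h0 h3 => ?_⟩
    have h0' : (0 : ℝ) < h := by exact_mod_cast h0
    have h4 : (h : ℝ) < δ := by
      refine h3.trans (lt_of_le_of_lt ?_ hn₂)
      refine one_div_le_one_div_of_le (by positivity) ?_
      have : (n₂ : ℝ) ≤ ((max n₁ n₂ : ℕ) : ℝ) := by exact_mod_cast le_max_right _ _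
      linarith only [this]
    have b1 := h2 (y := s + h) (by
      rw [Real.dist_eq]
      have : s + h - s = h := by ring
      rw [this, abs_of_pos h0']
      exact h4)
    have b2 := h2 (y := s - h) (by
      rw [Real.dist_eq]
      have : s - h - s = -h := by ring
      rw [this, abs_neg, abs_of_pos h0']
      exact h4)
    simp only [Real.norm_eq_abs, smul_eq_mul, one_mul] at b1 b2
    have c1 : s + h - s = h := by ring
    have c2 : s - h - s = -h := by ring
    rw [c1, abs_of_pos h0'] at b1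
    rw [c2, abs_neg, abs_of_pos h0'] at b2
    have b3 := (abs_le.1 b1).2
    have b4 := (abs_le.1 b2).1
    have hLa := le_abs_self L
    have e1 : upr f ((s, s + c).1 + h, (s, s + c).2 + h) = g (s + h) := by
      rw [hg]
      simp only
      congr 2
      ring
    have e2 : upr f ((s, s + c).1 - h, (s, s + c).2 - h) = g (s - h) := by
      rw [hg]
      simp only
      congr 2
      ring
    rw [e1, e2]
    have h5 : (n₁ : ℝ) ≤ ((max n₁ n₂ : ℕ) : ℝ) := by exact_mod_cast le_max_left _ _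
    have h6 : 2 * (|L| + 1) * h ≤ ((max n₁ n₂ : ℕ) : ℝ) * h :=
      mul_le_mul_of_nonneg_right (hn₁.trans h5) h0'.le
    nlinarith only [b3, b4, h6, h0', hLa]
  exact by
   have h2 : ∀ᵐ z : ℝ × ℝ, (z.2, z.2 + z.1) ∈ D := by
     have hm : MeasurableSet {z : ℝ × ℝ | (z.2, z.2 + z.1) ∈ D} :=
       (measurable_snd.prodMk (measurable_snd.add measurable_fst)) hDm
     have := (Measure.ae_prod_mem_iff_ae_ae_mem (μ := (volume : Measure ℝ))
       (ν := (volume : Measure ℝ)) hm).2 (Eventually.of_forall fun c => h1 c)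
     rw [Measure.volume_eq_prod]
     exact this
   have h3 : ∀ᵐ p : ℝ × ℝ, p ∈ D := by
     have hmp : MeasurePreserving (fun z : ℝ × ℝ => (z.2, z.2 + z.1))
         (volume.prod volume) (volume.prod volume) :=
       (measurePreserving_prod_add (volume : Measure ℝ) (volume : Measure ℝ)).comp
         (Measure.measurePreserving_swap (μ := (volume : Measure ℝ)) (ν := (volume : Measure ℝ)))
     rw [Measure.volume_eq_prod] at h2 ⊢
     rw [← hmp.map_eq]
     exact (ae_map_iff hmp.measurable.aemeasurable (p := fun p => p ∈ D) hDm).2 h2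
   filter_upwards [h3] with p hp
   rw [hD] at hp
   obtain ⟨n, hn⟩ := hp
   refine ⟨4 * n, 1 / ((n : ℝ) + 1) / 4, by positivity, fun y hy => ?_⟩
   rcases eq_or_ne y p with rfl | hne
   · simp
   obtain ⟨h, hh⟩ : ∃ h, h = dist y p := ⟨_, rfl⟩
   have h0 : 0 < h := by rw [hh]; exact dist_pos.2 hne
   rw [← hh] at hy ⊢
   obtain ⟨h', a1, a2⟩ := exists_rat_btwn (show 2 * h < 4 * h by linarith only [h0])
   have k1 := hn h' (by
     have : (0 : ℝ) < h' := by linarith only [h0, a1]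
     exact_mod_cast this) (by linarith only [hy, a2])
   have d1 : |y.1 - p.1| ≤ h := by
     rw [hh, Prod.dist_eq, ← Real.dist_eq]
     exact le_max_left _ _
   exact by
    have d2 : |y.2 - p.2| ≤ h := by
      rw [hh, Prod.dist_eq, ← Real.dist_eq]
      exact le_max_right _ _
    have d1' := abs_le.1 d1
    have d2' := abs_le.1 d2
    have u1 : f y ≤ f (p.1 + h, p.2 + h) := hf ⟨by
      show y.1 ≤ p.1 + h
      linarith only [d1'], by
      show y.2 ≤ p.2 + h
      linarith only [d2']⟩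
    have u2 : f (p.1 - h, p.2 - h) ≤ f y := hf ⟨by
      show p.1 - h ≤ y.1
      linarith only [d1'], by
      show p.2 - h ≤ y.2
      linarith only [d2']⟩
    have u3 : f p ≤ f (p.1 + h, p.2 + h) := hf ⟨by
      show p.1 ≤ p.1 + h
      linarith only [h0], by
      show p.2 ≤ p.2 + h
      linarith only [h0]⟩
    have u4 : f (p.1 - h, p.2 - h) ≤ f p := hf ⟨by
      show p.1 - h ≤ p.1
      linarith only [h0], by
      show p.2 - h ≤ p.2
      linarith only [h0]⟩
    have u5 : f (p.1 + h, p.2 + h) ≤ upr f (p.1 + h', p.2 + h') :=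
      (le_upr hf _).trans (upr_mono hf ⟨by
        show p.1 + h ≤ p.1 + h'
        linarith only [h0, a1], by
        show p.2 + h ≤ p.2 + h'
        linarith only [h0, a1]⟩)
    exact by
     have u6 : upr f (p.1 - h', p.2 - h') ≤ f (p.1 - h, p.2 - h) := upr_le hf (by
       show p.1 - h' < p.1 - h
       linarith only [h0, a1]) (by
       show p.2 - h' < p.2 - h
       linarith only [h0, a1])
     have hn0 : (0 : ℝ) ≤ n := Nat.cast_nonneg n
     have k2 : (n : ℝ) * h' ≤ n * (4 * h) := mul_le_mul_of_nonneg_left a2.le hn0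
     rw [abs_le]
     constructor <;> linarith

/-- **Monotone functions of two variables are differentiable almost everywhere.** -/
theorem ae_diff2 : ∀ᵐ p : ℝ × ℝ, DifferentiableAt ℝ f p := by
  filter_upwards [stepanov f, quo hf] with p h1 h2 using h1 h2

end mono

/-- The same for functions which are increasing in the first and decreasing in the second
variable. -/
theorem ae_diff2' {f : ℝ × ℝ → ℝ} (h1 : ∀ y, Monotone fun x => f (x, y))
    (h2 : ∀ x, Antitone fun y => f (x, y)) : ∀ᵐ p : ℝ × ℝ, DifferentiableAt ℝ f p := by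
  obtain ⟨g, hg⟩ : ∃ g : ℝ × ℝ → ℝ, g = fun p => f (p.1, -p.2) := ⟨_, rfl⟩
  have hgm : Monotone g := by
    intro p q hpq
    rw [hg]
    exact (h1 (-p.2) hpq.1).trans (h2 q.1 (neg_le_neg hpq.2))
  have hmp : MeasurePreserving (fun p : ℝ × ℝ => (p.1, -p.2)) (volume.prod volume)
      (volume.prod volume) :=
    (MeasurePreserving.id (volume : Measure ℝ)).prod (Measure.measurePreserving_neg
      (volume : Measure ℝ))
  have h3 := ae_diff2 hgm
  rw [Measure.volume_eq_prod] at h3 ⊢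
  filter_upwards [hmp.quasiMeasurePreserving.ae h3] with p hp
  have e : f = g ∘ fun p : ℝ × ℝ => (p.1, -p.2) := by
    funext p
    rw [hg]
    simp
  rw [e]
  exact hp.comp p (differentiableAt_fst.prodMk differentiableAt_snd.neg)


/-! ### Limits of monotone functions are uniform near a point of differentiability -/

open Filter Topology in
/-- **Pointwise limits of monotone functions converge, near a point of differentiability of the
limit, uniformly up to `ε X` on the ball of radius `X`** (any filter: sequences, ultrafilters). -/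
theorem lim_mono {ι : Type*} {l : Filter ι} {F : ι → ℝ × ℝ → ℝ} {f : ℝ × ℝ → ℝ}
    (hm : ∀ i, Monotone (F i)) (hlim : ∀ x, Tendsto (fun i => F i x) l (𝓝 (f x)))
    {p : ℝ × ℝ} {L : ℝ × ℝ →L[ℝ] ℝ} (hd : HasFDerivAt f L p) {ε : ℝ} (hε : 0 < ε) :
    ∃ X₀ : ℝ, 0 < X₀ ∧ ∀ X : ℝ, 0 < X → X ≤ X₀ → ∀ᶠ i in l, ∀ x : ℝ × ℝ, dist x p ≤ X →
      |F i x - f p - L (x - p)| ≤ ε * X := by
  have h1 := (hasFDerivAt_iff_isLittleO.1 hd).def (show 0 < ε / 8 by positivity)
  obtain ⟨δ, hδ, h2⟩ := Metric.eventually_nhds_iff.1 h1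
  refine ⟨δ / 3, by positivity, fun X hX hX0 => ?_⟩
  obtain ⟨K, hK, hK0⟩ : ∃ K : ℝ, K = ‖L‖ + ε + 1 ∧ 0 < K := ⟨_, rfl, by positivity⟩
  obtain ⟨h, hh⟩ : ∃ h : ℝ, h = ε * X / (8 * K) := ⟨_, rfl⟩
  have hh0 : 0 < h := by rw [hh]; positivity
  have hhL : ‖L‖ * h ≤ ε * X / 8 := by
    rw [hh, ← mul_div_assoc, div_le_div_iff₀ (by positivity) (by norm_num)]
    have : ‖L‖ * (ε * X) ≤ K * (ε * X) := mul_le_mul_of_nonneg_right (by
      rw [hK]; linarith only [hε]) (by positivity)
    linarith only [this]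
  have hhX : h ≤ X := by
    rw [hh, div_le_iff₀ (by positivity)]
    have : ε * X ≤ K * X := mul_le_mul_of_nonneg_right (by
      rw [hK]; have := norm_nonneg L; linarith only [this]) hX.le
    nlinarith only [this, hε, hX]
  obtain ⟨M, hM⟩ : ∃ M : ℤ, X / h + 1 ≤ M := ⟨⌈X / h + 1⌉, Int.le_ceil _⟩
  have h3 : ∀ᶠ i in l, ∀ a ∈ Finset.Icc (-M) M, ∀ b ∈ Finset.Icc (-M) M,
      |F i (p.1 + a * h, p.2 + b * h) - f (p.1 + a * h, p.2 + b * h)| ≤ ε * X / 8 := by
    rw [Filter.eventually_all_finset]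
    intro a ha
    rw [Filter.eventually_all_finset]
    intro b hb
    filter_upwards [(hlim (p.1 + a * h, p.2 + b * h)).eventually
      (Metric.ball_mem_nhds _ (show 0 < ε * X / 8 by positivity))] with i hi
    exact (Real.dist_eq _ _ ▸ hi.le : _)
  filter_upwards [h3] with i hi x hx
  have hx1 : |x.1 - p.1| ≤ X := by
    refine le_trans ?_ hx
    rw [Prod.dist_eq, ← Real.dist_eq]
    exact le_max_left _ _
  exact by
   have hx2 : |x.2 - p.2| ≤ X := by
     refine le_trans ?_ hx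
     rw [Prod.dist_eq, ← Real.dist_eq]
     exact le_max_right _ _
   -- one grid index
   have key : ∀ u : ℝ, |u| ≤ X → ∃ a : ℤ, a ∈ Finset.Icc (-M) M ∧ a + 1 ∈ Finset.Icc (-M) M ∧
       (a : ℝ) * h ≤ u ∧ u ≤ ((a + 1 : ℤ) : ℝ) * h ∧ u - h ≤ (a : ℝ) * h ∧
       ((a + 1 : ℤ) : ℝ) * h ≤ u + h := by
     intro u hu
     have hu' := abs_le.1 hu
     have e1 : u / h * h = u := div_mul_cancel₀ _ hh0.ne'
     have a1 := Int.floor_le (u / h)
     have a2 := Int.lt_floor_add_one (u / h)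
     have b1 := mul_le_mul_of_nonneg_right a1 hh0.le
     have b2 := mul_le_mul_of_nonneg_right a2.le hh0.le
     rw [e1] at b1 b2
     have c1 : -(X / h) ≤ u / h := by
       rw [← neg_div]
       exact div_le_div_of_nonneg_right hu'.1 hh0.le
     have c2 : u / h ≤ X / h := div_le_div_of_nonneg_right hu'.2 hh0.le
     refine ⟨⌊u / h⌋, ?_, ?_, b1, by push_cast; exact b2, by linarith only [b2], by push_cast; linarith only [b1]⟩
     · rw [Finset.mem_Icc]
       constructor
       · have : (-M : ℝ) < (⌊u / h⌋ : ℝ) + 1 := by linarith only [hM, a2, c1]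
         have : -M < ⌊u / h⌋ + 1 := by exact_mod_cast this
         omega
       · have : (⌊u / h⌋ : ℝ) ≤ M := by linarith only [hM, a1, c2]
         exact_mod_cast this
     · rw [Finset.mem_Icc]
       constructor
       · have : (-M : ℝ) ≤ (⌊u / h⌋ : ℝ) + 1 := by linarith only [hM, a2, c1]
         exact_mod_cast this
       · have : (⌊u / h⌋ : ℝ) + 1 ≤ M := by linarith only [hM, a1, c2]
         exact_mod_cast this
   exact by
    obtain ⟨a, ha1, ha2, ha3, ha4, ha5, ha6⟩ := key _ hx1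
    obtain ⟨b, hb1, hb2, hb3, hb4, hb5, hb6⟩ := key _ hx2
    -- the estimate at a grid point
    have est : ∀ g : ℝ × ℝ, |g.1 - x.1| ≤ h → |g.2 - x.2| ≤ h →
        |f g - f p - L (x - p)| ≤ 3 * (ε * X / 8) := by
      intro g g1 g2
      have d1 : dist g x ≤ h := by
        rw [Prod.dist_eq, Real.dist_eq, Real.dist_eq]
        exact max_le g1 g2
      have d2 : dist g p ≤ 2 * X := (dist_triangle g x p).trans (by linarith only [hhX, hx, d1])
      have d3 := h2 (show dist g p < δ by linarith only [hX, hX0, d2])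
      rw [Real.norm_eq_abs] at d3
      have d4 : ‖g - p‖ ≤ 2 * X := by rw [← dist_eq_norm]; exact d2
      have d5 : ε / 8 * ‖g - p‖ ≤ ε / 8 * (2 * X) := mul_le_mul_of_nonneg_left d4 (by positivity)
      have d6 : |L (g - x)| ≤ ‖L‖ * h := by
        have := L.le_opNorm (g - x)
        rw [Real.norm_eq_abs, ← dist_eq_norm] at this
        exact this.trans (mul_le_mul_of_nonneg_left d1 (norm_nonneg _))
      have d7 : L (g - p) = L (g - x) + L (x - p) := by
        rw [← map_add]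
        congr 1
        abel
      rw [d7] at d3
      have e1 := abs_le.1 (d3.trans d5)
      have e2 := abs_le.1 d6
      rw [abs_le]
      constructor <;> linarith only [hhL, e1, e2]
    have up := hi (a + 1) ha2 (b + 1) hb2
    have lo := hi a ha1 b hb1
    have m1 : F i x ≤ F i (p.1 + ((a + 1 : ℤ) : ℝ) * h, p.2 + ((b + 1 : ℤ) : ℝ) * h) := hm i ⟨by
      show x.1 ≤ p.1 + ((a + 1 : ℤ) : ℝ) * h
      linarith only [ha4], by
      show x.2 ≤ p.2 + ((b + 1 : ℤ) : ℝ) * h
      linarith only [hb4]⟩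
    exact by
     have m2 : F i (p.1 + (a : ℝ) * h, p.2 + (b : ℝ) * h) ≤ F i x := hm i ⟨by
       show p.1 + (a : ℝ) * h ≤ x.1
       linarith only [ha3], by
       show p.2 + (b : ℝ) * h ≤ x.2
       linarith only [hb3]⟩
     have s1 := est (p.1 + ((a + 1 : ℤ) : ℝ) * h, p.2 + ((b + 1 : ℤ) : ℝ) * h) (by
       rw [abs_le]; constructor <;> (simp only; linarith)) (by
       rw [abs_le]; constructor <;> (simp only; linarith))
     have s2 := est (p.1 + (a : ℝ) * h, p.2 + (b : ℝ) * h) (by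
       rw [abs_le]; constructor <;> (simp only; linarith)) (by
       rw [abs_le]; constructor <;> (simp only; linarith))
     have t1 := abs_le.1 up
     have t2 := abs_le.1 lo
     have t3 := abs_le.1 s1
     have t4 := abs_le.1 s2
     rw [abs_le]
     constructor <;> linarith

open Filter Topology in
/-- `lim_mono` for functions which increase in the first and decrease in the second variable. -/
theorem lim_mono' {ι : Type*} {l : Filter ι} {F : ι → ℝ × ℝ → ℝ} {f : ℝ × ℝ → ℝ}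
    (h1 : ∀ i, ∀ y, Monotone fun x => F i (x, y)) (h2 : ∀ i, ∀ x, Antitone fun y => F i (x, y))
    (hlim : ∀ x, Tendsto (fun i => F i x) l (𝓝 (f x)))
    {p : ℝ × ℝ} {L : ℝ × ℝ →L[ℝ] ℝ} (hd : HasFDerivAt f L p) {ε : ℝ} (hε : 0 < ε) :
    ∃ X₀ : ℝ, 0 < X₀ ∧ ∀ X : ℝ, 0 < X → X ≤ X₀ → ∀ᶠ i in l, ∀ x : ℝ × ℝ, dist x p ≤ X →
      |F i x - f p - L (x - p)| ≤ ε * X := by
  obtain ⟨R, hR⟩ : ∃ R : ℝ × ℝ →L[ℝ] ℝ × ℝ, ∀ x, R x = (x.1, -x.2) :=
    ⟨(ContinuousLinearMap.fst ℝ ℝ ℝ).prod (-ContinuousLinearMap.snd ℝ ℝ ℝ), fun x => rfl⟩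
  have hRR : ∀ x, R (R x) = x := fun x => by rw [hR, hR]; simp
  have hm : ∀ i, Monotone fun x => F i (R x) := by
    intro i x y hxy
    show F i (R x) ≤ F i (R y)
    rw [hR, hR]
    exact (h1 i (-x.2) hxy.1).trans (h2 i y.1 (neg_le_neg hxy.2))
  have hdR : HasFDerivAt (fun x => f (R x)) (L.comp R) (R p) := by
    have h3 : HasFDerivAt f L (R (R p)) := by rw [hRR]; exact hd
    exact h3.comp (R p) R.hasFDerivAt
  obtain ⟨X₀, hX₀, h3⟩ := lim_mono (l := l) hm (fun x => hlim (R x)) hdR hε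
  refine ⟨X₀, hX₀, fun X hX hX0 => ?_⟩
  filter_upwards [h3 X hX hX0] with i hi x hx
  have h4 := hi (R x) (by
    refine le_trans (le_of_eq ?_) hx
    rw [hR, hR, Prod.dist_eq, Prod.dist_eq]
    simp only
    rw [dist_neg_neg])
  simp only [hRR] at h4
  have h5 : (L.comp R) (R x - R p) = L (x - p) := by
    rw [ContinuousLinearMap.comp_apply, ← map_sub, hRR]
  rw [h5] at h4
  exact h4

end Pool.M2D
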