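import Pool.Agent.H92.GN.Vis

/-!
# Records: almost closed functions, the time, the telescope and the box theorem
-/

set_option autoImplicit false

namespace Pool.RCD

open Finset Real
open Pool.Agent.H49.Ent Pool.Agent.H32.Dense Pool.STK Pool.KA Pool.KSAT Pool.K2S Pool.PB Pool.S6C
  Pool.GEN

section Fin

variable {Ω α β V V' U : Type} [Fintype Ω]

/-- Conditioning on an event and on a value. -/
theorem cond_ev (p : Ω → ℝ) {B : Ω → Prop} (hB : Pe p B ≠ 0) (l : Ω → U) (k : U) :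
    Pool.Agent.H49.Ent.cond (Pool.Agent.H49.Ent.cond p B True) l k =
      Pool.Agent.H49.Ent.cond p (fun ω => B ω ∧ l ω = k) True := by
  classical
  have h1 : law (Pool.Agent.H49.Ent.cond p B True) l k = Pe p (fun ω => B ω ∧ l ω = k) / Pe p B := by
    rw [← Pe_cond, Pe_eq]
    unfold law
    rfl
  funext ω
  unfold Pool.Agent.H49.Ent.cond
  have h2 : law p B True = Pe p B := by
    rw [Pe_eq]
    unfold law
    refine sum_congr rfl fun ω _ => ?_
    by_cases h : B ω <;> simp [h]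
  have h3 : law p (fun ω => B ω ∧ l ω = k) True = Pe p (fun ω => B ω ∧ l ω = k) := by
    rw [Pe_eq]
    unfold law
    refine sum_congr rfl fun ω _ => ?_
    by_cases h : B ω ∧ l ω = k <;> simp [h]
  unfold Pool.Agent.H49.Ent.cond at h1
  rw [h1, h2, h3]
  by_cases ha : B ω <;> by_cases hb : l ω = k
  · simp only [ha, hb, if_true, and_self]
    field_simp
  · simp [ha, hb]
  · simp [ha, hb]
  · simp [ha, hb]

/-- Conditional entropy given a pair as an average. -/
theorem CH_pair_sum [DecidableEq U] {p : Ω → ℝ} (hp : ∀ ω, 0 ≤ p ω) (X : Ω → V') (Y : Ω → V)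
    (Z : Ω → U) : CH p X (fun ω => (Y ω, Z ω)) =
      ∑ z ∈ univ.image Z, law p Z z * CH (Pool.Agent.H49.Ent.cond p Z z) X Y := by
  have h1 := CH_eq_sum hp (fun ω => (X ω, Y ω)) Z
  have h2 := CH_eq_sum hp Y Z
  have h3 : CH p X (fun ω => (Y ω, Z ω)) = CH p (fun ω => (X ω, Y ω)) Z - CH p Y Z := by
    rw [CH_chain hp X Y Z]
    ring
  rw [h3, h1, h2, ← Finset.sum_sub_distrib]
  refine Finset.sum_congr rfl fun z _ => ?_
  unfold CH
  ring

/-- The entropy splits over the values of a function with few values. -/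
theorem CH_pieces {p : Ω → ℝ} (hp : IsLaw p) {B : Ω → Prop} (hB : 0 < Pe p B) {N : ℕ}
    (l : Ω → Fin N) (z' : Ω → V') (z : Ω → V) :
    CH (Pool.Agent.H49.Ent.cond p B True) z' z ≤ Real.log N +
      ∑ k, Pe p (fun ω => B ω ∧ l ω = k) / Pe p B *
        CH (Pool.Agent.H49.Ent.cond p (fun ω => B ω ∧ l ω = k) True) z' z := by
  classical
  have hcl := isLaw_cond hp hB
  have h1 := CH_le_add hcl.nonneg z' l z
  have h2 : CH (Pool.Agent.H49.Ent.cond p B True) l z ≤ Real.log N := by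
    refine (CH_le_H' hcl l z).trans ?_
    have := H_le_log_card hcl.nonneg hcl.sum_one l univ fun ω _ => mem_univ _
    rwa [card_univ, Fintype.card_fin] at this
  have h3 : CH (Pool.Agent.H49.Ent.cond p B True) z' (fun ω => (l ω, z ω)) =
      CH (Pool.Agent.H49.Ent.cond p B True) z' (fun ω => (z ω, l ω)) := by
    refine CH_congr hcl.nonneg ?_ ?_ ?_ ?_
    · intro ω ω' _ _ hh
      exact (Prod.ext_iff.mp hh).1
    · intro ω ω' _ _ hh
      exact (Prod.ext_iff.mp hh).1
    · intro ω ω' _ _ hh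
      simp only [Prod.mk.injEq] at hh ⊢
      tauto
    · intro ω ω' _ _ hh
      simp only [Prod.mk.injEq] at hh ⊢
      tauto
  have h4 : ∀ k, law (Pool.Agent.H49.Ent.cond p B True) l k =
      Pe p (fun ω => B ω ∧ l ω = k) / Pe p B := by
    intro k
    rw [← Pe_cond, Pe_eq]
    unfold law
    rfl
  have h5 : CH (Pool.Agent.H49.Ent.cond p B True) z' (fun ω => (z ω, l ω)) ≤
      ∑ k, Pe p (fun ω => B ω ∧ l ω = k) / Pe p B *
        CH (Pool.Agent.H49.Ent.cond p (fun ω => B ω ∧ l ω = k) True) z' z := by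
    rw [CH_pair_sum hcl.nonneg]
    have e : ∀ k, law (Pool.Agent.H49.Ent.cond p B True) l k *
        CH (Pool.Agent.H49.Ent.cond (Pool.Agent.H49.Ent.cond p B True) l k) z' z =
        Pe p (fun ω => B ω ∧ l ω = k) / Pe p B *
          CH (Pool.Agent.H49.Ent.cond p (fun ω => B ω ∧ l ω = k) True) z' z := by
      intro k
      rw [h4, cond_ev p hB.ne']
    rw [sum_congr rfl fun k _ => e k]
    refine sum_le_sum_of_subset_of_nonneg (subset_univ _) fun k _ _ => ?_
    refine mul_nonneg (div_nonneg (Pe_nonneg hp _) hB.le) ?_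
    rcases eq_or_lt_of_le (Pe_nonneg hp (fun ω => B ω ∧ l ω = k)) with h0 | h0
    · have e0 : Pool.Agent.H49.Ent.cond p (fun ω => B ω ∧ l ω = k) True = fun _ => 0 := by
        funext ω
        unfold Pool.Agent.H49.Ent.cond
        have h3 : law p (fun ω => B ω ∧ l ω = k) True = Pe p (fun ω => B ω ∧ l ω = k) := by
          rw [Pe_eq]
          unfold law
          refine sum_congr rfl fun ω _ => ?_
          by_cases h : B ω ∧ l ω = k <;> simp [h]
        rw [h3, ← h0, div_zero, ite_self]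
      rw [e0]
      exact CH_nonneg (fun _ => le_rfl) _ _
    · exact CH_nonneg (isLaw_cond hp h0).nonneg _ _
  linarith

/-- `z` is a function of `g`, and one of `N` functions of `f`, on the event. -/
def Acl (f : Ω → α) (g : Ω → β) (N : ℕ) (A : Ω → Prop) (z : Ω → V) : Prop :=
  (∃ φ : α → Fin N → V, ∀ ω, A ω → ∃ k, z ω = φ (f ω) k) ∧ ∃ ψ : β → V, ∀ ω, A ω → z ω = ψ (g ω)

omit [Fintype Ω] in
/-- The pieces on which an almost closed function is closed. -/
theorem Acl.pieces {f : Ω → α} {g : Ω → β} {N : ℕ} {A : Ω → Prop} {z : Ω → V}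
    (h : Acl f g N A z) (hN : 0 < N) : ∃ l : Ω → Fin N,
      ∀ k, Cl2 f g (fun ω => A ω ∧ l ω = k) z := by
  classical
  obtain ⟨⟨φ, hφ⟩, ψ, hψ⟩ := h
  refine ⟨fun ω => if h : A ω then (hφ ω h).choose else ⟨0, hN⟩, fun k =>
    ⟨⟨fun a => φ a k, ?_⟩, ψ, fun ω hω => hψ ω hω.1⟩⟩
  rintro ω ⟨h1, h2⟩
  have h3 : (hφ ω h1).choose = k := by simpa only [dif_pos h1] using h2
  have h4 := (hφ ω h1).choose_spec
  rw [h3] at h4
  exact h4

/-! ### The telescope -/

/-- Information of a function of the later record, given the earlier record. -/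
theorem info_step {q : Ω → ℝ} (hq : IsLaw q) {U V₀ V₁ Y : Type} (u : Ω → U) (z₀ : Ω → V₀)
    (z₁ : Ω → V₁) (y : Ω → Y) (h0 : Det q z₁ z₀) (hy : Det q z₁ y) :
    CH q u z₀ - CH q u (fun ω => (y ω, z₀ ω)) ≤ CH q u z₀ - CH q u z₁ := by
  have := CH_mono_cond hq.nonneg (X := u) (W' := z₁) (W := fun ω => (y ω, z₀ ω))
    fun ω ω' a b hh => Prod.ext (hy ω ω' a b hh) (h0 ω ω' a b hh)
  linarith

/-- **The telescope**: the informations of the increments of nested records on `u` sum up to at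
most the entropy of `u` given the first record. -/
theorem tele {q : Ω → ℝ} (hq : IsLaw q) (u : Ω → U) {V : ℕ → Type} (z : ∀ k, Ω → V k) (n : ℕ) :
    ∑ k ∈ range n, (CH q u (z k) - CH q u (z (k + 1))) ≤ CH q u (z 0) := by
  have h : ∑ k ∈ range n, (CH q u (z k) - CH q u (z (k + 1))) = CH q u (z 0) - CH q u (z n) := by
    induction n with
    | zero => simp
    | succ n ih =>
      rw [sum_range_succ, ih]
      ring
  rw [h]
  have := CH_nonneg hq.nonneg u (z n)
  linarith

/-- **The box theorem**: the increments of a nested chain of records carry little information on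
`u`, except for few of them. -/
theorem box {q : Ω → ℝ} (hq : IsLaw q) (u : Ω → U) {V : ℕ → Type} (z : ∀ k, Ω → V k) (n : ℕ)
    (hn : ∀ k < n, Det q (z (k + 1)) (z k)) {δ H : ℝ} (hδ : 0 < δ) (hH : CH q u (z 0) ≤ H) :
    ∃ Bd : Finset ℕ, Bd ⊆ range n ∧ (Bd.card : ℝ) ≤ H / δ ∧ ∀ k < n, k ∉ Bd →
      CH q u (z k) - CH q u (z (k + 1)) ≤ δ := by
  classical
  refine ⟨(range n).filter fun k => δ < CH q u (z k) - CH q u (z (k + 1)), filter_subset _ _,
    ?_, fun k hk hb => ?_⟩
  · rw [le_div_iff₀ hδ]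
    refine le_trans ?_ ((tele hq u z n).trans hH)
    have h1 : ∑ k ∈ (range n).filter fun k => δ < CH q u (z k) - CH q u (z (k + 1)),
        (CH q u (z k) - CH q u (z (k + 1))) ≤
        ∑ k ∈ range n, (CH q u (z k) - CH q u (z (k + 1))) := by
      refine sum_le_sum_of_subset_of_nonneg (filter_subset _ _) fun k hk _ => ?_
      have := CH_mono_cond hq.nonneg (X := u) (hn k (mem_range.1 hk))
      linarith
    refine le_trans ?_ h1
    rw [← nsmul_eq_mul]
    refine card_nsmul_le_sum _ _ _ fun k hk => ?_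
    rw [mem_filter] at hk
    exact hk.2.le
  · by_contra hcon
    push Not at hcon
    exact hb (mem_filter.2 ⟨mem_range.2 hk, hcon⟩)

/-- The same for a chain given additional information `w` (for instance the time), with any
function of the next record: `y k` is free of `u` given `(z k, w)`. -/
theorem box_free {q : Ω → ℝ} (hq : IsLaw q) (u : Ω → U) {W : Type} (w : Ω → W) {V : ℕ → Type}
    (z : ∀ k, Ω → V k) (n : ℕ) (hn : ∀ k < n, Det q (z (k + 1)) (z k)) {δ H : ℝ} (hδ : 0 < δ)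
    (hH : CH q u (fun ω => (z 0 ω, w ω)) ≤ H) :
    ∃ Bd : Finset ℕ, Bd ⊆ range n ∧ (Bd.card : ℝ) ≤ H / δ ∧ ∀ k < n, k ∉ Bd →
      ∀ (Y Y' : Type) (y : Ω → Y) (y' : Ω → Y'), Det q (fun ω => (z (k + 1) ω, w ω)) y →
        Det q (fun ω => (z (k + 1) ω, w ω)) y' →
        CH q y (fun ω => (y' ω, (z k ω, w ω))) - δ ≤
          CH q y (fun ω => (u ω, (y' ω, (z k ω, w ω)))) := by
  obtain ⟨Bd, h1, h2, h3⟩ := box hq u (fun k ω => (z k ω, w ω)) n (fun k hk ω ω' a b hh => by
    have h := Prod.ext_iff.mp hh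
    exact Prod.ext (hn k hk ω ω' a b h.1) h.2) hδ hH
  refine ⟨Bd, h1, h2, fun k hk hb Y Y' y y' hy hy' => ?_⟩
  have h4 := h3 k hk hb
  -- symmetry of the information
  have s1 := CH_chain hq.nonneg y u (fun ω => (y' ω, (z k ω, w ω)))
  have s2 := CH_chain hq.nonneg u y (fun ω => (y' ω, (z k ω, w ω)))
  have s3 : CH q (fun ω => (y ω, u ω)) (fun ω => (y' ω, (z k ω, w ω))) =
      CH q (fun ω => (u ω, y ω)) (fun ω => (y' ω, (z k ω, w ω))) := by
    refine CH_congr hq.nonneg ?_ ?_ (fun _ _ _ _ h => h) (fun _ _ _ _ h => h) <;>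
    · intro ω ω' _ _ hh
      simp only [Prod.mk.injEq] at hh ⊢
      tauto
  have s4 : CH q u (fun ω => (z (k + 1) ω, w ω)) ≤
      CH q u (fun ω => (y ω, (y' ω, (z k ω, w ω)))) := by
    refine CH_mono_cond hq.nonneg fun ω ω' a b hh => ?_
    have h := Prod.ext_iff.mp hh
    exact Prod.ext (hy ω ω' a b hh) (Prod.ext (hy' ω ω' a b hh)
      (Prod.ext (hn k hk ω ω' a b h.1) h.2))
  have s5 : CH q u (fun ω => (y' ω, (z k ω, w ω))) ≤ CH q u (fun ω => (z k ω, w ω)) :=
    CH_mono_cond hq.nonneg fun _ _ _ _ hh => (Prod.ext_iff.mp hh).2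
  linarith

end Fin

variable {m : ℕ}

/-! ### Almost closed functions -/

/-- **Records determine the functions which are closed on the pieces of a small partition.** -/
theorem Rcd.pcs {ι : Type} {le : ι → ι → Prop} {α β : ι → ∀ J : ℕ, Fam m J → Type}
    {f : ∀ (i : ι) (J : ℕ) (F : Fam m J), F.Ω → α i J F}
    {g : ∀ (i : ι) (J : ℕ) (F : Fam m J), F.Ω → β i J F} {η : ι → ℝ} {h κ : ℝ} {J : ℕ}
    {F : Fam m J} {A : F.Ω → Prop} {V : ι → Type} {z : ∀ i, F.Ω → V i}
    (R : Rcd le f g η h κ F A z) (hh : 0 ≤ h) (hκ : 0 ≤ κ) {B : F.Ω → Prop} (hB : Lg F (κ / 2) A B)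
    (i : ι) {V' : Type}
    {z' : F.Ω → V'} {N : ℕ} (l : F.Ω → Fin N)
    (hl : ∀ k, Cl2 (f i J F) (g i J F) (fun ω => B ω ∧ l ω = k) z') {M : ℝ}
    (hM0 : 0 ≤ M) (hM : (cnt F.p (f i J F) B : ℝ) ≤ Real.exp (M * J)) :
    CH (Pool.Agent.H49.Ent.cond F.p B True) z' (z i) ≤
      h * J + Real.log N + N * Real.exp (-(κ / 2 * J)) * (M * J) := by
  classical
  have hJ0 : (0 : ℝ) ≤ J := Nat.cast_nonneg J
  have hA0 : 0 < Pe F.p A := R.pos A (Lg.refl F hκ A)
  have hB0 : 0 < Pe F.p B := lt_of_lt_of_le (mul_pos (Real.exp_pos _) hA0) hB.2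
  refine (CH_pieces F.isLaw hB0 l z' (z i)).trans ?_
  have key : ∀ k, Pe F.p (fun ω => B ω ∧ l ω = k) / Pe F.p B *
      CH (Pool.Agent.H49.Ent.cond F.p (fun ω => B ω ∧ l ω = k) True) z' (z i) ≤
      Pe F.p (fun ω => B ω ∧ l ω = k) / Pe F.p B * (h * J) +
        Real.exp (-(κ / 2 * J)) * (M * J) := by
    intro k
    obtain ⟨x, hx⟩ : ∃ x, x = Pe F.p (fun ω => B ω ∧ l ω = k) / Pe F.p B := ⟨_, rfl⟩
    have hx0 : 0 ≤ x := by rw [hx]; exact div_nonneg (Pe_nonneg F.isLaw _) hB0.le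
    rw [← hx]
    have hMJ : 0 ≤ M * J := mul_nonneg hM0 hJ0
    by_cases hlg : Real.exp (-(κ / 2 * J)) ≤ x
    · have h1 : Lg F κ A (fun ω => B ω ∧ l ω = k) := by
        refine ⟨fun ω hω => hB.1 ω hω.1, ?_⟩
        rw [hx, le_div_iff₀ hB0] at hlg
        refine le_trans ?_ hlg
        have e : Real.exp (-(κ * J)) = Real.exp (-(κ / 2 * J)) * Real.exp (-(κ / 2 * J)) := by
          rw [← Real.exp_add]
          congr 1
          ring
        rw [e, mul_assoc]
        exact mul_le_mul_of_nonneg_left hB.2 (Real.exp_pos _).le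
      have h2 := R.max _ h1 i V' z' (hl k)
      have h3 := mul_le_mul_of_nonneg_left h2 hx0
      have h4 : 0 ≤ Real.exp (-(κ / 2 * J)) * (M * J) := mul_nonneg (Real.exp_pos _).le hMJ
      linarith
    · push Not at hlg
      have h5 : 0 ≤ x * (h * J) := mul_nonneg hx0 (mul_nonneg hh hJ0)
      rcases eq_or_lt_of_le (Pe_nonneg F.isLaw (fun ω => B ω ∧ l ω = k)) with h0 | h0
      · have hx1 : x = 0 := by rw [hx, ← h0, zero_div]
        rw [hx1]
        have h4 : 0 ≤ Real.exp (-(κ / 2 * J)) * (M * J) := mul_nonneg (Real.exp_pos _).le hMJ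
        linarith
      · have hcl := isLaw_cond F.isLaw h0
        have h6 : CH (Pool.Agent.H49.Ent.cond F.p (fun ω => B ω ∧ l ω = k) True) z' (z i) ≤
            M * J := by
          refine (CH_le_H' hcl z' (z i)).trans ?_
          obtain ⟨φ, hφ⟩ := (hl k).1
          have h7 : H (Pool.Agent.H49.Ent.cond F.p (fun ω => B ω ∧ l ω = k) True) z' ≤
              H (Pool.Agent.H49.Ent.cond F.p (fun ω => B ω ∧ l ω = k) True) (f i J F) := by
            refine H_mono hcl.nonneg fun ω ω' a b hh => ?_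
            have a1 := (cond_pos_iff F.isLaw.nonneg _ True ω).1 a
            have b1 := (cond_pos_iff F.isLaw.nonneg _ True ω').1 b
            have a2 : B ω ∧ l ω = k := by simpa using a1.2
            have b2 : B ω' ∧ l ω' = k := by simpa using b1.2
            rw [hφ ω a2, hφ ω' b2, hh]
          refine h7.trans ((H_le_cnt F.isLaw (f i J F) h0).trans ?_)
          have h8 : (cnt F.p (f i J F) (fun ω => B ω ∧ l ω = k) : ℝ) ≤ Real.exp (M * J) := by
            refine le_trans ?_ hM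
            have h9 : Sub (fun ω => B ω ∧ l ω = k) B := fun ω hω => hω.1
            exact_mod_cast cnt_mono F.p (f i J F) h9
          have h9 : (1 : ℝ) ≤ cnt F.p (f i J F) (fun ω => B ω ∧ l ω = k) := by
            exact_mod_cast one_le_cnt F.isLaw (f i J F) h0
          have := Real.log_le_log (by linarith) h8
          rwa [Real.log_exp] at this
        have h10 : x * CH (Pool.Agent.H49.Ent.cond F.p (fun ω => B ω ∧ l ω = k) True) z' (z i) ≤
            x * (M * J) := mul_le_mul_of_nonneg_left h6 hx0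
        have h11 : x * (M * J) ≤ Real.exp (-(κ / 2 * J)) * (M * J) :=
          mul_le_mul_of_nonneg_right hlg.le hMJ
        linarith
  have hsum := sum_le_sum fun k (_ : k ∈ (univ : Finset (Fin N))) => key k
  rw [sum_add_distrib, ← sum_mul] at hsum
  have h1 : ∑ k, Pe F.p (fun ω => B ω ∧ l ω = k) / Pe F.p B = 1 := by
    rw [← sum_div, div_eq_one_iff_eq hB0.ne']
    have e1 : ∀ k, Pe F.p (fun ω => B ω ∧ l ω = k) =
        ∑ ω, if l ω = k then (if B ω then F.p ω else 0) else 0 := by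
      intro k
      rw [Pe_eq]
      refine sum_congr rfl fun ω _ => ?_
      by_cases h1 : B ω <;> by_cases h2 : l ω = k <;> simp [h1, h2]
    rw [sum_congr rfl fun k _ => e1 k, sum_comm, Pe_eq]
    refine sum_congr rfl fun ω _ => ?_
    rw [sum_ite_eq, if_pos (mem_univ _)]
  rw [h1, one_mul, sum_const, card_univ, Fintype.card_fin, nsmul_eq_mul] at hsum
  linarith

/-- **Records determine the almost closed functions**: functions of the line side, one of `N`
functions of the point side. -/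
theorem Rcd.acl {ι : Type} {le : ι → ι → Prop} {α β : ι → ∀ J : ℕ, Fam m J → Type}
    {f : ∀ (i : ι) (J : ℕ) (F : Fam m J), F.Ω → α i J F}
    {g : ∀ (i : ι) (J : ℕ) (F : Fam m J), F.Ω → β i J F} {η : ι → ℝ} {h κ : ℝ} {J : ℕ}
    {F : Fam m J} {A : F.Ω → Prop} {V : ι → Type} {z : ∀ i, F.Ω → V i}
    (R : Rcd le f g η h κ F A z) (hh : 0 ≤ h) (hκ : 0 ≤ κ) {B : F.Ω → Prop}
    (hB : Lg F (κ / 2) A B) (i : ι) {V' : Type}
    {z' : F.Ω → V'} {N : ℕ} (hN : 0 < N) (hz : Acl (f i J F) (g i J F) N B z') {M : ℝ}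
    (hM0 : 0 ≤ M) (hM : (cnt F.p (f i J F) B : ℝ) ≤ Real.exp (M * J)) :
    CH (Pool.Agent.H49.Ent.cond F.p B True) z' (z i) ≤
      h * J + Real.log N + N * Real.exp (-(κ / 2 * J)) * (M * J) := by
  obtain ⟨l, hl⟩ := hz.pieces hN
  exact R.pcs hh hκ hB i l hl hM0 hM

/-- **Records determine the almost closed functions**, the other way: functions of the point side,
one of `N` functions of the line side (for instance rounded germs which agree with the polynomials
of the line). -/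
theorem Rcd.acl' {ι : Type} {le : ι → ι → Prop} {α β : ι → ∀ J : ℕ, Fam m J → Type}
    {f : ∀ (i : ι) (J : ℕ) (F : Fam m J), F.Ω → α i J F}
    {g : ∀ (i : ι) (J : ℕ) (F : Fam m J), F.Ω → β i J F} {η : ι → ℝ} {h κ : ℝ} {J : ℕ}
    {F : Fam m J} {A : F.Ω → Prop} {V : ι → Type} {z : ∀ i, F.Ω → V i}
    (R : Rcd le f g η h κ F A z) (hh : 0 ≤ h) (hκ : 0 ≤ κ) {B : F.Ω → Prop}
    (hB : Lg F (κ / 2) A B) (i : ι) {V' : Type}
    {z' : F.Ω → V'} {N : ℕ} (hN : 0 < N) (hz : Acl (g i J F) (f i J F) N B z') {M : ℝ}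
    (hM0 : 0 ≤ M) (hM : (cnt F.p (f i J F) B : ℝ) ≤ Real.exp (M * J)) :
    CH (Pool.Agent.H49.Ent.cond F.p B True) z' (z i) ≤
      h * J + Real.log N + N * Real.exp (-(κ / 2 * J)) * (M * J) := by
  obtain ⟨l, hl⟩ := hz.pieces hN
  exact R.pcs hh hκ hB i l (fun k => ⟨(hl k).2, (hl k).1⟩) hM0 hM

/-! ### The time -/

/-- Given the line and a closed function, the time is uniform on the window. -/
theorem time_cl {J : ℕ} {F : Fam m J} {B : F.Ω → Prop} (hB : 0 < Pe F.p B) {w : ℕ} (hw : w ≤ J)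
    {e : ℝ} (hT : (J : ℝ) * Real.log 2 - e ≤
      CH (Pool.Agent.H49.Ent.cond F.p B True) F.T (fun ω => (F.l ω, F.Z ω)))
    {V : Type} {z : F.Ω → V} (hz : ∃ ψ : LnT F → V, ∀ ω, B ω → z ω = ψ (slam F w ω)) :
    ((J : ℝ) - w) * Real.log 2 - e ≤
      CH (Pool.Agent.H49.Ent.cond F.p B True) F.T (fun ω => (z ω, slam F w ω)) := by
  have hcl := isLaw_cond F.isLaw hB
  obtain ⟨ψ, hψ⟩ := hz
  have h1 := CH_le_add hcl.nonneg F.T (F.T1 w) (fun ω => (F.l ω, F.Z ω))
  have h2 : CH (Pool.Agent.H49.Ent.cond F.p B True) (F.T1 w) (fun ω => (F.l ω, F.Z ω)) ≤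
      w * Real.log 2 := by
    refine (CH_le_card hcl.nonneg hcl.sum_one (F.T1 w) _ (fun _ => Finset.range (2 ^ w)) ?_).trans
      ?_
    · intro ω _
      rw [Finset.mem_range]
      unfold Fam.T1
      rw [Nat.div_lt_iff_lt_mul (by positivity), ← pow_add]
      have h1 := F.tim ω
      have e1 : w + (J - w) = J := by omega
      rwa [e1]
    · rw [Finset.card_range]
      push_cast
      rw [Ex_const hcl.sum_one, Real.log_pow]
  have h3 : CH (Pool.Agent.H49.Ent.cond F.p B True) F.T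
      (fun ω => (F.T1 w ω, (F.l ω, F.Z ω))) =
      CH (Pool.Agent.H49.Ent.cond F.p B True) F.T (fun ω => (z ω, slam F w ω)) := by
    refine CH_congr hcl.nonneg ?_ ?_ ?_ ?_
    · intro ω ω' _ _ hh
      exact (Prod.ext_iff.mp hh).1
    · intro ω ω' _ _ hh
      exact (Prod.ext_iff.mp hh).1
    · intro ω ω' a b hh
      have a1 := (cond_pos_iff F.isLaw.nonneg _ True ω).1 a
      have b1 := (cond_pos_iff F.isLaw.nonneg _ True ω').1 b
      have a2 : B ω := by simpa using a1.2
      have b2 : B ω' := by simpa using b1.2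
      have hs : slam F w ω = slam F w ω' := by
        simp only [Prod.mk.injEq] at hh
        simp only [slam, Prod.mk.injEq]
        tauto
      refine Prod.ext ?_ hs
      simp only
      rw [hψ ω a2, hψ ω' b2, hs]
    · intro ω ω' _ _ hh
      simp only [slam, Prod.mk.injEq] at hh ⊢
      tauto
  rw [h3] at h1
  have h4 : ((J : ℝ) - w) * Real.log 2 = J * Real.log 2 - w * Real.log 2 := by ring
  linarith

end Pool.RCD
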